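import Pool.Agent.helper56.Per.Basic

/-!
# Primitive vectors, good reduction, contraction
-/

namespace Pool.Agent.helper56.Per

open Finset

variable {K : Type*} [Field K]

/-- A cycle in homogeneous coordinates of `(X, Y) ↦ (X (X + a Y), Y (b X + Y))`. -/
structure HCyc (a b : K) (n : ℕ) (lam : K) (X Y c : ℕ → K) : Prop where
  npos : 0 < n
  cne : ∀ i, c i ≠ 0
  fx : ∀ i, X i * (X i + a * Y i) = c i * X (i + 1)
  fy : ∀ i, Y i * (b * X i + Y i) = c i * Y (i + 1)
  perX : ∀ i, X (i + n) = X i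
  perY : ∀ i, Y (i + n) = Y i
  mul : ∏ i ∈ range n, (b * X i ^ 2 + 2 * X i * Y i + a * Y i ^ 2) = lam * ∏ i ∈ range n, c i ^ 2

variable {Γ : Type*} [LinearOrderedCommGroupWithZero Γ] (v : Valuation K Γ)

theorem lt1_of_le_of_lt {x y : Γ} (hx : x ≤ 1) (hy : y < 1) : x * y < 1 :=
  (mul_le_of_le_one_left' hx).trans_lt hy

theorem lt1_of_lt_of_le {x y : Γ} (hx : x < 1) (hy : y ≤ 1) : x * y < 1 :=
  (mul_le_of_le_one_right' hy).trans_lt hx

open Classical in
/-- scaling factor making `(z, 1)` primitive -/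
noncomputable def sc (v : Valuation K Γ) (x : K) : K := if v x ≤ 1 then 1 else x⁻¹

theorem sc_ne (x : K) : sc v x ≠ 0 := by
  unfold sc
  split_ifs with h
  · exact one_ne_zero
  · apply inv_ne_zero
    rintro rfl
    rw [map_zero] at h
    exact h zero_le_one

theorem sc_max (x : K) : max (v (x * sc v x)) (v (sc v x)) = 1 := by
  unfold sc
  split_ifs with h
  · simp [h]
  · have hx : x ≠ 0 := by
      rintro rfl
      rw [map_zero] at h
      exact h zero_le_one
    rw [mul_inv_cancel₀ hx, map_one, map_inv₀, max_eq_left]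
    exact inv_le_one_of_one_le₀ (not_le.1 h).le

theorem NCyc.toH {a b : K} {n : ℕ} {lam : K} {z : ℕ → K} (h : NCyc a b n lam z) :
    ∃ X Y c : ℕ → K, HCyc a b n lam X Y c ∧ (∀ i, max (v (X i)) (v (Y i)) = 1) ∧
      (∀ i, X i = z i * Y i) ∧ (∀ i, Y i ≠ 0) := by
  refine ⟨fun i => z i * sc v (z i), fun i => sc v (z i),
    fun i => sc v (z i) ^ 2 * (b * z i + 1) / sc v (z (i + 1)), ⟨h.npos, ?_, ?_, ?_, ?_, ?_, ?_⟩,
    fun i => sc_max v _, fun i => rfl, fun i => sc_ne v _⟩
  · intro i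
    exact div_ne_zero (mul_ne_zero (pow_ne_zero _ (sc_ne v _)) (h.den i)) (sc_ne v _)
  · intro i
    have := sc_ne v (z (i + 1))
    field_simp
    linear_combination (-(sc v (z i)) ^ 2 : K) * h.step i
  · intro i
    have := sc_ne v (z (i + 1))
    field_simp
  · intro i
    simp only [h.per]
  · intro i
    simp only [h.per]
  · have e1 : ∏ i ∈ range n, (b * (z i * sc v (z i)) ^ 2 + 2 * (z i * sc v (z i)) * sc v (z i)
        + a * sc v (z i) ^ 2) =
        (∏ i ∈ range n, (b * z i ^ 2 + 2 * z i + a)) * ∏ i ∈ range n, sc v (z i) ^ 2 := by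
      rw [← prod_mul_distrib]
      exact prod_congr rfl fun i _ => by ring
    have e2 : (∏ i ∈ range n, (sc v (z i) ^ 2 * (b * z i + 1) / sc v (z (i + 1))) ^ 2) *
        ∏ i ∈ range n, sc v (z (i + 1)) ^ 2
        = (∏ i ∈ range n, (b * z i + 1) ^ 2) * (∏ i ∈ range n, sc v (z i) ^ 2)
          * ∏ i ∈ range n, sc v (z i) ^ 2 := by
      rw [← prod_mul_distrib, ← prod_mul_distrib, ← prod_mul_distrib]
      refine prod_congr rfl fun i _ => ?_
      have := sc_ne v (z (i + 1))
      field_simp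
    have e3 : ∏ i ∈ range n, sc v (z (i + 1)) ^ 2 = ∏ i ∈ range n, sc v (z i) ^ 2 := by
      apply prod_shift (fun i => sc v (z i) ^ 2)
      have := h.per 0
      rw [zero_add] at this
      simp only [this]
    have hne : ∏ i ∈ range n, sc v (z i) ^ 2 ≠ 0 :=
      prod_ne_zero_iff.2 fun i _ => pow_ne_zero _ (sc_ne v _)
    rw [e3] at e2
    have e4 := mul_right_cancel₀ hne e2
    rw [e1, e4, h.mul]
    ring

/-- product of elements bounded by one which is `< 1` has a factor `< 1` -/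
theorem exists_lt_one {n : ℕ} {f : ℕ → Γ} (h : ∏ i ∈ range n, f i < 1)
    : ∃ i, f i < 1 := by
  by_contra hc
  push Not at hc
  exact absurd (one_le_prod₀ hc n) (not_le.2 h)
where
  one_le_prod₀ {f : ℕ → Γ} (h : ∀ i, 1 ≤ f i) (n : ℕ) : 1 ≤ ∏ i ∈ range n, f i := by
    induction n with
    | zero => simp
    | succ k ih => rw [prod_range_succ]; exact one_le_mul ih (h k)

theorem prod_le_pow₀ {f : ℕ → Γ} {M : Γ} (h : ∀ i, f i ≤ M) (n : ℕ) :
    ∏ i ∈ range n, f i ≤ M ^ n := by
  induction n with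
  | zero => simp
  | succ k ih => rw [prod_range_succ, pow_succ]; exact mul_le_mul' ih (h k)

theorem one_le_prod₀ {f : ℕ → Γ} (h : ∀ i, 1 ≤ f i) (n : ℕ) : 1 ≤ ∏ i ∈ range n, f i := by
  induction n with
  | zero => simp
  | succ k ih => rw [prod_range_succ]; exact one_le_mul ih (h k)

section Good

variable {a b : K}

theorem prim_good (ha : v a ≤ 1) (hb : v b ≤ 1) (hab : v (1 - a * b) = 1) {X Y : K}
    (hP : max (v X) (v Y) = 1) : max (v (X * (X + a * Y))) (v (Y * (b * X + Y))) = 1 := by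
  have hX : v X ≤ 1 := hP ▸ le_max_left _ _
  have hY : v Y ≤ 1 := hP ▸ le_max_right _ _
  have haY : v (a * Y) ≤ v Y := by rw [map_mul]; exact mul_le_of_le_one_left' ha
  have hbX : v (b * X) ≤ v X := by rw [map_mul]; exact mul_le_of_le_one_left' hb
  have h1 : v (X + a * Y) ≤ 1 := (v.map_add _ _).trans (max_le hX (haY.trans hY))
  have h2 : v (b * X + Y) ≤ 1 := (v.map_add _ _).trans (max_le (hbX.trans hX) hY)
  apply le_antisymm
  · rw [map_mul, map_mul]
    exact max_le (mul_le_one' hX h1) (mul_le_one' hY h2)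
  · rcases lt_or_eq_of_le hX with hX1 | hX1
    · have hY1 : v Y = 1 := by
        rcases max_choice (v X) (v Y) with h | h
        · rw [h] at hP; exact absurd hP hX1.ne
        · rw [h] at hP; exact hP
      have e : v (b * X + Y) = 1 := by
        rw [Valuation.map_add_eq_of_lt_right v (hbX.trans_lt (hX1.trans_eq hY1.symm)), hY1]
      refine le_max_of_le_right ?_
      rw [map_mul, e, hY1, mul_one]
    · rcases lt_or_eq_of_le hY with hY1 | hY1
      · have e : v (X + a * Y) = 1 := by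
          rw [Valuation.map_add_eq_of_lt_left v (haY.trans_lt (hY1.trans_eq hX1.symm)), hX1]
        refine le_max_of_le_left ?_
        rw [map_mul, e, hX1, mul_one]
      · rw [map_mul, map_mul, hX1, hY1, one_mul, one_mul]
        by_contra hc
        rw [not_le, max_lt_iff] at hc
        have e : X * (1 - a * b) = (X + a * Y) + -(a * (b * X + Y)) := by ring
        have e2 := congrArg v e
        rw [map_mul, hX1, hab, one_mul] at e2
        have : v ((X + a * Y) + -(a * (b * X + Y))) < 1 := by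
          apply Valuation.map_add_lt v hc.1
          rw [Valuation.map_neg, map_mul]
          exact lt1_of_le_of_lt ha hc.2
        exact absurd e2.symm this.ne

theorem c_good {n : ℕ} {lam : K} {X Y c : ℕ → K} (h : HCyc a b n lam X Y c)
    (ha : v a ≤ 1) (hb : v b ≤ 1) (hab : v (1 - a * b) = 1)
    (hP : ∀ i, max (v (X i)) (v (Y i)) = 1) (i : ℕ) : v (c i) = 1 := by
  have := prim_good v ha hb hab (hP i)
  rw [h.fx, h.fy, map_mul, map_mul, ← mul_max, hP, mul_one] at this
  exact this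

theorem B_le {X Y X' Y' : K} (ha : v a ≤ 1) (hb : v b ≤ 1)
    (hP : max (v X) (v Y) = 1) (hQ : max (v X') (v Y') = 1) :
    v (b * X * X' + (X * Y' + X' * Y) + a * Y * Y') ≤ 1 := by
  have hX : v X ≤ 1 := hP ▸ le_max_left _ _
  have hY : v Y ≤ 1 := hP ▸ le_max_right _ _
  have hX' : v X' ≤ 1 := hQ ▸ le_max_left _ _
  have hY' : v Y' ≤ 1 := hQ ▸ le_max_right _ _
  refine (v.map_add_le (v.map_add_le ?_ (v.map_add_le ?_ ?_)) ?_) <;> simp only [map_mul]
  · exact mul_le_one' (mul_le_one' hb hX) hX'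
  · exact mul_le_one' hX hY'
  · exact mul_le_one' hX' hY
  · exact mul_le_one' (mul_le_one' ha hY) hY'

theorem BB_le {X Y : K} (ha : v a ≤ 1) (hb : v b ≤ 1)
    (hP : max (v X) (v Y) = 1) : v (b * X ^ 2 + 2 * X * Y + a * Y ^ 2) ≤ 1 := by
  have := B_le v ha hb hP hP
  rwa [show b * X * X + (X * Y + X * Y) + a * Y * Y = b * X ^ 2 + 2 * X * Y + a * Y ^ 2 by ring]
    at this

theorem lam_good {n : ℕ} {lam : K} {X Y c : ℕ → K} (h : HCyc a b n lam X Y c)
    (ha : v a ≤ 1) (hb : v b ≤ 1) (hab : v (1 - a * b) = 1)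
    (hP : ∀ i, max (v (X i)) (v (Y i)) = 1) :
    v lam = ∏ i ∈ range n, v (b * X i ^ 2 + 2 * X i * Y i + a * Y i ^ 2) := by
  have e := congrArg v h.mul
  rw [map_mul, map_prod, map_prod] at e
  rw [e]
  have : ∏ i ∈ range n, v (c i ^ 2) = 1 := by
    apply prod_eq_one
    intro i _
    rw [map_pow, c_good v h ha hb hab hP, one_pow]
  rw [this, mul_one]

/-- **Good reduction**: the multiplier is integral. -/
theorem good_le_one {n : ℕ} {lam : K} {z : ℕ → K} (h : NCyc a b n lam z)
    (ha : v a ≤ 1) (hb : v b ≤ 1) (hab : v (1 - a * b) = 1) : v lam ≤ 1 := by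
  obtain ⟨X, Y, c, hH, hP, _, _⟩ := h.toH v
  rw [lam_good v hH ha hb hab hP]
  calc ∏ i ∈ range n, v (b * X i ^ 2 + 2 * X i * Y i + a * Y i ^ 2) ≤ 1 ^ n :=
        prod_le_pow₀ (f := fun i => v (b * X i ^ 2 + 2 * X i * Y i + a * Y i ^ 2))
          (fun i => BB_le v ha hb (hP i)) n
    _ = 1 := one_pow n

theorem det_id {X Y X' Y' c c' X1 Y1 X1' Y1' : K} (h1 : X * (X + a * Y) = c * X1)
    (h2 : Y * (b * X + Y) = c * Y1) (h3 : X' * (X' + a * Y') = c' * X1')
    (h4 : Y' * (b * X' + Y') = c' * Y1') :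
    (c * c') * (X1 * Y1' - X1' * Y1)
      = (X * Y' - X' * Y) * (b * X * X' + (X * Y' + X' * Y) + a * Y * Y') := by
  have : (c * X1) * (c' * Y1') - (c' * X1') * (c * Y1)
      = (X * Y' - X' * Y) * (b * X * X' + (X * Y' + X' * Y) + a * Y * Y') := by
    rw [← h1, ← h2, ← h3, ← h4]; ring
  rw [← this]; ring

theorem per_mul {α : Type*} {f : ℕ → α} {n : ℕ} (h : ∀ i, f (i + n) = f i) (i k : ℕ) :
    f (i + k * n) = f i := by
  induction k with
  | zero => simp
  | succ k ih => rw [Nat.succ_mul, ← add_assoc, h, ih]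

/-- **Contraction**: two distinct cycles cannot pass close to a common critical direction. -/
theorem contraction {n m : ℕ} {lam lam' : K} {X Y c X' Y' c' : ℕ → K}
    (h : HCyc a b n lam X Y c) (h' : HCyc a b m lam' X' Y' c')
    (ha : v a ≤ 1) (hb : v b ≤ 1) (hab : v (1 - a * b) = 1)
    (hP : ∀ i, max (v (X i)) (v (Y i)) = 1) (hQ : ∀ i, max (v (X' i)) (v (Y' i)) = 1)
    (i j : ℕ) (hne : X i * Y' j - X' j * Y i ≠ 0)
    (hB : v (b * X i * X' j + (X i * Y' j + X' j * Y i) + a * Y i * Y' j) < 1) : False := by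
  have hstep : ∀ k, v (X (i + k + 1) * Y' (j + k + 1) - X' (j + k + 1) * Y (i + k + 1))
      = v (X (i + k) * Y' (j + k) - X' (j + k) * Y (i + k)) *
        v (b * X (i + k) * X' (j + k) + (X (i + k) * Y' (j + k) + X' (j + k) * Y (i + k))
          + a * Y (i + k) * Y' (j + k)) := by
    intro k
    have e := congrArg v (det_id (h.fx (i + k)) (h.fy (i + k)) (h'.fx (j + k)) (h'.fy (j + k)))
    rw [map_mul, map_mul, c_good v h ha hb hab hP, c_good v h' ha hb hab hQ, one_mul, one_mul,
      map_mul] at e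
    exact e
  have hmono : ∀ k, v (X (i + (k + 1)) * Y' (j + (k + 1)) - X' (j + (k + 1)) * Y (i + (k + 1)))
      < v (X i * Y' j - X' j * Y i) := by
    intro k
    induction k with
    | zero =>
      have := hstep 0
      simp only [add_zero] at this
      rw [zero_add, this]
      exact mul_lt_of_lt_one_right₀ (zero_lt_iff.2 ((v.ne_zero_iff).2 hne)) hB
    | succ k ih =>
      refine lt_of_le_of_lt ?_ ih
      have := hstep (k + 1)
      rw [show i + (k + 1 + 1) = i + (k + 1) + 1 by ring,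
        show j + (k + 1 + 1) = j + (k + 1) + 1 by ring, this]
      exact mul_le_of_le_one_right' (B_le v ha hb (hP _) (hQ _))
  have hnm : 0 < m * n := Nat.mul_pos h'.npos h.npos
  have := hmono (m * n - 1)
  rw [Nat.sub_add_cancel hnm] at this
  have e1 : X (i + m * n) = X i := per_mul h.perX i m
  have e2 : Y (i + m * n) = Y i := per_mul h.perY i m
  have e3 : X' (j + m * n) = X' j := by rw [mul_comm]; exact per_mul h'.perX j n
  have e4 : Y' (j + m * n) = Y' j := by rw [mul_comm]; exact per_mul h'.perY j n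
  rw [e1, e2, e3, e4] at this
  exact lt_irrefl _ this
where
  mul_lt_of_lt_one_right₀ {x y : Γ} (hx : 0 < x) (hy : y < 1) : x * y < x := by
    have := mul_lt_mul_of_pos_left hy hx
    rwa [mul_one] at this

/-- If the self-pairing of a primitive `P` is small and `P, Q` are close, then the mixed pairing
is small. -/
theorem mixed_small {X Y X' Y' : K} (ha : v a ≤ 1) (hP : max (v X) (v Y) = 1)
    (hQ : max (v X') (v Y') = 1) (hb : v b ≤ 1)
    (h1 : v (b * X ^ 2 + 2 * X * Y + a * Y ^ 2) < 1) (h2 : v (X * Y' - X' * Y) < 1) :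
    v (b * X * X' + (X * Y' + X' * Y) + a * Y * Y') < 1 := by
  have hX : v X ≤ 1 := hP ▸ le_max_left _ _
  have hY : v Y ≤ 1 := hP ▸ le_max_right _ _
  have hX' : v X' ≤ 1 := hQ ▸ le_max_left _ _
  have hY' : v Y' ≤ 1 := hQ ▸ le_max_right _ _
  have hXaY : v (X + a * Y) ≤ 1 := v.map_add_le hX (by rw [map_mul]; exact mul_le_one' ha hY)
  have hbXY : v (b * X + Y) ≤ 1 := v.map_add_le (by rw [map_mul]; exact mul_le_one' hb hX) hY
  have e1 : X * (b * X * X' + (X * Y' + X' * Y) + a * Y * Y')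
      = X' * (b * X ^ 2 + 2 * X * Y + a * Y ^ 2) + (X * Y' - X' * Y) * (X + a * Y) := by ring
  have e2 : Y * (b * X * X' + (X * Y' + X' * Y) + a * Y * Y')
      = Y' * (b * X ^ 2 + 2 * X * Y + a * Y ^ 2) + -((X * Y' - X' * Y) * (b * X + Y)) := by ring
  rcases max_choice (v X) (v Y) with hc | hc
  · rw [hc] at hP
    have e := congrArg v e1
    rw [map_mul, hP, one_mul] at e
    rw [e]
    apply Valuation.map_add_lt v
    · rw [map_mul]; exact lt1_of_le_of_lt hX' h1
    · rw [map_mul]; exact lt1_of_lt_of_le h2 hXaY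
  · rw [hc] at hP
    have e := congrArg v e2
    rw [map_mul, hP, one_mul] at e
    rw [e]
    apply Valuation.map_add_lt v
    · rw [map_mul]; exact lt1_of_le_of_lt hY' h1
    · rw [Valuation.map_neg, map_mul]; exact lt1_of_lt_of_le h2 hbXY

/-- **Lemma B** (residue characteristic two, separable good reduction): two distinct cycles
cannot both be attracting. -/
theorem lemB {n m : ℕ} {lam lam' : K} {z y : ℕ → K} (h2 : v 2 < 1) (ha : v a = 1) (hb : v b = 1)
    (hab : v (1 - a * b) = 1) (hz : NCyc a b n lam z) (hy : NCyc a b m lam' y)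
    (hne : ∀ i j, z i ≠ y j) (hl : v lam < 1) (hl' : v lam' < 1) : False := by
  obtain ⟨X, Y, c, hH, hP, hX, hY⟩ := hz.toH v
  obtain ⟨X', Y', c', hH', hQ, hX', hY'⟩ := hy.toH v
  rw [lam_good v hH ha.le hb.le hab hP] at hl
  rw [lam_good v hH' ha.le hb.le hab hQ] at hl'
  obtain ⟨i, hi⟩ := exists_lt_one hl
  obtain ⟨j, hj⟩ := exists_lt_one hl'
  have hXi : v (X i) ≤ 1 := hP i ▸ le_max_left _ _
  have hYi : v (Y i) ≤ 1 := hP i ▸ le_max_right _ _
  have hXj : v (X' j) ≤ 1 := hQ j ▸ le_max_left _ _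
  have hYj : v (Y' j) ≤ 1 := hQ j ▸ le_max_right _ _
  have key : v ((X i * Y' j - X' j * Y i) ^ 2) < 1 := by
    have e : (X i * Y' j - X' j * Y i) ^ 2 * b =
        Y' j ^ 2 * (b * X i ^ 2 + 2 * X i * Y i + a * Y i ^ 2)
        + -(Y i ^ 2 * (b * X' j ^ 2 + 2 * X' j * Y' j + a * Y' j ^ 2))
        + 2 * (X' j * Y' j * Y i ^ 2 - X i * Y i * Y' j ^ 2
          + b * X' j ^ 2 * Y i ^ 2 - b * X i * Y' j * X' j * Y i) := by ring
    have e' := congrArg v e
    rw [map_mul, hb, mul_one] at e'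
    rw [e']
    apply Valuation.map_add_lt v (Valuation.map_add_lt v ?_ ?_)
    · rw [map_mul]
      apply lt1_of_lt_of_le h2
      refine v.map_sub_le (v.map_add_le (v.map_sub_le ?_ ?_) ?_) ?_ <;>
        simp only [map_mul, map_pow, hb, one_mul]
      · exact mul_le_one' (mul_le_one' hXj hYj) (pow_le_one' hYi 2)
      · exact mul_le_one' (mul_le_one' hXi hYi) (pow_le_one' hYj 2)
      · exact mul_le_one' (pow_le_one' hXj 2) (pow_le_one' hYi 2)
      · exact mul_le_one' (mul_le_one' (mul_le_one' hXi hYj) hXj) hYi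
    · rw [map_mul, map_pow]
      exact lt1_of_le_of_lt (pow_le_one' hYj 2) hi
    · rw [Valuation.map_neg, map_mul, map_pow]
      exact lt1_of_le_of_lt (pow_le_one' hYi 2) hj
  have key2 : v (X i * Y' j - X' j * Y i) < 1 := by
    rw [map_pow] at key
    by_contra hc
    exact absurd (one_le_pow_of_one_le' (not_lt.1 hc) 2) (not_le.2 key)
  refine contraction v hH hH' ha.le hb.le hab hP hQ i j ?_
    (mixed_small v ha.le (hP i) (hQ j) hb.le hi key2)
  rw [hX i, hX' j, show z i * Y i * Y' j - y j * Y' j * Y i = (z i - y j) * (Y i * Y' j) by ring]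
  exact mul_ne_zero (sub_ne_zero.2 (hne i j)) (mul_ne_zero (hY i) (hY' j))

/-- In presence of an attracting fixed point `0` and good reduction, no cycle comes near `0`. -/
theorem not_near_zero {n : ℕ} {lam : K} {z : ℕ → K} (ha : v a < 1) (hb : v b ≤ 1)
    (h : NCyc a b n lam z) (i : ℕ) : 1 ≤ v (z i) := by
  by_contra hc
  rw [not_le] at hc
  have hstep : ∀ j, v (z j) < 1 → v (z (j + 1)) < v (z j) := by
    intro j hj
    have hvz : v (z j) ≠ 0 := (v.ne_zero_iff).2 (h.ne0 j)
    have e1 : v (b * z j + 1) = 1 := by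
      rw [← v.map_one]
      apply Valuation.map_add_eq_of_lt_right
      rw [map_one, map_mul]
      exact lt1_of_le_of_lt hb hj
    have e2 := congrArg v (h.step j)
    rw [map_mul, map_mul, e1, mul_one] at e2
    rw [e2]
    have : v (z j + a) < 1 := Valuation.map_add_lt v hj ha
    calc v (z j) * v (z j + a) < v (z j) * 1 := mul_lt_mul_of_pos_left this (zero_lt_iff.2 hvz)
      _ = v (z j) := mul_one _
  have hall : ∀ k, v (z (i + k)) < 1 := by
    intro k
    induction k with
    | zero => exact hc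
    | succ k ih => exact (hstep _ ih).trans ih
  apply no_desc (fun k => v (z (i + k))) n h.npos
  · intro k
    show v (z (i + (k + n))) = _
    rw [← add_assoc, h.per]
  · intro k
    exact hstep _ (hall k)

/-- **Lemma C** (residue characteristic not two, polynomial-like reduction): two distinct cycles
cannot both be attracting. -/
theorem lemC {n m : ℕ} {lam lam' : K} {z y : ℕ → K} (h2 : v 2 = 1) (ha : v a < 1) (hb : v b ≤ 1)
    (hz : NCyc a b n lam z) (hy : NCyc a b m lam' y)
    (hne : ∀ i j, z i ≠ y j) (hl : v lam < 1) (hl' : v lam' < 1) : False := by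
  have hab : v (1 - a * b) = 1 := by
    rw [← v.map_one]
    apply Valuation.map_sub_eq_of_lt_left
    rw [map_one, map_mul]
    exact lt1_of_lt_of_le ha hb
  obtain ⟨X, Y, c, hH, hP, hX, hY⟩ := hz.toH v
  obtain ⟨X', Y', c', hH', hQ, hX', hY'⟩ := hy.toH v
  rw [lam_good v hH ha.le hb hab hP] at hl
  rw [lam_good v hH' ha.le hb hab hQ] at hl'
  obtain ⟨i, hi⟩ := exists_lt_one hl
  obtain ⟨j, hj⟩ := exists_lt_one hl'
  have hYi : v (Y i) ≤ 1 := hP i ▸ le_max_right _ _
  have hYj : v (Y' j) ≤ 1 := hQ j ▸ le_max_right _ _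
  have hXi : v (X i) = 1 := by
    apply le_antisymm (hP i ▸ le_max_left _ _)
    rw [← hP i]
    apply max_le le_rfl
    rw [hX i, map_mul]
    exact le_mul_of_one_le_left' (not_near_zero v ha hb hz i)
  have hXj : v (X' j) = 1 := by
    apply le_antisymm (hQ j ▸ le_max_left _ _)
    rw [← hQ j]
    apply max_le le_rfl
    rw [hX' j, map_mul]
    exact le_mul_of_one_le_left' (not_near_zero v ha hb hy j)
  have small : ∀ (x y : K), v x = 1 → v y ≤ 1 → v (b * x ^ 2 + 2 * x * y + a * y ^ 2) < 1 →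
      v (b * x + 2 * y) < 1 := by
    intro x y hx hy h
    have e : x * (b * x + 2 * y) = (b * x ^ 2 + 2 * x * y + a * y ^ 2) + -(a * y ^ 2) := by ring
    have e' := congrArg v e
    rw [map_mul, hx, one_mul] at e'
    rw [e']
    apply Valuation.map_add_lt v h
    rw [Valuation.map_neg, map_mul, map_pow]
    exact lt1_of_lt_of_le ha (pow_le_one' hy 2)
  have s1 := small _ _ hXi hYi hi
  have s2 := small _ _ hXj hYj hj
  have key2 : v (X i * Y' j - X' j * Y i) < 1 := by
    have e : 2 * (X i * Y' j - X' j * Y i) = X i * (b * X' j + 2 * Y' j)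
        + -(X' j * (b * X i + 2 * Y i)) := by ring
    have e' := congrArg v e
    rw [map_mul, h2, one_mul] at e'
    rw [e']
    apply Valuation.map_add_lt v
    · rw [map_mul, hXi, one_mul]; exact s2
    · rw [Valuation.map_neg, map_mul, hXj, one_mul]; exact s1
  refine contraction v hH hH' ha.le hb hab hP hQ i j ?_
    (mixed_small v ha.le (hP i) (hQ j) hb hi key2)
  rw [hX i, hX' j, show z i * Y i * Y' j - y j * Y' j * Y i = (z i - y j) * (Y i * Y' j) by ring]
  exact mul_ne_zero (sub_ne_zero.2 (hne i j)) (mul_ne_zero (hY i) (hY' j))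

end Good

end Pool.Agent.helper56.Per
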