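import Pool.Agent.helper56.Per.Core

/-!
# Two cycles of period at least two with constant multipliers
-/

namespace Pool.Agent.helper56.Per

open Finset

section

variable {K : Type*} [Field K]

/-- the two cycles -/
def Q2 (n m : ℕ) (L L' : K) (a b : K) : Prop :=
  ∃ z y : ℕ → K, NCyc a b n L z ∧ NCyc a b m L' y ∧ ∀ i j, z i ≠ y j

theorem Q2.swap {n m : ℕ} {L L' a b : K} (h : Q2 n m L L' a b) : Q2 n m L L' b a := by
  obtain ⟨z, y, hz, hy, hne⟩ := h
  exact ⟨_, _, hz.swap, hy.swap, fun i j h => hne i j (inv_injective h)⟩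

theorem Q2.psi {n m : ℕ} {L L' a b : K} (hab : a * b ≠ 1) (ha : a ≠ 1) (h : Q2 n m L L' a b) :
    Q2 n m L L' a ((2 - a - b) / (1 - a * b)) := by
  obtain ⟨z, y, hz, hy, hne⟩ := h
  exact ⟨_, _, hz.psi hab ha, hy.psi hab ha, fun i j h =>
    hne i j (psi_inj hab ha (hz.avoid i) (hy.avoid j) h)⟩

theorem Q2.symm {n m : ℕ} {L L' a b : K} (h : Q2 n m L L' a b) : Q2 m n L' L a b := by
  obtain ⟨z, y, hz, hy, hne⟩ := h
  exact ⟨y, z, hy, hz, fun i j h => hne j i h.symm⟩

theorem TS.mono {Q Q' : K → K → Prop} (hQ : ∀ a b, Q a b → Q' a b) {a b c : K} (h : TS Q a b c) :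
    TS Q' a b c :=
  ⟨h.rel, fun x => hQ _ _ (h.ab x), fun x => hQ _ _ (h.ba x), fun x => hQ _ _ (h.ac x),
    fun x => hQ _ _ (h.ca x), fun x => hQ _ _ (h.bc x), fun x => hQ _ _ (h.cb x)⟩

variable {Γ : Type*} [LinearOrderedCommGroupWithZero Γ] (v : Valuation K Γ)

theorem H_gt {a b : K} {n : ℕ} {lam : K} {z : ℕ → K} (ha : 1 < v a) (hb : 1 < v b)
    (h : NCyc a b n lam z) : 1 < v lam := by
  obtain ⟨s, t, hs, ht, _, e⟩ := lemH v ha hb h
  rw [e]
  exact (one_lt_pow₀ ha hs.ne').trans_le (le_mul_of_one_le_right' (one_lt_pow₀ hb ht.ne').le)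

theorem pow_congr_v {x y : K} (hx : v x ≤ 1) (hy : v y ≤ 1) (k : ℕ) :
    v (x ^ k - y ^ k) ≤ v (x - y) := by
  induction k with
  | zero => simp
  | succ k ih =>
    have : x ^ (k + 1) - y ^ (k + 1) = x ^ k * (x - y) + y * (x ^ k - y ^ k) := by ring
    rw [this]
    refine v.map_add_le ?_ ?_
    · rw [map_mul, map_pow]; exact mul_le_of_le_one_left' (pow_le_one' hx k)
    · rw [map_mul]; exact (mul_le_of_le_one_left' hy).trans ih

end

variable {F K : Type*} [Field F] [Field K] [Algebra F K] [IsAlgClosed F]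


/-- If not all multipliers are constant, then their sum is not constant. -/
theorem s_notMem {Q : K → K → Prop} {a b c : K} (h : TS Q a b c)
    (hH : ∀ B : ValuationSubring K, Ext (⊤ : ValuationSubring F) B.valuation →
      ∀ x y, 1 < B.valuation x → 1 < B.valuation y → Q x y → False)
    (hne : ¬ (a ∈ Set.range (algebraMap F K) ∧ b ∈ Set.range (algebraMap F K) ∧ c ∈ Set.range (algebraMap F K))) :
    a + b + c ∉ Set.range (algebraMap F K) := by
  intro hs
  have hσ : a * b + a * c + b * c ∉ Set.range (algebraMap F K) := by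
    rintro ⟨σ, hσ⟩
    obtain ⟨s, hs⟩ := hs
    apply hne
    let p : Polynomial F := Polynomial.X ^ 3 - Polynomial.C s * Polynomial.X ^ 2
      + Polynomial.C σ * Polynomial.X - Polynomial.C (s - 2)
    have hp : p ≠ 0 := by
      have : p.Monic := by simp only [p]; monicity!
      exact this.ne_zero
    have hev : ∀ x : K, Polynomial.aeval x p = x ^ 3 - algebraMap F K s * x ^ 2 + algebraMap F K σ * x - (algebraMap F K s - 2) := by
      intro x
      simp only [p, map_sub, map_add, map_mul, map_pow, Polynomial.aeval_X, Polynomial.aeval_C,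
        map_ofNat]
    refine ⟨mem_of_root p hp ?_, mem_of_root p hp ?_, mem_of_root p hp ?_⟩ <;>
      rw [hev, hs, hσ] <;> linear_combination h.rel
  have hσ' : (a * b + a * c + b * c)⁻¹ ∉ Set.range (algebraMap F K) := by
    rintro ⟨x, hx⟩
    exact hσ ⟨x⁻¹, by rw [map_inv₀, hx, inv_inv]⟩
  obtain ⟨B, hE, hB⟩ := exists_close (⊤ : ValuationSubring F) hσ'
  set v := B.valuation with hv
  have hlarge : 1 < v (a * b + a * c + b * c) := by
    rw [map_inv₀] at hB
    have h0 : v (a * b + a * c + b * c) ≠ 0 := by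
      rw [v.ne_zero_iff]
      intro h0
      exact hσ ⟨0, by rw [h0, map_zero]⟩
    rwa [inv_lt_one₀ (zero_lt_iff.2 h0)] at hB
  have hs1 : v (a + b + c) ≤ 1 := by
    obtain ⟨s, hs⟩ := hs
    rw [← hs]
    exact (hE s).2 (top_val_le s)
  obtain ⟨ha, hb, hc⟩ := G1 v h.rel
    (fun hh => hH B hE _ _ hh.1 hh.2 (h.ab (ne_one_of_large v hh.1 hh.2)))
    (fun hh => hH B hE _ _ hh.1 hh.2 (h.ac (ne_one_of_large v hh.1 hh.2)))
    (fun hh => hH B hE _ _ hh.1 hh.2 (h.bc (ne_one_of_large v hh.1 hh.2))) hs1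
  have : v (a * b + a * c + b * c) ≤ 1 := by
    refine v.map_add_le (v.map_add_le ?_ ?_) ?_ <;> rw [map_mul]
    · exact mul_le_one' ha hb
    · exact mul_le_one' ha hc
    · exact mul_le_one' hb hc
  exact absurd hlarge (not_lt.2 this)

section Two

variable {n m : ℕ} {l l' : F} {a b c : K}

omit [IsAlgClosed F] in
theorem Q2_H {O : ValuationSubring F} {B : ValuationSubring K} (hE : Ext O B.valuation)
    (hl : O.valuation l ≤ 1) (x y : K) (hx : 1 < B.valuation x) (hy : 1 < B.valuation y)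
    (h : Q2 n m (algebraMap F K l) (algebraMap F K l') x y) : False := by
  obtain ⟨z, _, hz, _, _⟩ := h
  have h1 := H_gt B.valuation hx hy hz
  exact absurd ((hE l).2 hl) (not_le.2 h1)

theorem two_s (h : TS (Q2 n m (algebraMap F K l) (algebraMap F K l')) a b c)
    (hne : ¬ (a ∈ Set.range (algebraMap F K) ∧ b ∈ Set.range (algebraMap F K) ∧ c ∈ Set.range (algebraMap F K))) :
    a + b + c ∉ Set.range (algebraMap F K) :=
  s_notMem h (fun _ hE x y hx hy hQ => Q2_H hE (top_val_le l) x y hx hy hQ) hne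

/-- at a generic valuation, all multipliers are integral and some pair has good reduction -/
theorem two_generic (h : TS (Q2 n m (algebraMap F K l) (algebraMap F K l')) a b c) (hs : a + b + c ∉ Set.range (algebraMap F K))
    (O : ValuationSubring F) (hl : O.valuation l ≤ 1) :
    ∃ B : ValuationSubring K, Ext O B.valuation ∧ ∃ x y : K,
      B.valuation x = 1 ∧ B.valuation y = 1 ∧ B.valuation (1 - x * y) = 1 ∧
      Q2 n m (algebraMap F K l) (algebraMap F K l') x y := by
  obtain ⟨B, hE, h1, h2, h3⟩ := exists_generic O hs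
  set v := B.valuation with hv
  obtain ⟨ha, hb, hc⟩ := G1 v h.rel
    (fun hh => Q2_H hE hl _ _ hh.1 hh.2 (h.ab (ne_one_of_large v hh.1 hh.2)))
    (fun hh => Q2_H hE hl _ _ hh.1 hh.2 (h.ac (ne_one_of_large v hh.1 hh.2)))
    (fun hh => Q2_H hE hl _ _ hh.1 hh.2 (h.bc (ne_one_of_large v hh.1 hh.2))) h1.le
  rw [← h.rel, map_mul, map_mul] at h2
  obtain ⟨h4, hc1⟩ := prod_eq_one_le (mul_le_one' ha hb) hc h2
  obtain ⟨ha1, hb1⟩ := prod_eq_one_le ha hb h4
  have hne : ∀ x y : K, v (1 - x * y) = 1 → x * y ≠ 1 := by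
    intro x y hxy h0
    rw [h0, sub_self, map_zero] at hxy
    exact zero_ne_one hxy
  refine ⟨B, hE, ?_⟩
  rcases good_pair v ha hb hc h3 with hp | hp | hp
  · exact ⟨a, b, ha1, hb1, hp, h.ab (hne _ _ hp)⟩
  · exact ⟨a, c, ha1, hc1, hp, h.ac (hne _ _ hp)⟩
  · exact ⟨b, c, hb1, hc1, hp, h.bc (hne _ _ hp)⟩

/-- (1) integrality of one multiplier implies that of the other. -/
theorem two_int (h : TS (Q2 n m (algebraMap F K l) (algebraMap F K l')) a b c) (hs : a + b + c ∉ Set.range (algebraMap F K))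
    (O : ValuationSubring F) (hl : O.valuation l ≤ 1) : O.valuation l' ≤ 1 := by
  obtain ⟨B, hE, x, y, hx, hy, hxy, z, y', hz, hy', _⟩ := two_generic h hs O hl
  exact (hE l').1 (good_le_one B.valuation hy' hx.le hy.le hxy)

/-- no two attracting cycles in residue characteristic two -/
theorem two_not_both (h : TS (Q2 n m (algebraMap F K l) (algebraMap F K l')) a b c) (hs : a + b + c ∉ Set.range (algebraMap F K))
    (O : ValuationSubring F) (h2 : O.valuation 2 < 1) :
    ¬ (O.valuation l < 1 ∧ O.valuation l' < 1) := by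
  rintro ⟨hl, hl'⟩
  obtain ⟨B, hE, x, y, hx, hy, hxy, z, y', hz, hy', hne⟩ := two_generic h hs O hl.le
  have h2' : B.valuation (2 : K) < 1 := by
    have := (hE.lt_one_iff 2).2 h2
    rwa [map_ofNat] at this
  exact lemB B.valuation h2' hx hy hxy hz hy' hne ((hE.lt_one_iff l).2 hl)
    ((hE.lt_one_iff l').2 hl')

theorem dyadic_aux {Γ : Type*} [LinearOrderedCommGroupWithZero Γ] (v : Valuation K Γ)
    {L L' : K} (h : TS (Q2 n m L L') a b c) (h2 : v 2 < 1) (hL : v L ≤ 1)
    (hc : v c < v 2) : ∃ x : K, v x ≤ 1 ∧ v (L - x ^ n) ≤ v 2 ∧ v (L' - x ^ m) ≤ v 2 := by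
  have hc1 : v c < 1 := hc.trans h2
  have ha : v a ≤ 1 := by
    by_contra ha
    rw [not_le] at ha
    by_cases hb : v b ≤ 1
    · have := T2 v (a := b) (b := c) (c := a) (by linear_combination h.rel) hb hc1.le ha
      exact absurd this.2 hc1.ne
    · rw [not_le] at hb
      obtain ⟨z, _, hz, _, _⟩ := h.ab (ne_one_of_large v ha hb)
      exact absurd hL (not_le.2 (H_gt v ha hb hz))
  obtain ⟨z, y, hz, hy, _⟩ := h.ac (ne_one_of_lt v (by
    rw [map_mul]; exact lt1_of_le_of_lt ha hc1))
  exact ⟨a, ha, lemA v ha hc1 hc.le hz, lemA v ha hc1 hc.le hy⟩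

/-- (2) the dyadic congruence -/
theorem two_dyadic_congr (h : TS (Q2 n m (algebraMap F K l) (algebraMap F K l')) a b c) (hs : a + b + c ∉ Set.range (algebraMap F K))
    (h20 : (2 : F) ≠ 0) (O : ValuationSubring F) (h2 : O.valuation 2 < 1)
    (hl : O.valuation l ≤ 1) :
    ∃ B : ValuationSubring K, Ext O B.valuation ∧ ∃ x : K, B.valuation x ≤ 1 ∧
      B.valuation (algebraMap F K l - x ^ n) ≤ B.valuation 2 ∧ B.valuation (algebraMap F K l' - x ^ m) ≤ B.valuation 2 := by
  have ht : (a + b + c - 2) / 8 ∉ Set.range (algebraMap F K) := by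
    rintro ⟨x, hx⟩
    apply hs
    refine ⟨x * 8 + 2, ?_⟩
    have h8 : (8 : K) ≠ 0 := by
      have : (8 : K) = algebraMap F K (2 ^ 3) := by rw [map_pow, map_ofNat]; norm_num
      rw [this]
      exact (_root_.map_ne_zero _).2 (pow_ne_zero _ h20)
    rw [map_add, map_mul, hx, map_ofNat, map_ofNat]
    field_simp
    ring
  obtain ⟨B, hE, hB⟩ := exists_close O ht
  refine ⟨B, hE, ?_⟩
  set v := B.valuation with hv
  have h2' : v (2 : K) < 1 := by
    have := (hE.lt_one_iff 2).2 h2
    rwa [map_ofNat] at this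
  have h20' : v (2 : K) ≠ 0 := by
    rw [v.ne_zero_iff]
    have : (2 : K) = algebraMap F K 2 := by rw [map_ofNat]
    rw [this]
    exact (_root_.map_ne_zero _).2 h20
  have h8 : v (8 : K) = v 2 * v 2 * v 2 := by
    rw [← map_mul, ← map_mul]; norm_num
  have hlt : v a * v b * v c < v 2 * v 2 * v 2 := by
    rw [map_div₀, h8, div_lt_one₀ (by
      rw [zero_lt_iff]; exact mul_ne_zero (mul_ne_zero h20' h20') h20')] at hB
    rwa [← h.rel, map_mul, map_mul] at hB
  have hL : v (algebraMap F K l) ≤ 1 := (hE l).2 hl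
  have hex : v a < v 2 ∨ v b < v 2 ∨ v c < v 2 := by
    by_contra hcon
    push Not at hcon
    exact absurd hlt (not_lt.2 (mul_le_mul' (mul_le_mul' hcon.1 hcon.2.1) hcon.2.2))
  rcases hex with hh | hh | hh
  · exact dyadic_aux v h.p13 h2' hL hh
  · exact dyadic_aux v h.p23 h2' hL hh
  · exact dyadic_aux v h h2' hL hh

/-- (2) full dyadic statement -/
theorem two_dyadic (h : TS (Q2 n m (algebraMap F K l) (algebraMap F K l')) a b c) (hs : a + b + c ∉ Set.range (algebraMap F K))
    (h20 : (2 : F) ≠ 0) (O : ValuationSubring F) (h2 : O.valuation 2 < 1)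
    (hl : O.valuation l ≤ 1) (hn : 0 < n) (hm : 0 < m) :
    O.valuation l = 1 ∧ O.valuation l' = 1 ∧ O.valuation (l ^ m - l' ^ n) ≤ O.valuation 2 := by
  have hl' := two_int h hs O hl
  obtain ⟨B, hE, x, hx, h3, h4⟩ := two_dyadic_congr h hs h20 O h2 hl
  set v := B.valuation with hv
  have h2' : v (2 : K) < 1 := by
    have := (hE.lt_one_iff 2).2 h2
    rwa [map_ofNat] at this
  have hL : v (algebraMap F K l) ≤ 1 := (hE l).2 hl
  have hL' : v (algebraMap F K l') ≤ 1 := (hE l').2 hl'
  have key : ∀ (L : K) (k : ℕ), 0 < k → v (L - x ^ k) ≤ v 2 → (v L < 1 ↔ v x < 1) := by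
    intro L k hk hLk
    constructor
    · intro hLt
      have : v (x ^ k) < 1 := by
        have e : x ^ k = L + -(L - x ^ k) := by ring
        rw [e]
        exact Valuation.map_add_lt v hLt (by rw [Valuation.map_neg]; exact hLk.trans_lt h2')
      by_contra hc
      rw [not_lt] at hc
      rw [map_pow] at this
      exact absurd (one_le_pow_of_one_le' hc k) (not_le.2 this)
    · intro hxt
      have e : L = (L - x ^ k) + x ^ k := by ring
      rw [e]
      apply Valuation.map_add_lt v (hLk.trans_lt h2')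
      rw [map_pow]
      exact pow_lt_one₀ zero_le hxt hk.ne'
  have k1 := key _ n hn h3
  have k2 := key _ m hm h4
  have nb := two_not_both h hs O h2
  refine ⟨?_, ?_, ?_⟩
  · by_contra hc
    have hlt := lt_of_le_of_ne hl hc
    have h5 := (hE.lt_one_iff l).2 hlt
    exact nb ⟨hlt, (hE.lt_one_iff l').1 (k2.2 (k1.1 h5))⟩
  · by_contra hc
    have hlt := lt_of_le_of_ne hl' hc
    have h5 := (hE.lt_one_iff l').2 hlt
    exact nb ⟨(hE.lt_one_iff l).1 (k1.2 (k2.1 h5)), hlt⟩
  · rw [← hE.le_iff, map_sub, map_pow, map_pow, map_ofNat]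
    have e : algebraMap F K l ^ m - algebraMap F K l' ^ n
        = ((algebraMap F K l) ^ m - (x ^ n) ^ m) + -((algebraMap F K l') ^ n - (x ^ m) ^ n) := by ring
    rw [e]
    have hxn : v (x ^ n) ≤ 1 := by rw [map_pow]; exact pow_le_one' hx n
    have hxm : v (x ^ m) ≤ 1 := by rw [map_pow]; exact pow_le_one' hx m
    refine v.map_add_le ((pow_congr_v v hL hxn m).trans h3) ?_
    rw [Valuation.map_neg]
    exact (pow_congr_v v hL' hxm n).trans h4

theorem odd_aux {Γ : Type*} [LinearOrderedCommGroupWithZero Γ] (v : Valuation K Γ)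
    {L L' : K} (h : TS (Q2 n m L L') a b c) (h2 : v 2 = 1) (hL : v L < 1) (hL' : v L' < 1)
    (hc1 : v c < 1) : False := by
  have ha : v a ≤ 1 := by
    by_contra ha
    rw [not_le] at ha
    by_cases hb : v b ≤ 1
    · have := T2 v (a := b) (b := c) (c := a) (by linear_combination h.rel) hb hc1.le ha
      exact absurd this.2 hc1.ne
    · rw [not_le] at hb
      obtain ⟨z, _, hz, _, _⟩ := h.ab (ne_one_of_large v ha hb)
      exact absurd hL.le (not_le.2 (H_gt v ha hb hz))
  obtain ⟨z, y, hz, hy, hne⟩ := h.ca (ne_one_of_lt v (by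
    rw [map_mul]; exact lt1_of_le_of_lt ha hc1))
  exact lemC v h2 hc1 ha hz hy hne hL hL'

/-- (4) no two attracting cycles in residue characteristic different from two -/
theorem two_odd (h : TS (Q2 n m (algebraMap F K l) (algebraMap F K l')) a b c) (hs : a + b + c ∉ Set.range (algebraMap F K))
    (O : ValuationSubring F) (h2 : O.valuation 2 = 1) :
    ¬ (O.valuation l < 1 ∧ O.valuation l' < 1) := by
  rintro ⟨hl, hl'⟩
  have ht : a + b + c - 2 ∉ Set.range (algebraMap F K) := by
    rintro ⟨x, hx⟩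
    exact hs ⟨x + 2, by rw [map_add, hx, map_ofNat]; ring⟩
  obtain ⟨B, hE, hB⟩ := exists_close O ht
  set v := B.valuation with hv
  have h2' : v (2 : K) = 1 := by
    have := (hE.eq_one_iff 2).2 h2
    rwa [map_ofNat] at this
  rw [← h.rel, map_mul, map_mul] at hB
  have hL : v (algebraMap F K l) < 1 := (hE.lt_one_iff l).2 hl
  have hL' : v (algebraMap F K l') < 1 := (hE.lt_one_iff l').2 hl'
  have hex : v a < 1 ∨ v b < 1 ∨ v c < 1 := by
    by_contra hcon
    push Not at hcon
    exact absurd hB (not_lt.2 (one_le_mul (one_le_mul hcon.1 hcon.2.1) hcon.2.2))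
  rcases hex with hh | hh | hh
  · exact odd_aux v h.p13 h2' hL hL' hh
  · exact odd_aux v h.p23 h2' hL hL' hh
  · exact odd_aux v h h2' hL hL' hh

theorem large_aux {Γ : Type*} [LinearOrderedCommGroupWithZero Γ] (v : Valuation K Γ)
    {L L' : K} (h : TS (Q2 n m L L') a b c) (hs : v (a + b + c) ≤ 1) (ha : 1 < v a)
    (hb : 1 < v b) : v L ^ m = v L' ^ n := by
  have hc := (T3 v h.rel ha hb).2
  have hab : v a = v b := by
    by_contra hne
    have h1 : v (a + b) = max (v a) (v b) := Valuation.map_add_of_distinct_val v hne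
    have h2 : v (a + b + c) = max (v a) (v b) := by
      rw [← h1]
      apply Valuation.map_add_eq_of_lt_left
      rw [h1]
      exact hc.trans (lt_max_of_lt_left ha)
    rw [h2] at hs
    exact absurd (lt_max_of_lt_left ha) (not_lt.2 hs)
  obtain ⟨z, y, hz, hy, _⟩ := h.ab (ne_one_of_large v ha hb)
  obtain ⟨s, t, _, _, e1, e2⟩ := lemH v ha hb hz
  obtain ⟨s', t', _, _, e3, e4⟩ := lemH v ha hb hy
  rw [e2, e4, ← hab, ← pow_add, ← pow_add, e1, e3, ← pow_mul, ← pow_mul, mul_comm]

/-- (1') when the multipliers are not integral -/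
theorem two_large (h : TS (Q2 n m (algebraMap F K l) (algebraMap F K l')) a b c) (hs : a + b + c ∉ Set.range (algebraMap F K))
    (O : ValuationSubring F) (hl : 1 < O.valuation l) :
    O.valuation l ^ m = O.valuation l' ^ n := by
  obtain ⟨B, hE, h1, h2, h3⟩ := exists_generic O hs
  set v := B.valuation with hv
  have hL : 1 < v (algebraMap F K l) := (hE.one_lt_iff l).2 hl
  have hne : ∀ x y : K, v (1 - x * y) = 1 → x * y ≠ 1 := by
    intro x y hxy h0
    rw [h0, sub_self, map_zero] at hxy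
    exact zero_ne_one hxy
  have hfin : v (algebraMap F K l) ^ m = v (algebraMap F K l') ^ n := by
    by_cases hab : 1 < v a ∧ 1 < v b
    · exact large_aux v h h1.le hab.1 hab.2
    by_cases hac : 1 < v a ∧ 1 < v c
    · exact large_aux v h.p23 (by rw [show a + c + b = a + b + c by ring]; exact h1.le)
        hac.1 hac.2
    by_cases hbc : 1 < v b ∧ 1 < v c
    · exact large_aux v h.p13 (by rw [show c + b + a = a + b + c by ring]; exact h1.le)
        hbc.2 hbc.1
    exfalso
    obtain ⟨ha, hb, hc⟩ := G1 v h.rel hab hac hbc h1.le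
    rcases good_pair v ha hb hc h3 with hp | hp | hp
    · obtain ⟨z, _, hz, _, _⟩ := h.ab (hne _ _ hp)
      exact absurd hL (not_lt.2 (good_le_one v hz ha hb hp))
    · obtain ⟨z, _, hz, _, _⟩ := h.ac (hne _ _ hp)
      exact absurd hL (not_lt.2 (good_le_one v hz ha hc hp))
    · obtain ⟨z, _, hz, _, _⟩ := h.bc (hne _ _ hp)
      exact absurd hL (not_lt.2 (good_le_one v hz hb hc hp))
  rw [← map_pow, ← map_pow, ← map_pow, ← map_pow] at hfin
  rw [← map_pow, ← map_pow]
  apply le_antisymm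
  · rw [← hE.le_iff]; exact hfin.le
  · rw [← hE.le_iff]; exact hfin.ge

theorem pow_inj_gt {Γ : Type*} [LinearOrderedCommGroupWithZero Γ] {u : Γ} (hu : 1 < u)
    {p q : ℕ} (h : u ^ p = u ^ q) : p = q := by
  rcases lt_trichotomy p q with h1 | h1 | h1
  · exact absurd h (pow_lt_pow_right₀ hu h1).ne
  · exact h1
  · exact absurd h (pow_lt_pow_right₀ hu h1).ne'

theorem pow_inj_lt {Γ : Type*} [LinearOrderedCommGroupWithZero Γ] {u : Γ} (hu0 : 0 < u)
    (hu : u < 1) {p q : ℕ} (h : u ^ p = u ^ q) : p = q := by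
  rcases lt_trichotomy p q with h1 | h1 | h1
  · exact absurd h (pow_lt_pow_right_of_lt_one₀ hu0 hu h1).ne'
  · exact h1
  · exact absurd h (pow_lt_pow_right_of_lt_one₀ hu0 hu h1).ne

/-- the combinatorial lemma for coprime periods -/
theorem coprime_eq {Γ : Type*} [LinearOrderedCommGroupWithZero Γ] {x y A A' : Γ}
    (hx : x ≠ 0) (hy : y ≠ 0) {s t s' t' : ℕ} (hs : 0 < s) (ht : 0 < t) (hst : s + t = n)
    (hst' : s' + t' = m) (hA : A = x ^ s * y ^ t) (hA' : A' = x ^ s' * y ^ t')
    (hAA : A ^ m = A' ^ n) (hcop : Nat.Coprime n m) : x = y := by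
  have hne : s * m ≠ s' * n := by
    intro h
    have h1 : n ∣ s * m := ⟨s', by rw [h, mul_comm]⟩
    have h2 : n ∣ s := hcop.dvd_of_dvd_mul_right h1
    have := Nat.le_of_dvd hs h2
    omega
  have hu0 : x / y ≠ 0 := div_ne_zero hx hy
  have e1 : A = (x / y) ^ s * y ^ n := by
    rw [hA, div_pow, ← hst, pow_add, ← mul_assoc, div_mul_cancel₀ _ (pow_ne_zero _ hy)]
  have e2 : A' = (x / y) ^ s' * y ^ m := by
    rw [hA', div_pow, ← hst', pow_add, ← mul_assoc, div_mul_cancel₀ _ (pow_ne_zero _ hy)]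
  rw [e1, e2, mul_pow, mul_pow, ← pow_mul, ← pow_mul, ← pow_mul, ← pow_mul, mul_comm m n] at hAA
  have e3 := mul_right_cancel₀ (pow_ne_zero _ hy) hAA
  rcases lt_trichotomy (x / y) 1 with h1 | h1 | h1
  · exfalso
    exact hne (pow_inj_lt (zero_lt_iff.2 hu0) h1 e3)
  · rwa [div_eq_one_iff_eq hy] at h1
  · exfalso
    exact hne (pow_inj_gt h1 e3)
/-- the main step of the coprime case -/
theorem coprime_aux {Γ : Type*} [LinearOrderedCommGroupWithZero Γ] (v : Valuation K Γ)
    {L L' s₀ : K} (h : TS (Q2 n m L L') a b c) (hcop : Nat.Coprime n m)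
    (hL : 1 < v L) (hLL : v L ^ m = v L' ^ n) (hs1 : v s₀ < 1)
    (hs2 : v s₀ ^ (3 * n + 1) * v L = 1) (hab : v a = v s₀ * v b) (hb0 : v b ≠ 0)
    (hn : 0 < n) : False := by
  have hs0 : v s₀ ≠ 0 := by
    intro h0
    rw [h0, zero_pow (by omega), zero_mul] at hs2
    exact zero_ne_one hs2
  have halt : v a < v b := by
    rw [hab]
    have := mul_lt_mul_of_pos_right hs1 (zero_lt_iff.2 hb0)
    rwa [one_mul] at this
  by_cases hb : 1 < v b
  · by_cases ha : 1 < v a
    · -- both large: equality of valuations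
      obtain ⟨z, y, hz, hy, _⟩ := h.ab (ne_one_of_large v ha hb)
      obtain ⟨s, t, h1, h2, e1, e2⟩ := lemH v ha hb hz
      obtain ⟨s', t', _, _, e3, e4⟩ := lemH v ha hb hy
      exact absurd (coprime_eq (zero_lt_one.trans ha).ne' (zero_lt_one.trans hb).ne' h1 h2 e1 e3
        e2 e4 hLL hcop) halt.ne
    rw [not_lt] at ha
    by_cases hc : 1 < v c
    · -- `b`, `c` large
      obtain ⟨z, y, hz, hy, _⟩ := h.bc (ne_one_of_large v hb hc)
      obtain ⟨s, t, h1, h2, e1, e2⟩ := lemH v hb hc hz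
      obtain ⟨s', t', _, _, e3, e4⟩ := lemH v hb hc hy
      have hbc : v b = v c := coprime_eq (zero_lt_one.trans hb).ne' (zero_lt_one.trans hc).ne' h1
        h2 e1 e3 e2 e4 hLL hcop
      have hLn : v L = v b ^ n := by rw [e2, ← hbc, ← pow_add, e1]
      obtain ⟨h5, _⟩ := T3 v (a := b) (b := c) (c := a) (by linear_combination h.rel) hb hc
      rw [← hbc, max_self, hab] at h5
      -- `v s₀ * v b ^ 2 ≤ 1`
      have h6 : v s₀ * v b ^ 2 ≤ 1 := by
        have : (v s₀ * v b ^ 2) * v b ≤ 1 * v b := by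
          rw [one_mul]
          calc v s₀ * v b ^ 2 * v b = v s₀ * v b * (v b * v b) := by
                rw [sq]; simp only [mul_assoc]
            _ ≤ v b := h5
        exact le_of_mul_le_mul_right this (zero_lt_iff.2 hb0)
      have h7 : v s₀ ^ (3 * n + 1) * v L < 1 := by
        have e : v s₀ ^ (3 * n + 1) * v L = (v s₀ * v b ^ 2) ^ n * v s₀ * (v s₀ ^ n) ^ 2
            * ((v b ^ n)⁻¹) := by
          have hbn : v b ^ n ≠ 0 := pow_ne_zero _ hb0
          rw [hLn, mul_pow, eq_mul_inv_iff_mul_eq₀ hbn, ← pow_mul (v b) 2 n, ← pow_mul (v s₀) n 2,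
            mul_assoc, ← pow_add, show n + n = 2 * n by ring]
          have e5 : v s₀ ^ (3 * n + 1) = v s₀ ^ n * v s₀ * v s₀ ^ (n * 2) := by
            rw [← pow_succ, ← pow_add]; congr 1; ring
          rw [e5]
          simp only [mul_assoc, mul_comm, mul_left_comm]
        rw [e]
        have h8 : (v s₀ * v b ^ 2) ^ n ≤ 1 := pow_le_one' h6 n
        have h9 : (v s₀ ^ n) ^ 2 ≤ 1 := pow_le_one' (pow_le_one' hs1.le n) 2
        have h10 : (v b ^ n)⁻¹ ≤ 1 := inv_le_one_of_one_le₀ (one_le_pow_of_one_le' hb.le n)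
        exact lt1_of_lt_of_le (lt1_of_lt_of_le (lt1_of_le_of_lt h8 hs1) h9) h10
      exact absurd hs2 h7.ne
    · rw [not_lt] at hc
      obtain ⟨ha1, hc1⟩ := T2 v (a := a) (b := c) (c := b) (by linear_combination h.rel) ha hc hb
      obtain ⟨z, y, hz, hy, _⟩ := h.ab (by
        intro h0
        have := congrArg v h0
        rw [map_mul, map_one, ha1, one_mul] at this
        exact absurd this hb.ne')
      have hbd := lemBeta v ha1 hb hz
      have : v s₀ ^ (3 * n + 1) * v L < 1 := by
        rw [ha1] at hab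
        calc v s₀ ^ (3 * n + 1) * v L ≤ v s₀ ^ (3 * n + 1) * v b ^ (3 * n) :=
              mul_le_mul_right hbd _
          _ = v s₀ * (v s₀ * v b) ^ (3 * n) := by
              rw [pow_succ, mul_pow, mul_comm (v s₀ ^ (3 * n)), mul_assoc]
          _ < 1 := by rw [← hab, one_pow, mul_one]; exact hs1
      exact absurd hs2 this.ne
  · rw [not_lt] at hb
    have ha1 : v a < 1 := halt.trans_le hb
    have hc : v c ≤ 1 := by
      by_contra hc
      rw [not_le] at hc
      exact absurd (T2 v h.rel ha1.le hb hc).1 ha1.ne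
    have habl : v (a * b) < 1 := by rw [map_mul]; exact lt1_of_lt_of_le ha1 hb
    obtain ⟨z, y, hz, hy, _⟩ := h.ab (ne_one_of_lt v habl)
    have h1 : v (1 - a * b) = 1 := by
      rw [← v.map_one]
      apply Valuation.map_sub_eq_of_lt_left
      rwa [map_one]
    exact absurd hL (not_lt.2 (good_le_one v hz ha1.le hb h1))

/-- (3) coprime periods: the multipliers are integral. -/
theorem two_coprime (h : TS (Q2 n m (algebraMap F K l) (algebraMap F K l')) a b c) (hs : a + b + c ∉ Set.range (algebraMap F K))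
    (h20 : (2 : F) ≠ 0) (hcop : Nat.Coprime n m) (hn : 0 < n) (O : ValuationSubring F) :
    O.valuation l ≤ 1 := by
  by_contra hl
  rw [not_le] at hl
  have hlarge := two_large h hs O hl
  have hl0 : l ≠ 0 := by
    rintro rfl
    rw [map_zero] at hl
    exact not_lt_zero hl
  -- nonvanishing
  have hprod : a * b * c ≠ 0 := by
    intro h0
    apply hs
    refine ⟨2, ?_⟩
    rw [map_ofNat]
    linear_combination (-1 : K) * h0 + h.rel
  have hb0 : b ≠ 0 := by rintro rfl; simp at hprod
  -- a nonconstant ratio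
  have hratio : a / b ∉ Set.range (algebraMap F K) ∨ c / b ∉ Set.range (algebraMap F K) := by
    by_contra hcon
    push Not at hcon
    obtain ⟨⟨r, hr⟩, ⟨r', hr'⟩⟩ := hcon
    have ea : a = algebraMap F K r * b := by rw [hr]; field_simp
    have ec : c = algebraMap F K r' * b := by rw [hr']; field_simp
    have hb : b ∈ Set.range (algebraMap F K) := by
      let p : Polynomial F := Polynomial.C (r * r') * Polynomial.X ^ 3
        - Polynomial.C (1 + r + r') * Polynomial.X + 2
      have hp : p ≠ 0 := by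
        intro h0
        have : p.coeff 0 = 2 := by simp [p]
        rw [h0, Polynomial.coeff_zero] at this
        exact h20 this.symm
      apply mem_of_root p hp
      have : Polynomial.aeval b p = algebraMap F K (r * r') * b ^ 3 - algebraMap F K (1 + r + r') * b + 2 := by
        simp only [p, map_sub, map_add, map_mul, map_pow, Polynomial.aeval_X, Polynomial.aeval_C,
          map_ofNat, map_one]
      rw [this]
      have e := h.rel
      rw [ea, ec] at e
      rw [map_mul, map_add, map_add, map_one]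
      linear_combination e
    apply hs
    obtain ⟨b', hb'⟩ := hb
    refine ⟨r * b' + b' + r' * b', ?_⟩
    rw [map_add, map_add, map_mul, map_mul, hb', ← ea, ← ec]
  -- a root of `l`
  obtain ⟨s₀, hs₀⟩ : ∃ s₀ : F, s₀ ^ (3 * n + 1) = l⁻¹ :=
    IsAlgClosed.exists_pow_nat_eq _ (by omega)
  have hs00 : s₀ ≠ 0 := by
    rintro rfl
    rw [zero_pow (by omega)] at hs₀
    exact inv_ne_zero hl0 hs₀.symm
  have main : ∀ a b c : K, TS (Q2 n m (algebraMap F K l) (algebraMap F K l')) a b c → b ≠ 0 → a / b ∉ Set.range (algebraMap F K) →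
      False := by
    intro a b c h hb0 hab
    have ht : a / (b * algebraMap F K s₀) - 1 ∉ Set.range (algebraMap F K) := by
      rintro ⟨x, hx⟩
      apply hab
      refine ⟨(x + 1) * s₀, ?_⟩
      have : algebraMap F K s₀ ≠ 0 := (_root_.map_ne_zero _).2 hs00
      rw [map_mul, map_add, map_one, hx]
      field_simp
      ring
    obtain ⟨B, hE, hB⟩ := exists_close O ht
    set v := B.valuation with hv
    have hvs : v (algebraMap F K s₀) ≠ 0 := (v.ne_zero_iff).2 ((_root_.map_ne_zero _).2 hs00)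
    have hvb : v b ≠ 0 := (v.ne_zero_iff).2 hb0
    have e1 : v (a / (b * algebraMap F K s₀)) = 1 := by
      have : a / (b * algebraMap F K s₀) = 1 + (a / (b * algebraMap F K s₀) - 1) := by ring
      rw [this, Valuation.map_add_eq_of_lt_left v (by rwa [map_one]), map_one]
    have e2 : v a = v (algebraMap F K s₀) * v b := by
      rw [map_div₀, map_mul, div_eq_one_iff_eq (mul_ne_zero hvb hvs)] at e1
      rw [e1, mul_comm]
    have hL : 1 < v (algebraMap F K l) := (hE.one_lt_iff l).2 hl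
    have e3 : v (algebraMap F K s₀) ^ (3 * n + 1) * v (algebraMap F K l) = 1 := by
      rw [← map_pow, ← map_pow, hs₀, map_inv₀, map_inv₀]
      exact inv_mul_cancel₀ ((v.ne_zero_iff).2 ((_root_.map_ne_zero _).2 hl0))
    have e4 : v (algebraMap F K s₀) < 1 := by
      by_contra hc
      rw [not_lt] at hc
      have : 1 < v (algebraMap F K s₀) ^ (3 * n + 1) * v (algebraMap F K l) :=
        hL.trans_le (le_mul_of_one_le_left' (one_le_pow_of_one_le' hc _))
      exact absurd e3 this.ne'
    have e5 : v (algebraMap F K l) ^ m = v (algebraMap F K l') ^ n := by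
      rw [← map_pow, ← map_pow, ← map_pow, ← map_pow]
      apply le_antisymm
      · rw [hE.le_iff, map_pow, map_pow]; exact hlarge.le
      · rw [hE.le_iff, map_pow, map_pow]; exact hlarge.ge
    exact coprime_aux v h hcop hL e5 e4 e3 e2 hvb hn
  rcases hratio with hr | hr
  · exact main a b c h hb0 hr
  · exact main c b a h.p13 hb0 hr

end Two

end Pool.Agent.helper56.Per
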