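import Pool.Agent.helper56.Per.Generic

/-!
# Assembly
-/

namespace Pool.Agent.helper56.Per

open Finset Filter

noncomputable instance instAlgKK : Algebra ℂ KK := cst.toAlgebra

theorem algebraMap_KK : algebraMap ℂ KK = cst := rfl

/-- the class of a normal form -/
noncomputable def Phi (x : ℂ × ℂ) : M2 :=
  open Classical in if h : x.1 * x.2 ≠ 1 then Quot.mk _ (QMap.N x.1 x.2 h) else Quot.mk _ QMap.S

theorem Phi_eq {f : QMap} {a b p q r t : ℂ} (h : HasN f a b p q r t) :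
    Phi (a, b) = Quot.mk _ f := by
  unfold Phi
  rw [dif_pos (show (a, b).1 * (a, b).2 ≠ 1 from h.ab)]
  exact (Quot.sound h.conj).symm

theorem infinite_of_image {C : Set M2} (hC : C.Infinite) {T : Set (ℂ × ℂ)}
    (h : ∀ c ∈ C, c ∈ Phi '' T ∨ c = Quot.mk _ QMap.S) : T.Infinite := by
  intro hT
  apply hC
  refine ((hT.image Phi).union (Set.finite_singleton (Quot.mk _ QMap.S))).subset ?_
  intro c hc
  rcases h c hc with h1 | h1
  · exact Or.inl h1
  · exact Or.inr h1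

theorem B_scale (f : QMap) (z d : ℂ) :
    f.B (z / d) (1 / d) (z / d) (1 / d) = f.B z 1 z 1 / d ^ 2 := by
  simp only [QMap.B]
  ring

section NM

variable {n m : ℕ} {lam lam' : ℂ}

theorem common_infinite_two (hn : 2 ≤ n) (hm : 2 ≤ m) (h : (common n m lam lam').Infinite) :
    {x : ℂ × ℂ | x.1 * x.2 ≠ 1 ∧ Q2 n m lam lam' x.1 x.2}.Infinite := by
  apply infinite_of_image h
  rintro c ⟨f, z, y, rfl, hz, hy, hd⟩
  obtain ⟨w1, w2, d, hw, hw1, hw2⟩ := exists_fixed f
  rcases second_fixed f hw hw1 hw2 with ⟨u1, u2, c, hdet, hu1, hu2⟩ | hS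
  · left
    obtain ⟨a, b, hN⟩ := hasN_of_fixed f hdet hu1 hu2 hw1 hw2
    obtain ⟨hz1, hz2⟩ := hN.ncyc hz hn
    obtain ⟨hy1, hy2⟩ := hN.ncyc hy hm
    refine ⟨(a, b), ⟨hN.ab, _, _, hz1, hy1, fun i j h0 => ?_⟩, Phi_eq hN⟩
    exact hz.disjoint hy hd i j (hN.inj (hz2 i) (hy2 j) h0)
  · right
    exact hS

theorem generic_two (h : {x : ℂ × ℂ | x.1 * x.2 ≠ 1 ∧ Q2 n m lam lam' x.1 x.2}.Infinite) :
    ∃ a b : KK, a * b ≠ 1 ∧ Q2 n m (algebraMap ℂ KK lam) (algebraMap ℂ KK lam') a b ∧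
      ¬ (a ∈ Set.range (algebraMap ℂ KK) ∧ b ∈ Set.range (algebraMap ℂ KK)) := by
  let e := h.natEmbedding
  have he : ∀ j, (e j).1.1 * (e j).1.2 ≠ 1 ∧ Q2 n m lam lam' (e j).1.1 (e j).1.2 := fun j => (e j).2
  choose h1 z y hz hy hne using he
  refine ⟨cls fun j => (e j).1.1, cls fun j => (e j).1.2, ?_,
    ⟨_, _, NCyc.cls hz, NCyc.cls hy, fun i k => cls_ne fun j => hne j i k⟩, ?_⟩
  · rw [← map_mul, ← map_one cls]
    exact cls_ne h1
  · rintro ⟨⟨α, hα⟩, ⟨β, hβ⟩⟩
    exact not_both_const (a := fun j => (e j).1.1) (b := fun j => (e j).1.2)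
      (fun i j hij => e.injective (Subtype.ext hij)) ⟨α, β, hα.symm, hβ.symm⟩

theorem TS_two (hn : 2 ≤ n) (hm : 2 ≤ m) (h : (common n m lam lam').Infinite) :
    ∃ a b c : KK, TS (Q2 n m (algebraMap ℂ KK lam) (algebraMap ℂ KK lam')) a b c ∧
      a + b + c ∉ Set.range (algebraMap ℂ KK) := by
  obtain ⟨a, b, hab, hQ, hne⟩ := generic_two (common_infinite_two hn hm h)
  have hT := TS.of (fun _ _ h => h.swap) (fun _ _ h1 h2 h => h.psi h1 h2) hab hQ
  exact ⟨_, _, _, hT, two_s hT fun hh => hne ⟨hh.1, hh.2.1⟩⟩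

theorem common_infinite_one (hm : 2 ≤ m) (h : (common 1 m lam lam').Infinite) :
    {x : ℂ × ℂ | x.1 = lam ∧ x.1 * x.2 ≠ 1 ∧ Q1 m lam' x.1 x.2}.Infinite := by
  apply infinite_of_image h
  rintro c ⟨f, z, y, rfl, hz, hy, hd⟩
  obtain ⟨hw1, hw2, hd0, hlam⟩ := hz.fixed
  rcases second_fixed f (w1 := z) (w2 := 1) (by simp) hw1 hw2 with
    ⟨u1, u2, c, hdet, hu1, hu2⟩ | hS
  · left
    obtain ⟨a, b, hN⟩ := hasN_of_fixed f hdet hu1 hu2 hw1 hw2
    obtain ⟨hy1, hy2⟩ := hN.ncyc hy hm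
    refine ⟨(a, b), ⟨?_, hN.ab, _, hy1⟩, Phi_eq hN⟩
    have e : f.B (z / f.den z) (1 / f.den z) (z / f.den z) (1 / f.den z) = a := by
      simpa using hN.B 0 1
    show a = lam
    rw [hlam, ← e, B_scale]
  · right
    exact hS

theorem generic_one (h : {x : ℂ × ℂ | x.1 = lam ∧ x.1 * x.2 ≠ 1 ∧ Q1 m lam' x.1 x.2}.Infinite) :
    ∃ b : KK, algebraMap ℂ KK lam * b ≠ 1 ∧ Q1 m (algebraMap ℂ KK lam') (algebraMap ℂ KK lam) b ∧
      b ∉ Set.range (algebraMap ℂ KK) := by
  let e := h.natEmbedding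
  have he : ∀ j, (e j).1.1 = lam ∧ (e j).1.1 * (e j).1.2 ≠ 1 ∧ Q1 m lam' (e j).1.1 (e j).1.2 :=
    fun j => (e j).2
  choose h0 h1 y hy using he
  have hc : cls (fun j => (e j).1.1) = algebraMap ℂ KK lam := by
    rw [algebraMap_KK, ← cls_const]
    congr 1
    funext j
    exact h0 j
  refine ⟨cls fun j => (e j).1.2, ?_, ⟨fun i => cls fun j => y j i, ?_⟩, ?_⟩
  · rw [← hc, ← map_mul, ← map_one cls]
    exact cls_ne h1
  · rw [← hc]
    exact NCyc.cls hy
  · rintro ⟨β, hβ⟩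
    exact not_both_const (a := fun j => (e j).1.1) (b := fun j => (e j).1.2)
      (fun i j hij => e.injective (Subtype.ext hij)) ⟨lam, β, hc, hβ.symm⟩

theorem TS_one (hm : 2 ≤ m) (h : (common 1 m lam lam').Infinite) :
    ∃ b c : KK, TS (Q1 m (algebraMap ℂ KK lam')) (algebraMap ℂ KK lam) b c ∧
      ¬ (b ∈ Set.range (algebraMap ℂ KK) ∧ c ∈ Set.range (algebraMap ℂ KK)) := by
  obtain ⟨b, hab, hQ, hne⟩ := generic_one (common_infinite_one hm h)
  have hT := TS.of (fun _ _ h => h.swap) (fun _ _ h1 h2 h => h.psi h1 h2) hab hQ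
  exact ⟨_, _, hT, fun hh => hne hh.1⟩

theorem common_one_one : (common 1 1 lam lam').Finite := by
  refine (Set.finite_singleton (Phi (lam, lam'))).subset ?_
  rintro c ⟨f, z, y, rfl, hz, hy, hd⟩
  obtain ⟨hw1, hw2, hd0, hlam⟩ := hz.fixed
  obtain ⟨hu1, hu2, hd0', hlam'⟩ := hy.fixed
  have hzy : z ≠ y := hd 0
  obtain ⟨a, b, hN⟩ := hasN_of_fixed f (u1 := y) (u2 := 1) (w1 := z) (w2 := 1)
    (by rw [mul_one, mul_one]; exact sub_ne_zero.2 hzy.symm) hu1 hu2 hw1 hw2
  have e : f.B (z / f.den z) (1 / f.den z) (z / f.den z) (1 / f.den z) = a := by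
    simpa using hN.B 0 1
  have e' : f.B (y / f.den y) (1 / f.den y) (y / f.den y) (1 / f.den y) = b := by
    simpa using hN.B 1 0
  have h1 : a = lam := by rw [hlam, ← e, B_scale]
  have h2 : b = lam' := by rw [hlam', ← e', B_scale]
  rw [Set.mem_singleton_iff, ← h1, ← h2, Phi_eq hN]

theorem common_symm : common n m lam lam' = common m n lam' lam := by
  have key : ∀ (n m : ℕ) (lam lam' : ℂ), common n m lam lam' ⊆ common m n lam' lam := by
    rintro n m lam lam' c ⟨f, z, y, h, hz, hy, hd⟩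
    exact ⟨f, y, z, h, hy, hz, fun i h0 => hz.disjoint hy hd 0 i h0.symm⟩
  exact Set.Subset.antisymm (key _ _ _ _) (key _ _ _ _)

end NM

/-! ### valuations of the complex numbers -/

theorem exists_dyadic (K : Type*) [Field K] [CharZero K] :
    ∃ O : ValuationSubring K, O.valuation 2 < 1 := by
  let A : Subring K := (Int.castRingHom K).range
  let two : A := ⟨2, ⟨2, by simp⟩⟩
  let I : Ideal A := Ideal.span {two}
  have hI : I ≠ ⊤ := by
    rw [Ne, Ideal.eq_top_iff_one]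
    intro h1
    rw [Ideal.mem_span_singleton] at h1
    obtain ⟨⟨x, ⟨k, hk⟩⟩, hx⟩ := h1
    have h2 : (1 : K) = 2 * x := congrArg Subtype.val hx
    rw [← hk] at h2
    have h3 : ((1 : ℤ) : K) = ((2 * k : ℤ) : K) := by
      push_cast
      simpa using h2
    have h4 : (1 : ℤ) = 2 * k := by exact_mod_cast h3
    omega
  obtain ⟨B, _, hB⟩ := Ideal.image_subset_nonunits_valuationSubring I hI
  refine ⟨B, ?_⟩
  rw [← ValuationSubring.mem_nonunits_iff]
  exact hB ⟨two, Ideal.mem_span_singleton_self two, rfl⟩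

theorem exists_dyadic_small {t : ℂ} (ht : Transcendental ℚ t) :
    ∃ O : ValuationSubring ℂ, O.valuation 2 < 1 ∧ O.valuation t < 1 := by
  obtain ⟨O, hO⟩ := exists_dyadic ℚ
  obtain ⟨B, hB, hBt⟩ := exists_ext O ht
  have hE : Ext O B.valuation := hB
  refine ⟨B, ?_, hBt⟩
  have := (hE.lt_one_iff 2).2 hO
  rwa [map_ofNat] at this

theorem integral_of_valuations {x : ℂ} (h : ∀ O : ValuationSubring ℂ, O.valuation x ≤ 1) :
    IsIntegral ℤ x := by
  by_contra hx
  have hx' : x ∉ (integralClosure ℤ ℂ).toSubring := fun h0 => hx h0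
  have : IsIntegrallyClosedIn (integralClosure ℤ ℂ).toSubring ℂ :=
    inferInstanceAs (IsIntegrallyClosedIn (integralClosure ℤ ℂ) ℂ)
  obtain ⟨V, _, hV⟩ := Subring.exists_le_valuationSubring_of_isIntegrallyClosedIn hx'
  exact hV ((V.valuation_le_one_iff x).1 (h V))

/-! ### local conclusions -/

/-- The conclusions at a valuation ring `O` of `ℂ`. -/
structure LocalConcl (n m : ℕ) (lam lam' : ℂ) (O : ValuationSubring ℂ) : Prop where
  int : O.valuation lam ≤ 1 ↔ O.valuation lam' ≤ 1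
  large : 1 < O.valuation lam → O.valuation lam ^ m = O.valuation lam' ^ n
  dyadic : O.valuation 2 < 1 → O.valuation lam ≤ 1 → O.valuation lam = 1 ∧
    O.valuation lam' = 1 ∧ O.valuation (lam ^ m - lam' ^ n) ≤ O.valuation 2
  small : ¬ (O.valuation lam < 1 ∧ O.valuation lam' < 1)

section

variable {n m : ℕ} {lam lam' : ℂ}

theorem local_two (hn : 2 ≤ n) (hm : 2 ≤ m) (h : (common n m lam lam').Infinite)
    (O : ValuationSubring ℂ) : LocalConcl n m lam lam' O := by
  obtain ⟨a, b, c, hT, hs⟩ := TS_two hn hm h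
  have hT' : TS (Q2 m n (algebraMap ℂ KK lam') (algebraMap ℂ KK lam)) a b c :=
    hT.mono fun _ _ h => h.symm
  have h20 : (2 : ℂ) ≠ 0 := two_ne_zero
  refine ⟨⟨two_int hT hs O, two_int hT' hs O⟩, two_large hT hs O,
    fun h2 hl => two_dyadic hT hs h20 O h2 hl (by omega) (by omega), ?_⟩
  rcases lt_or_eq_of_le (v_two_le O.valuation) with h2 | h2
  · exact two_not_both hT hs O h2
  · exact two_odd hT hs O h2

theorem integral_two (hn : 2 ≤ n) (hm : 2 ≤ m) (h : (common n m lam lam').Infinite)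
    (hcop : Nat.Coprime n m) : IsIntegral ℤ lam := by
  obtain ⟨a, b, c, hT, hs⟩ := TS_two hn hm h
  exact integral_of_valuations fun O => two_coprime hT hs two_ne_zero hcop (by omega) O

theorem root_one (hm : 2 ≤ m) (h : (common 1 m lam lam').Infinite) :
    ∃ q, 2 ≤ q ∧ q ≤ m ∧ IsPrimitiveRoot lam q := by
  obtain ⟨b, c, hT, hne⟩ := TS_one hm h
  have hs := one_s hT hne
  obtain ⟨j, hj, hjm, hlj⟩ := one_root hT hs (by omega)
  have h1 := one_ne_one hT hne
  refine ⟨orderOf lam, ?_, ?_, IsPrimitiveRoot.orderOf lam⟩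
  · have h2 : orderOf lam ≠ 1 := fun h => h1 (orderOf_eq_one_iff.1 h)
    have h3 : 0 < orderOf lam := orderOf_pos_iff.2 (isOfFinOrder_iff_pow_eq_one.2 ⟨j, hj, hlj⟩)
    omega
  · exact (orderOf_le_of_pow_eq_one hj hlj).trans hjm

theorem unit_of_root {q : ℕ} (hq : 2 ≤ q) (h : IsPrimitiveRoot lam q) (O : ValuationSubring ℂ) :
    O.valuation lam = 1 := by
  have e := congrArg O.valuation h.pow_eq_one
  rw [map_pow, map_one] at e
  rcases lt_trichotomy (O.valuation lam) 1 with h1 | h1 | h1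
  · exact absurd e (pow_lt_one₀ zero_le h1 (by omega)).ne
  · exact h1
  · exact absurd e (one_lt_pow₀ h1 (by omega)).ne'

theorem local_one (hm : 2 ≤ m) (h : (common 1 m lam lam').Infinite)
    (O : ValuationSubring ℂ) : LocalConcl 1 m lam lam' O ∧ O.valuation lam' ≤ 1 := by
  obtain ⟨q, hq, _, hprim⟩ := root_one hm h
  have hu := unit_of_root hq hprim O
  obtain ⟨b, c, hT, hne⟩ := TS_one hm h
  have hs := one_s hT hne
  have hint := one_int hT hs O hu
  refine ⟨⟨⟨fun _ => hint, fun _ => hu.le⟩, fun h1 => absurd hu h1.ne', fun h2 _ => ?_,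
    fun h1 => absurd hu h1.1.ne⟩, hint⟩
  have hd := one_dyadic hT hs two_ne_zero O h2 hu
  refine ⟨hu, ?_, ?_⟩
  · have e : lam' = lam ^ m + (lam' - lam ^ m) := by ring
    have h3 : O.valuation (lam ^ m) = 1 := by rw [map_pow, hu, one_pow]
    rw [e, Valuation.map_add_eq_of_lt_left _ (by rw [h3]; exact hd.trans_lt h2), h3]
  · rw [pow_one, Valuation.map_sub_swap]
    exact hd

theorem LocalConcl.symm {O : ValuationSubring ℂ} (h : LocalConcl n m lam lam' O) :
    LocalConcl m n lam' lam O := by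
  refine ⟨h.int.symm, fun h1 => (h.large ?_).symm, fun h2 hl => ?_, fun hh => h.small hh.symm⟩
  · by_contra h2
    rw [not_lt] at h2
    exact absurd (h.int.1 h2) (not_le.2 h1)
  · obtain ⟨h3, h4, h5⟩ := h.dyadic h2 (h.int.2 hl)
    exact ⟨h4, h3, by rw [Valuation.map_sub_swap]; exact h5⟩

/-- all conclusions -/
theorem main (h : (common n m lam lam').Infinite) :
    (2 ≤ n ∨ 2 ≤ m) ∧
    (n = 1 → ∃ q, 2 ≤ q ∧ q ≤ m ∧ IsPrimitiveRoot lam q) ∧
    (m = 1 → ∃ q, 2 ≤ q ∧ q ≤ n ∧ IsPrimitiveRoot lam' q) ∧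
    (∀ O : ValuationSubring ℂ, LocalConcl n m lam lam' O) ∧
    (Nat.Coprime n m → IsIntegral ℤ lam ∧ IsIntegral ℤ lam') := by
  obtain ⟨c₀, f, z, y, _, hz, hy, _⟩ := h.nonempty
  have hn0 : 0 < n := hz.1
  have hm0 : 0 < m := hy.1
  rcases (show n = 1 ∨ 2 ≤ n by omega) with rfl | hn
  · rcases (show m = 1 ∨ 2 ≤ m by omega) with rfl | hm
    · exact absurd common_one_one h
    · have hr := root_one hm h
      refine ⟨Or.inr hm, fun _ => hr, by omega, fun O => (local_one hm h O).1, fun _ => ?_⟩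
      obtain ⟨q, hq, _, hprim⟩ := hr
      exact ⟨integral_of_valuations fun O => (unit_of_root hq hprim O).le,
        integral_of_valuations fun O => (local_one hm h O).2⟩
  · rcases (show m = 1 ∨ 2 ≤ m by omega) with rfl | hm
    · have h' := h
      rw [common_symm] at h'
      have hr := root_one hn h'
      refine ⟨Or.inl hn, by omega, fun _ => hr, fun O => (local_one hn h' O).1.symm, fun _ => ?_⟩
      obtain ⟨q, hq, _, hprim⟩ := hr
      exact ⟨integral_of_valuations fun O => (local_one hn h' O).2,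
        integral_of_valuations fun O => (unit_of_root hq hprim O).le⟩
    · have h' := h
      rw [common_symm] at h'
      exact ⟨Or.inl hn, by omega, by omega, fun O => local_two hn hm h O,
        fun hc => ⟨integral_two hn hm h hc, integral_two hm hn h' hc.symm⟩⟩

theorem algebraic_aux (h : ∀ O : ValuationSubring ℂ, LocalConcl n m lam lam' O) :
    IsAlgebraic ℚ lam ∧ lam ≠ 0 := by
  constructor
  · by_contra ht
    obtain ⟨O, h2, hl⟩ := exists_dyadic_small ht
    exact absurd ((h O).dyadic h2 hl.le).1 hl.ne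
  · rintro rfl
    obtain ⟨O, h2⟩ := exists_dyadic ℂ
    have := ((h O).dyadic h2 (by rw [map_zero]; exact zero_le_one)).1
    rw [map_zero] at this
    exact zero_ne_one this

end

end Pool.Agent.helper56.Per
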