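import Mathlib

/-!
# Cycles of quadratic rational maps in normal form, over a valued field

The normal form is `z ↦ z (z + a) / (b z + 1)`; it has fixed points `0` (multiplier `a`) and
`∞` (multiplier `b`).
-/

namespace Pool.Agent.helper56.Per

open Finset

variable {K : Type*} [Field K]

/-- A cycle (period dividing `n`, not a fixed point) of `z ↦ z (z + a) / (b z + 1)`, avoiding the
fixed points `0` and `∞`, such that the derivative of the `n`-th iterate is `lam`. -/
structure NCyc (a b : K) (n : ℕ) (lam : K) (z : ℕ → K) : Prop where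
  npos : 0 < n
  ne0 : ∀ i, z i ≠ 0
  den : ∀ i, b * z i + 1 ≠ 0
  step : ∀ i, z (i + 1) * (b * z i + 1) = z i * (z i + a)
  per : ∀ i, z (i + n) = z i
  ne : ∀ i, z (i + 1) ≠ z i
  mul : ∏ i ∈ range n, (b * z i ^ 2 + 2 * z i + a) = lam * ∏ i ∈ range n, (b * z i + 1) ^ 2

theorem prod_shift {M : Type*} [CommMonoid M] (g : ℕ → M) (n : ℕ) (h : g n = g 0) :
    ∏ i ∈ range n, g (i + 1) = ∏ i ∈ range n, g i := by
  cases n with
  | zero => simp
  | succ k => rw [Finset.prod_range_succ, Finset.prod_range_succ', h]

theorem no_desc {α : Type*} [Preorder α] (g : ℕ → α) (n : ℕ) (hn : 0 < n)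
    (hper : ∀ i, g (i + n) = g i) (h : ∀ i, g (i + 1) < g i) : False := by
  have h1 : StrictAnti g := strictAnti_nat_of_succ_lt h
  have h2 : g (0 + n) < g 0 := h1 (by omega)
  rw [hper] at h2
  exact lt_irrefl _ h2

theorem no_asc {α : Type*} [Preorder α] (g : ℕ → α) (n : ℕ) (hn : 0 < n)
    (hper : ∀ i, g (i + n) = g i) (h : ∀ i, g i < g (i + 1)) : False := by
  have h1 : StrictMono g := strictMono_nat_of_lt_succ h
  have h2 : g 0 < g (0 + n) := h1 (by omega)
  rw [hper] at h2
  exact lt_irrefl _ h2

namespace NCyc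

variable {a b : K} {n : ℕ} {lam : K} {z : ℕ → K}

theorem periodic (h : NCyc a b n lam z) : Function.Periodic z n := h.per

theorem num (h : NCyc a b n lam z) (i : ℕ) : z i + a ≠ 0 := by
  intro h0
  have := h.step i
  rw [h0, mul_zero] at this
  exact (mul_ne_zero (h.ne0 _) (h.den i)) this

theorem forall_of (h : NCyc a b n lam z) {P : K → Prop} (hP : ∀ i ∈ range n, P (z i)) (i : ℕ) :
    P (z i) := by
  rw [← h.periodic.map_mod_nat]
  exact hP _ (mem_range.2 (Nat.mod_lt _ h.npos))

end NCyc

variable {Γ : Type*} [LinearOrderedCommGroupWithZero Γ] (v : Valuation K Γ)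

theorem v_two_le : v 2 ≤ 1 := by
  have h : v (1 + 1) ≤ max (v 1) (v 1) := v.map_add 1 1
  rw [map_one, max_self] at h
  norm_num at h
  exact h

theorem v_two_mul_le (x : K) : v (2 * x) ≤ v x := by
  rw [map_mul]
  exact mul_le_of_le_one_left' (v_two_le v)

/-- The distance identity. -/
theorem dist_id {a b z w z' w' : K} (hz : z' * (b * z + 1) = z * (z + a))
    (hw : w' * (b * w + 1) = w * (w + a)) :
    (z' - w') * ((b * z + 1) * (b * w + 1)) = (z - w) * (b * z * w + z + w + a) := by
  linear_combination (b * w + 1) * hz - (b * z + 1) * hw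

theorem le_mul_of_one_lt' {x y : Γ} (hx : 1 < x) (hy : y ≠ 0) : y < x * y := by
  have := mul_lt_mul_of_pos_right hx (zero_lt_iff.2 hy)
  rwa [one_mul] at this

/-- Region lemma: with both multipliers large, the middle region contains no cycle. -/
theorem region {a b : K} {n : ℕ} {lam : K} {z : ℕ → K} (ha : 1 < v a) (hb : 1 < v b)
    (h : NCyc a b n lam z) (i : ℕ) : v b * v (z i) ≤ 1 ∨ v a ≤ v (z i) := by
  by_contra hcon
  push Not at hcon
  obtain ⟨h1, h2⟩ := hcon
  have hva : v a ≠ 0 := (zero_lt_one.trans ha).ne'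
  have hvb : v b ≠ 0 := (zero_lt_one.trans hb).ne'
  have hvz : ∀ j, v (z j) ≠ 0 := fun j => (v.ne_zero_iff).2 (h.ne0 j)
  -- one step
  have hstep : ∀ j, 1 < v b * v (z j) → v (z j) < v a →
      v (b * z j + 1) = v b * v (z j) ∧ v b * v (z (j + 1)) = v a := by
    intro j h1 h2
    have e1 : v (z j + a) = v a := Valuation.map_add_eq_of_lt_right v h2
    have e2 : v (b * z j + 1) = v b * v (z j) := by
      rw [← map_mul]
      apply Valuation.map_add_eq_of_lt_left
      rw [map_one, map_mul]
      exact h1
    refine ⟨e2, ?_⟩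
    have e3 := congrArg v (h.step j)
    rw [map_mul, map_mul, e1, e2] at e3
    have : v (z j) * (v b * v (z (j + 1))) = v (z j) * v a := by
      rw [← e3]; simp only [mul_comm, mul_left_comm]
    exact mul_left_cancel₀ (hvz j) this
  have hall : ∀ k, 1 < v b * v (z (i + k)) ∧ v (z (i + k)) < v a := by
    intro k
    induction k with
    | zero => exact ⟨h1, h2⟩
    | succ k ih =>
      obtain ⟨_, e⟩ := hstep (i + k) ih.1 ih.2
      rw [← add_assoc]
      refine ⟨by rw [e]; exact ha, ?_⟩
      calc v (z (i + k + 1)) < v b * v (z (i + k + 1)) := le_mul_of_one_lt' hb (hvz _)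
        _ = v a := e
  have hval1 : ∀ k, v b * v (z (i + k + 1)) = v a := fun k => (hstep _ (hall k).1 (hall k).2).2
  have hval : ∀ k, v b * v (z (i + k)) = v a := by
    intro k
    cases k with
    | zero =>
      have := hval1 (n - 1)
      rw [add_assoc, Nat.sub_add_cancel h.npos, h.per] at this
      simpa using this
    | succ k => exact hval1 k
  have hden : ∀ k, v (b * z (i + k) + 1) = v a := fun k => by
    rw [(hstep _ (hall k).1 (hall k).2).1, hval]
  apply no_desc (fun k => v (z (i + k + 1) - z (i + k))) n h.npos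
  · intro k
    have e1 : i + (k + n) + 1 = (i + k + 1) + n := by ring
    have e2 : i + (k + n) = (i + k) + n := by ring
    show v (z (i + (k + n) + 1) - z (i + (k + n))) = _
    rw [e1, e2, h.per, h.per]
  · intro k
    have e := congrArg v (dist_id (h.step (i + k + 1)) (h.step (i + k)))
    rw [map_mul, map_mul, map_mul, hden, show i + k + 1 = i + (k + 1) by ring, hden] at e
    rw [show i + (k + 1) + 1 = i + (k + 1) + 1 by rfl]
    have hB : v (b * z (i + (k + 1)) * z (i + k) + z (i + (k + 1)) + z (i + k) + a)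
        < v a * v a := by
      have haa : v a < v a * v a := le_mul_of_one_lt' ha hva
      refine Valuation.map_add_lt v (Valuation.map_add_lt v (Valuation.map_add_lt v ?_ ?_) ?_) haa
      · rw [map_mul, map_mul, hval]
        exact mul_lt_mul_of_pos_left (hall k).2 (zero_lt_iff.2 hva)
      · exact (hall (k + 1)).2.trans haa
      · exact (hall k).2.trans haa
    have hd : v (z (i + (k + 1)) - z (i + k)) ≠ 0 := by
      rw [v.ne_zero_iff]
      exact sub_ne_zero.2 (h.ne (i + k))
    have : v (z (i + (k + 1) + 1) - z (i + (k + 1))) * (v a * v a)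
        < v (z (i + (k + 1)) - z (i + k)) * (v a * v a) := by
      rw [e]
      exact mul_lt_mul_of_pos_left hB (zero_lt_iff.2 hd)
    exact lt_of_mul_lt_mul_right' this

end Pool.Agent.helper56.Per
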