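import Mathlib

/-!
# Extending a valuation ring to a transcendental extension with a prescribed small element
-/

namespace Pool.Agent.helper56.Per

open Polynomial

variable {F K : Type*} [Field F] [Field K] [Algebra F K]

theorem exists_ext (O : ValuationSubring F) {t : K} (ht : Transcendental F t) :
    ∃ B : ValuationSubring K,
      (∀ x : F, B.valuation (algebraMap F K x) ≤ 1 ↔ O.valuation x ≤ 1) ∧ B.valuation t < 1 := by
  classical
  let θ : O[X] →+* K := eval₂RingHom ((algebraMap F K).comp O.subtype) t
  have hθ : Function.Injective θ := by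
    rw [injective_iff_map_eq_zero]
    intro g hg
    have h1 : aeval t (g.map O.subtype) = 0 := by
      rw [← hg]
      simp only [θ, coe_eval₂RingHom, aeval_def, eval₂_map]
    have h2 : g.map O.subtype = 0 := by
      by_contra h0
      exact ht ⟨_, h0, h1⟩
    exact (Polynomial.map_eq_zero_iff (O.subtype_injective)).1 h2
  let J : Ideal O[X] := (IsLocalRing.maximalIdeal O).comap constantCoeff
  let A : Subring K := θ.range
  let I : Ideal A := J.map θ.rangeRestrict
  have hI : I ≠ ⊤ := by
    rw [Ne, Ideal.eq_top_iff_one]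
    intro h1
    rw [Ideal.mem_map_iff_of_surjective _ θ.rangeRestrict_surjective] at h1
    obtain ⟨g, hg, hg1⟩ := h1
    have : θ g = θ 1 := by
      rw [map_one]
      exact congrArg Subtype.val hg1
    rw [hθ this] at hg
    have : (1 : O) ∈ IsLocalRing.maximalIdeal O := by
      have h2 : constantCoeff (1 : O[X]) ∈ IsLocalRing.maximalIdeal O := hg
      rwa [map_one] at h2
    exact (Ideal.ne_top_iff_one _).1 (IsLocalRing.maximalIdeal.isMaximal O).ne_top this
  obtain ⟨B, hAB, hIB⟩ := Ideal.image_subset_nonunits_valuationSubring I hI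
  have hmemI : ∀ g ∈ J, B.valuation (θ g) < 1 := by
    intro g hg
    rw [← ValuationSubring.mem_nonunits_iff]
    exact hIB ⟨θ.rangeRestrict g, Ideal.mem_map_of_mem _ hg, rfl⟩
  have hmemA : ∀ g : O[X], B.valuation (θ g) ≤ 1 := by
    intro g
    rw [ValuationSubring.valuation_le_one_iff]
    exact hAB ⟨g, rfl⟩
  refine ⟨B, ?_, ?_⟩
  · intro x
    constructor
    · intro hx
      by_contra hc
      rw [not_le] at hc
      have hx0 : x ≠ 0 := by
        rintro rfl
        rw [map_zero] at hc
        exact not_lt_zero hc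
      have hinv : O.valuation x⁻¹ < 1 := by
        rw [map_inv₀]
        exact inv_lt_one_of_one_lt₀ hc
      let y : O := ⟨x⁻¹, (O.valuation_le_one_iff _).1 hinv.le⟩
      have hy : (C y : O[X]) ∈ J := by
        show constantCoeff (C y) ∈ IsLocalRing.maximalIdeal O
        rw [constantCoeff_apply, coeff_C_zero]
        exact (ValuationSubring.valuation_lt_one_iff O y).2 hinv
      have h3 := hmemI _ hy
      have h4 : θ (C y) = (algebraMap F K x)⁻¹ := by
        simp only [θ, coe_eval₂RingHom, eval₂_C, RingHom.comp_apply]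
        show algebraMap F K x⁻¹ = _
        rw [map_inv₀]
      rw [h4, map_inv₀] at h3
      have hne : B.valuation (algebraMap F K x) ≠ 0 :=
        (B.valuation.ne_zero_iff).2 ((_root_.map_ne_zero _).2 hx0)
      have h5 : 1 < B.valuation (algebraMap F K x) := by
        rwa [inv_lt_one₀ (zero_lt_iff.2 hne)] at h3
      exact absurd hx (not_le.2 h5)
    · intro hx
      let y : O := ⟨x, (O.valuation_le_one_iff _).1 hx⟩
      have h4 : θ (C y) = algebraMap F K x := by
        simp only [θ, coe_eval₂RingHom, eval₂_C, RingHom.comp_apply]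
        rfl
      rw [← h4]
      exact hmemA _
  · have hX : (X : O[X]) ∈ J := by
      show constantCoeff (X : O[X]) ∈ IsLocalRing.maximalIdeal O
      rw [constantCoeff_apply, coeff_X_zero]
      exact Ideal.zero_mem _
    have h4 : θ X = t := by simp only [θ, coe_eval₂RingHom, eval₂_X]
    rw [← h4]
    exact hmemI _ hX

/-- `v` extends the valuation ring `O`. -/
def Ext (O : ValuationSubring F) {Γ : Type*} [LinearOrderedCommGroupWithZero Γ]
    (v : Valuation K Γ) : Prop :=
  ∀ x : F, v (algebraMap F K x) ≤ 1 ↔ O.valuation x ≤ 1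

namespace Ext

variable {O : ValuationSubring F} {Γ : Type*} [LinearOrderedCommGroupWithZero Γ]
  {v : Valuation K Γ}

theorem one_le_iff (h : Ext O v) (x : F) : 1 ≤ v (algebraMap F K x) ↔ 1 ≤ O.valuation x := by
  rcases eq_or_ne x 0 with rfl | hx
  · simp
  · have h1 := h x⁻¹
    have hv : v (algebraMap F K x) ≠ 0 := (v.ne_zero_iff).2 ((_root_.map_ne_zero _).2 hx)
    have hO : O.valuation x ≠ 0 := (O.valuation.ne_zero_iff).2 hx
    rw [map_inv₀, map_inv₀, map_inv₀, inv_le_one₀ (zero_lt_iff.2 hv),
      inv_le_one₀ (zero_lt_iff.2 hO)] at h1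
    exact h1

theorem lt_one_iff (h : Ext O v) (x : F) : v (algebraMap F K x) < 1 ↔ O.valuation x < 1 := by
  rw [← not_le, ← not_le, h.one_le_iff]

theorem one_lt_iff (h : Ext O v) (x : F) : 1 < v (algebraMap F K x) ↔ 1 < O.valuation x := by
  rw [← not_le, ← not_le, h x]

theorem eq_one_iff (h : Ext O v) (x : F) : v (algebraMap F K x) = 1 ↔ O.valuation x = 1 := by
  rw [le_antisymm_iff, le_antisymm_iff, h x, h.one_le_iff]

theorem le_iff (h : Ext O v) (x y : F) :
    v (algebraMap F K x) ≤ v (algebraMap F K y) ↔ O.valuation x ≤ O.valuation y := by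
  rcases eq_or_ne y 0 with rfl | hy
  · simp
  · have h1 := h (x / y)
    have hv : v (algebraMap F K y) ≠ 0 := (v.ne_zero_iff).2 ((_root_.map_ne_zero _).2 hy)
    have hO : O.valuation y ≠ 0 := (O.valuation.ne_zero_iff).2 hy
    rw [map_div₀, map_div₀, map_div₀, div_le_one₀ (zero_lt_iff.2 hv),
      div_le_one₀ (zero_lt_iff.2 hO)] at h1
    exact h1

end Ext

/-- the trivial valuation ring: all nonzero constants are units -/
theorem top_val_le (x : F) : (⊤ : ValuationSubring F).valuation x ≤ 1 := by
  rw [ValuationSubring.valuation_le_one_iff]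
  trivial

theorem top_val_eq {x : F} (hx : x ≠ 0) : (⊤ : ValuationSubring F).valuation x = 1 := by
  apply le_antisymm (top_val_le x)
  have := top_val_le x⁻¹
  rw [map_inv₀] at this
  rwa [inv_le_one₀ (zero_lt_iff.2 (((⊤ : ValuationSubring F).valuation.ne_zero_iff).2 hx))] at this

end Pool.Agent.helper56.Per
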