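import Pool.Agent.helper56.Per.Rot
import Pool.Agent.helper56.Per.VExt

/-!
# The generic point of a common component: global consequences
-/

namespace Pool.Agent.helper56.Per

open Finset

/-! ### triples of fixed point multipliers -/

/-- A triple of fixed point multipliers, with a property `Q` of the normal forms for all ordered
pairs of distinct fixed points. -/
structure TS {K : Type*} [Field K] (Q : K → K → Prop) (a b c : K) : Prop where
  rel : a * b * c = a + b + c - 2
  ab : a * b ≠ 1 → Q a b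
  ba : a * b ≠ 1 → Q b a
  ac : a * c ≠ 1 → Q a c
  ca : a * c ≠ 1 → Q c a
  bc : b * c ≠ 1 → Q b c
  cb : b * c ≠ 1 → Q c b

section

variable {K : Type*} [Field K] {Q : K → K → Prop} {a b c : K}

theorem TS.p12 (h : TS Q a b c) : TS Q b a c :=
  ⟨by linear_combination h.rel, fun h1 => h.ba (by rwa [mul_comm]),
    fun h1 => h.ab (by rwa [mul_comm]), h.bc, h.cb, h.ac, h.ca⟩

theorem TS.p23 (h : TS Q a b c) : TS Q a c b :=
  ⟨by linear_combination h.rel, h.ac, h.ca, h.ab, h.ba, fun h1 => h.cb (by rwa [mul_comm]),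
    fun h1 => h.bc (by rwa [mul_comm])⟩

theorem TS.p13 (h : TS Q a b c) : TS Q c b a := h.p12.p23.p12

theorem TS.of (hsw : ∀ a b, Q a b → Q b a)
    (hpsi : ∀ a b, a * b ≠ 1 → a ≠ 1 → Q a b → Q a ((2 - a - b) / (1 - a * b)))
    (hab : a * b ≠ 1) (h : Q a b) : TS Q a b ((2 - a - b) / (1 - a * b)) := by
  have h0 : 1 - a * b ≠ 0 := sub_ne_zero.2 (Ne.symm hab)
  have e1 : a = 1 → (2 - a - b) / (1 - a * b) = 1 := by
    intro h1
    subst h1
    rw [div_eq_one_iff_eq h0]; ring
  have e2 : b = 1 → (2 - a - b) / (1 - a * b) = 1 := by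
    intro h1
    subst h1
    rw [div_eq_one_iff_eq h0]; ring
  have q1 : a * ((2 - a - b) / (1 - a * b)) ≠ 1 → Q a ((2 - a - b) / (1 - a * b)) := by
    intro h1
    apply hpsi a b hab _ h
    intro h2
    rw [e1 h2, h2, one_mul] at h1
    exact h1 rfl
  have q2 : b * ((2 - a - b) / (1 - a * b)) ≠ 1 → Q b ((2 - a - b) / (1 - a * b)) := by
    intro h1
    have h3 := hpsi b a (by rwa [mul_comm]) (by
      intro h2
      rw [e2 h2, h2, one_mul] at h1
      exact h1 rfl) (hsw _ _ h)
    rwa [show (2 - b - a) / (1 - b * a) = (2 - a - b) / (1 - a * b) by ring] at h3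
  refine ⟨?_, fun _ => h, fun _ => hsw _ _ h, q1, fun h1 => hsw _ _ (q1 h1), q2,
    fun h1 => hsw _ _ (q2 h1)⟩
  field_simp
  ring

variable {Γ : Type*} [LinearOrderedCommGroupWithZero Γ] (v : Valuation K Γ)

theorem v_nat_le (k : ℕ) : v (k : K) ≤ 1 := by
  induction k with
  | zero => simp
  | succ k ih =>
    push_cast
    exact v.map_add_le ih (by rw [map_one])

theorem v_ofNat_le (k : ℕ) [k.AtLeastTwo] : v (OfNat.ofNat k : K) ≤ 1 := by
  have := v_nat_le v (OfNat.ofNat k)
  rwa [Nat.cast_ofNat] at this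

theorem prod_eq_one_le {x y : Γ} (hx : x ≤ 1) (hy : y ≤ 1) (h : x * y = 1) : x = 1 ∧ y = 1 := by
  have h1 : x = 1 := by
    by_contra hc
    have : x * y < 1 := lt1_of_lt_of_le (lt_of_le_of_ne hx hc) hy
    exact absurd h this.ne
  rw [h1, one_mul] at h
  exact ⟨h1, h⟩

/-- exactly one large multiplier -/
theorem T2 (hr : a * b * c = a + b + c - 2) (ha : v a ≤ 1) (hb : v b ≤ 1) (hc : 1 < v c) :
    v a = 1 ∧ v b = 1 := by
  have e : v (a + b + c - 2) = v c := by
    have : a + b + c - 2 = (a + b + -2) + c := by ring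
    rw [this]
    apply Valuation.map_add_eq_of_lt_right
    refine lt_of_le_of_lt ?_ hc
    exact v.map_add_le (v.map_add_le ha hb) (by rw [Valuation.map_neg]; exact v_two_le v)
  have e2 := congrArg v hr
  rw [e, map_mul, map_mul] at e2
  have hvc : v c ≠ 0 := (zero_lt_one.trans hc).ne'
  have : v a * v b = 1 := by
    apply mul_right_cancel₀ hvc
    rw [e2, one_mul]
  exact prod_eq_one_le ha hb this

/-- two large multipliers -/
theorem T3 (hr : a * b * c = a + b + c - 2) (ha : 1 < v a) (hb : 1 < v b) :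
    v c * (v a * v b) ≤ max (v a) (v b) ∧ v c < 1 := by
  have hvb : v b ≠ 0 := (zero_lt_one.trans hb).ne'
  have hva : v a ≠ 0 := (zero_lt_one.trans ha).ne'
  have hab1 : 1 < v (a * b) := by
    rw [map_mul]; exact ha.trans_le (le_mul_of_one_le_right' hb.le)
  have e : v (a * b - 1) = v a * v b := by
    rw [← map_mul]
    exact Valuation.map_sub_eq_of_lt_left v (by rwa [map_one])
  have e2 : c * (a * b - 1) = a + b + -2 := by linear_combination hr
  have e3 := congrArg v e2
  rw [map_mul, e] at e3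
  have e4 : v (a + b + -2) ≤ max (v a) (v b) := by
    refine v.map_add_le (v.map_add_le (le_max_left _ _) (le_max_right _ _)) ?_
    rw [Valuation.map_neg]
    exact (v_two_le v).trans (ha.le.trans (le_max_left _ _))
  rw [← e3] at e4
  refine ⟨e4, ?_⟩
  have h5 : max (v a) (v b) < v a * v b := by
    apply max_lt
    · rw [mul_comm]; exact le_mul_of_one_lt' hb hva
    · exact le_mul_of_one_lt' ha hvb
  have h6 : v c * (v a * v b) < 1 * (v a * v b) := by rw [one_mul]; exact e4.trans_lt h5
  exact lt_of_mul_lt_mul_right' h6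

theorem ne_one_of_large (ha : 1 < v a) (hb : 1 < v b) : a * b ≠ 1 := by
  intro h
  have := congrArg v h
  rw [map_mul, map_one] at this
  have h2 : 1 < v a * v b := ha.trans_le (le_mul_of_one_le_right' hb.le)
  exact absurd this h2.ne'

theorem ne_one_of_lt {x : K} (h : v x < 1) : x ≠ 1 := by
  rintro rfl
  rw [map_one] at h
  exact lt_irrefl _ h

/-- if no two are large and the sum is integral then all are integral -/
theorem G1 (hr : a * b * c = a + b + c - 2) (hab : ¬ (1 < v a ∧ 1 < v b))
    (hac : ¬ (1 < v a ∧ 1 < v c)) (hbc : ¬ (1 < v b ∧ 1 < v c)) (hs : v (a + b + c) ≤ 1) :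
    v a ≤ 1 ∧ v b ≤ 1 ∧ v c ≤ 1 := by
  have key : ∀ a b c : K, a * b * c = a + b + c - 2 → v a ≤ 1 → v b ≤ 1 → v (a + b + c) ≤ 1 →
      v c ≤ 1 := by
    intro a b c hr ha hb hs
    by_contra hc
    rw [not_le] at hc
    have : v (a + b + c) = v c := by
      apply Valuation.map_add_eq_of_lt_right
      exact lt_of_le_of_lt (v.map_add_le ha hb) hc
    rw [this] at hs
    exact absurd hc (not_lt.2 hs)
  by_cases ha : v a ≤ 1
  · by_cases hb : v b ≤ 1
    · exact ⟨ha, hb, key a b c hr ha hb hs⟩
    · have hc : v c ≤ 1 := by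
        by_contra h; exact hbc ⟨not_le.1 hb, not_le.1 h⟩
      exact absurd (key a c b (by linear_combination hr) ha hc
        (by rwa [show a + c + b = a + b + c by ring])) hb
  · have hb : v b ≤ 1 := by by_contra h; exact hab ⟨not_le.1 ha, not_le.1 h⟩
    have hc : v c ≤ 1 := by by_contra h; exact hac ⟨not_le.1 ha, not_le.1 h⟩
    exact absurd (key c b a (by linear_combination hr) hc hb
        (by rwa [show c + b + a = a + b + c by ring])) ha

/-- a pair with good reduction -/
theorem good_pair (ha : v a ≤ 1) (hb : v b ≤ 1) (hc : v c ≤ 1)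
    (hs : v ((a + b + c) ^ 2 - 9) = 1) :
    v (1 - a * b) = 1 ∨ v (1 - a * c) = 1 ∨ v (1 - b * c) = 1 := by
  by_contra hcon
  push Not at hcon
  have lt : ∀ x y : K, v x ≤ 1 → v y ≤ 1 → v (1 - x * y) ≠ 1 → v (1 - x * y) < 1 := by
    intro x y hx hy h
    refine lt_of_le_of_ne (v.map_sub_le (by rw [map_one]) ?_) h
    rw [map_mul]; exact mul_le_one' hx hy
  have h1 := lt a b ha hb hcon.1
  have h2 := lt a c ha hc hcon.2.1
  have h3 := lt b c hb hc hcon.2.2
  have d1 : v (b - a) < 1 := by
    have : b - a = b * (1 - a * c) + -(a * (1 - b * c)) := by ring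
    rw [this]
    apply Valuation.map_add_lt v
    · rw [map_mul]; exact lt1_of_le_of_lt hb h2
    · rw [Valuation.map_neg, map_mul]; exact lt1_of_le_of_lt ha h3
  have d2 : v (c - a) < 1 := by
    have : c - a = c * (1 - a * b) + -(a * (1 - b * c)) := by ring
    rw [this]
    apply Valuation.map_add_lt v
    · rw [map_mul]; exact lt1_of_le_of_lt hc h1
    · rw [Valuation.map_neg, map_mul]; exact lt1_of_le_of_lt ha h3
  have e : (a + b + c) ^ 2 - 9 = ((b - a) + (c - a)) * (a + b + c + 3 * a)
      + 9 * (a * -(b - a) + -(1 - a * b)) := by ring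
  have : v ((a + b + c) ^ 2 - 9) < 1 := by
    rw [e]
    apply Valuation.map_add_lt v
    · rw [map_mul]
      apply lt1_of_lt_of_le (Valuation.map_add_lt v d1 d2)
      refine v.map_add_le (v.map_add_le (v.map_add_le ha hb) hc) ?_
      rw [map_mul]; exact mul_le_one' (v_ofNat_le v 3) ha
    · rw [map_mul]
      apply lt1_of_le_of_lt (v_ofNat_le v 9)
      apply Valuation.map_add_lt v
      · rw [map_mul, Valuation.map_neg]; exact lt1_of_le_of_lt ha d1
      · rw [Valuation.map_neg]; exact h1
  exact absurd hs this.ne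

end

/-! ### elements of algebraically closed fields -/

section

variable {F K : Type*} [Field F] [Field K] [Algebra F K] [IsAlgClosed F]

theorem transc_of_notMem {t : K} (ht : t ∉ Set.range (algebraMap F K)) : Transcendental F t := by
  intro h
  apply ht
  have h1 : IsIntegral F t := h.isIntegral
  have h2 := IsAlgClosed.degree_eq_one_of_irreducible F (minpoly.irreducible h1)
  exact minpoly.mem_range_of_degree_eq_one F t h2

theorem mem_of_root {t : K} (p : Polynomial F) (hp : p ≠ 0) (h : Polynomial.aeval t p = 0) :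
    t ∈ Set.range (algebraMap F K) := by
  by_contra hc
  exact transc_of_notMem hc ⟨p, hp, h⟩

theorem exists_c (O : ValuationSubring F) : ∃ c : F, O.valuation c = 1 ∧
    O.valuation (c - 2) = 1 ∧ O.valuation (c ^ 2 - 9) = 1 := by
  obtain ⟨c, hc⟩ : ∃ c : F, c * (c - 2) * (c ^ 2 - 9) = 1 := by
    let p : Polynomial F := Polynomial.X * (Polynomial.X - 2) * (Polynomial.X ^ 2 - 9) - 1
    have hp : p.degree ≠ 0 := by
      have : p.degree = 4 := by
        simp only [p]
        have e : (Polynomial.X * (Polynomial.X - 2) * (Polynomial.X ^ 2 - 9) - 1 : Polynomial F)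
          = Polynomial.X ^ 4 - 2 * Polynomial.X ^ 3 - 9 * Polynomial.X ^ 2
            + 18 * Polynomial.X - 1 := by ring
        rw [e]
        compute_degree!
      rw [this]; decide
    obtain ⟨c, hc⟩ := IsAlgClosed.exists_root p hp
    refine ⟨c, ?_⟩
    have : p.eval c = c * (c - 2) * (c ^ 2 - 9) - 1 := by
      simp only [p, Polynomial.eval_sub, Polynomial.eval_mul, Polynomial.eval_X,
        Polynomial.eval_pow, Polynomial.eval_ofNat, Polynomial.eval_one]
    rw [Polynomial.IsRoot, this] at hc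
    exact sub_eq_zero.1 hc
  set w := O.valuation with hw
  have e := congrArg w hc
  rw [map_mul, map_mul, map_one] at e
  have h2 : w 2 ≤ 1 := v_two_le w
  have h9 : w 9 ≤ 1 := v_ofNat_le w 9
  have hc1 : w c ≤ 1 := by
    by_contra hcon
    rw [not_le] at hcon
    have e1 : w (c - 2) = w c := Valuation.map_sub_eq_of_lt_left w (h2.trans_lt hcon)
    have h3 : 1 < w c ^ 2 := by
      rw [sq]; exact hcon.trans_le (le_mul_of_one_le_right' hcon.le)
    have e2 : w (c ^ 2 - 9) = w c ^ 2 := by
      rw [← map_pow]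
      exact Valuation.map_sub_eq_of_lt_left w (h9.trans_lt (by rwa [map_pow]))
    rw [e1, e2] at e
    have : 1 < w c * w c * w c ^ 2 := by
      rw [← sq]
      exact h3.trans_le (le_mul_of_one_le_right' h3.le)
    exact absurd e this.ne'
  have hc2 : w (c - 2) ≤ 1 := w.map_sub_le hc1 h2
  have hc9 : w (c ^ 2 - 9) ≤ 1 := w.map_sub_le (by rw [map_pow]; exact pow_le_one' hc1 2) h9
  obtain ⟨h4, h5⟩ := prod_eq_one_le (mul_le_one' hc1 hc2) hc9 e
  obtain ⟨h6, h7⟩ := prod_eq_one_le hc1 hc2 h4
  exact ⟨c, h6, h7, h5⟩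

/-- A valuation of `K`, extending `O`, at which `s` is a generic enough unit. -/
theorem exists_generic (O : ValuationSubring F) {s : K} (hs : s ∉ Set.range (algebraMap F K)) :
    ∃ B : ValuationSubring K, Ext O B.valuation ∧ B.valuation s = 1 ∧
      B.valuation (s - 2) = 1 ∧ B.valuation (s ^ 2 - 9) = 1 := by
  obtain ⟨c, h1, h2, h3⟩ := exists_c O
  have ht : s - algebraMap F K c ∉ Set.range (algebraMap F K) := by
    rintro ⟨x, hx⟩
    exact hs ⟨x + c, by rw [map_add, hx]; ring⟩
  obtain ⟨B, hB, hBt⟩ := exists_ext O (transc_of_notMem ht)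
  have hE : Ext O B.valuation := hB
  refine ⟨B, hE, ?_, ?_, ?_⟩
  · have e : B.valuation (algebraMap F K c) = 1 := (hE.eq_one_iff c).2 h1
    have : s = algebraMap F K c + (s - algebraMap F K c) := by ring
    rw [this, Valuation.map_add_eq_of_lt_left _ (by rwa [e]), e]
  · have e : B.valuation (algebraMap F K (c - 2)) = 1 := (hE.eq_one_iff _).2 h2
    have : s - 2 = algebraMap F K (c - 2) + (s - algebraMap F K c) := by
      rw [map_sub, map_ofNat]; ring
    rw [this, Valuation.map_add_eq_of_lt_left _ (by rwa [e]), e]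
  · have e : B.valuation (algebraMap F K (c ^ 2 - 9)) = 1 := (hE.eq_one_iff _).2 h3
    have : s ^ 2 - 9 = algebraMap F K (c ^ 2 - 9)
        + (s - algebraMap F K c) * (s - algebraMap F K c + 2 * algebraMap F K c) := by
      rw [map_sub, map_ofNat, map_pow]; ring
    rw [this, Valuation.map_add_eq_of_lt_left, e]
    rw [e, map_mul]
    apply lt1_of_lt_of_le hBt
    refine B.valuation.map_add_le hBt.le ?_
    rw [map_mul, (hE.eq_one_iff c).2 h1, mul_one]
    exact v_two_le _

theorem exists_close (O : ValuationSubring F) {t : K} (ht : t ∉ Set.range (algebraMap F K)) :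
    ∃ B : ValuationSubring K, Ext O B.valuation ∧ B.valuation t < 1 := by
  obtain ⟨B, hB, hBt⟩ := exists_ext O (transc_of_notMem ht)
  exact ⟨B, hB, hBt⟩

end

end Pool.Agent.helper56.Per
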