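import Mathlib

/-!
# Quadratic rational maps, their moduli space and cycles with given multiplier
-/

namespace Pool.Agent.helper56.Per

/-- A quadratic rational map `z ↦ (a₀ z² + a₁ z + a₂) / (b₀ z² + b₁ z + b₂)` over `ℂ`, given by its
coefficients.  The displayed quantity is the resultant of numerator and denominator: it is nonzero
iff the quotient has degree exactly two. -/
structure QMap where
  a0 : ℂ
  a1 : ℂ
  a2 : ℂ
  b0 : ℂ
  b1 : ℂ
  b2 : ℂ
  res_ne : (a0 * b2 - a2 * b0) ^ 2 - (a0 * b1 - a1 * b0) * (a1 * b2 - a2 * b1) ≠ 0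

namespace QMap

/-- numerator in affine coordinates -/
def num (f : QMap) (z : ℂ) : ℂ := f.a0 * z ^ 2 + f.a1 * z + f.a2

/-- denominator in affine coordinates -/
def den (f : QMap) (z : ℂ) : ℂ := f.b0 * z ^ 2 + f.b1 * z + f.b2

/-- the map in affine coordinates (only used at points where `den` does not vanish) -/
noncomputable def toFun (f : QMap) (z : ℂ) : ℂ := f.num z / f.den z

/-- numerator in homogeneous coordinates `(x : y)` on `ℙ¹(ℂ)` -/
def X (f : QMap) (x y : ℂ) : ℂ := f.a0 * x ^ 2 + f.a1 * x * y + f.a2 * y ^ 2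

/-- denominator in homogeneous coordinates `(x : y)` on `ℙ¹(ℂ)` -/
def Y (f : QMap) (x y : ℂ) : ℂ := f.b0 * x ^ 2 + f.b1 * x * y + f.b2 * y ^ 2

/-- `f` and `g` are conjugate by a Möbius transformation: there is an invertible matrix
`M = (p q; r t)` with `f ∘ M = M ∘ g` on `ℙ¹(ℂ)`, i.e. `f (M v) = s • M (g v)` for homogeneous
coordinates, with a nonzero scalar `s`. -/
def Conj (f g : QMap) : Prop :=
  ∃ p q r t s : ℂ, p * t - q * r ≠ 0 ∧ s ≠ 0 ∧ ∀ x y : ℂ,
    f.X (p * x + q * y) (r * x + t * y) = s * (p * g.X x y + q * g.Y x y) ∧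
    f.Y (p * x + q * y) (r * x + t * y) = s * (r * g.X x y + t * g.Y x y)

end QMap

/-- The moduli space `𝓜₂` of quadratic rational maps modulo conjugation by Möbius
transformations (as a set). -/
def M2 : Type := Quot QMap.Conj

/-- `z ∈ ℂ` is a periodic point of exact period `n` of `f`, whose (finite) orbit avoids `∞`, and
the multiplier `(fⁿ)'(z)` of its cycle is `lam`. -/
def IsPer (f : QMap) (n : ℕ) (lam : ℂ) (z : ℂ) : Prop :=
  0 < n ∧ (∀ i : ℕ, f.den (f.toFun^[i] z) ≠ 0) ∧ Function.minimalPeriod f.toFun z = n ∧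
    deriv (f.toFun^[n]) z = lam

/-- The set of all points of `𝓜₂` (conjugacy classes of quadratic rational maps) having a cycle
of exact period `n` with multiplier `lam`, and another cycle, of exact period `m`, with
multiplier `lam'`.  (We may choose the representative `f` such that both cycles avoid `∞`.)
When `(n, lam) ≠ (m, lam')` the two cycles are automatically different, and this set is the
intersection of the sets whose closures are `Per*_n(lam)` and `Per*_m(lam')`. -/
def common (n m : ℕ) (lam lam' : ℂ) : Set M2 :=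
  {c | ∃ (f : QMap) (z y : ℂ), Quot.mk _ f = c ∧ IsPer f n lam z ∧ IsPer f m lam' y ∧
    ∀ i : ℕ, f.toFun^[i] z ≠ y}

end Pool.Agent.helper56.Per
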