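import Pool.Agent.helper56.Per.Transport

/-!
# The generic point
-/

namespace Pool.Agent.helper56.Per

open Finset Filter

/-- The field of germs. -/
abbrev KK : Type := Germ ((hyperfilter ℕ : Ultrafilter ℕ) : Filter ℕ) ℂ

noncomputable instance : Field KK := inferInstance

/-- the class of a sequence -/
noncomputable def cls : (ℕ → ℂ) →+* KK := Germ.coeRingHom _

/-- constants -/
noncomputable def cst : ℂ →+* KK := cls.comp (Pi.constRingHom ℕ ℂ)

theorem cls_const (x : ℂ) : cls (fun _ => x) = cst x := rfl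

theorem cls_ne_zero {x : ℕ → ℂ} (h : ∀ j, x j ≠ 0) : cls x ≠ 0 := by
  intro h0
  have e : x * (fun j => (x j)⁻¹) = 1 := by
    funext j
    simp [h j]
  have := congrArg cls e
  rw [map_mul, map_one, h0, zero_mul] at this
  exact zero_ne_one this

theorem cls_ne {x y : ℕ → ℂ} (h : ∀ j, x j ≠ y j) : cls x ≠ cls y := by
  intro h0
  apply cls_ne_zero (x := x - y) (fun j => sub_ne_zero.2 (h j))
  rw [map_sub, h0, sub_self]

theorem NCyc.cls {a b : ℕ → ℂ} {n : ℕ} {lam : ℂ} {z : ℕ → ℕ → ℂ}
    (h : ∀ j, NCyc (a j) (b j) n lam (z j)) :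
    NCyc (cls a) (cls b) n (cst lam) (fun i => cls (fun j => z j i)) := by
  refine ⟨(h 0).npos, fun i => cls_ne_zero fun j => (h j).ne0 i, fun i => ?_, fun i => ?_,
    fun i => ?_, fun i => cls_ne fun j => (h j).ne i, ?_⟩
  · have : Per.cls b * Per.cls (fun j => z j i) + 1 = Per.cls (fun j => b j * z j i + 1) := by
      rw [← map_mul, ← map_one Per.cls, ← map_add]; rfl
    rw [this]
    exact cls_ne_zero fun j => (h j).den i
  · have e : (fun j => z j (i + 1)) * (b * (fun j => z j i) + 1)
        = (fun j => z j i) * ((fun j => z j i) + a) := by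
      funext j
      exact (h j).step i
    have := congrArg Per.cls e
    simpa only [map_mul, map_add, map_one] using this
  · have : (fun j => z j (i + n)) = fun j => z j i := funext fun j => (h j).per i

    rw [this]
  · have e : ∏ i ∈ range n, (b * (fun j => z j i) ^ 2 + 2 * (fun j => z j i) + a)
        = (fun _ => lam) * ∏ i ∈ range n, (b * (fun j => z j i) + 1) ^ 2 := by
      funext j
      rw [Finset.prod_apply, Pi.mul_apply, Finset.prod_apply]
      exact (h j).mul
    have := congrArg Per.cls e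
    rw [map_mul, map_prod, map_prod, cls_const] at this
    simpa only [map_mul, map_add, map_one, map_pow, map_ofNat] using this

theorem not_both_const {a b : ℕ → ℂ} (hinj : Function.Injective fun j => (a j, b j)) :
    ¬ (∃ α β, cls a = cst α ∧ cls b = cst β) := by
  rintro ⟨α, β, h1, h2⟩
  have h1' : a =ᶠ[((hyperfilter ℕ : Ultrafilter ℕ) : Filter ℕ)] fun _ => α := Germ.coe_eq.1 h1
  have h2' : b =ᶠ[((hyperfilter ℕ : Ultrafilter ℕ) : Filter ℕ)] fun _ => β := Germ.coe_eq.1 h2
  have h3 : {j | (a j, b j) = (α, β)} ∈ ((hyperfilter ℕ : Ultrafilter ℕ) : Filter ℕ) := by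
    filter_upwards [h1', h2'] with j hj1 hj2
    simp [hj1, hj2]
  have h4 : {j | (a j, b j) = (α, β)}.Finite := by
    apply Set.Subsingleton.finite
    intro i hi j hj
    exact hinj (hi.trans hj.symm)
  exact (notMem_hyperfilter_of_finite h4) h3

end Pool.Agent.helper56.Per
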