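import Pool.Agent.helper56.Per.Basic

/-!
# Lemma H: both fixed points `0`, `∞` have large multipliers
-/

namespace Pool.Agent.helper56.Per

open Finset

variable {K : Type*} [Field K]
variable {Γ : Type*} [LinearOrderedCommGroupWithZero Γ] (v : Valuation K Γ)

section
variable {a b : K} {n : ℕ} {lam : K} {z : ℕ → K} (ha : 1 < v a) (hb : 1 < v b)
  (h : NCyc a b n lam z)
include ha hb h

theorem H_large (i : ℕ) (hi : v a ≤ v (z i)) :
    v (b * z i + 1) = v b * v (z i) ∧ v (b * z i ^ 2 + 2 * z i + a) = v b * v (z i) ^ 2 ∧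
    v (z (i + 1)) * v b = v (z i + a) := by
  have hvz : v (z i) ≠ 0 := (v.ne_zero_iff).2 (h.ne0 i)
  have hvb : v b ≠ 0 := (zero_lt_one.trans hb).ne'
  have h1 : v (z i) < v b * v (z i) := le_mul_of_one_lt' hb hvz
  have hz1 : 1 < v (z i) := ha.trans_le hi
  have e2 : v (b * z i + 1) = v b * v (z i) := by
    rw [← map_mul]
    apply Valuation.map_add_eq_of_lt_left
    rw [map_one, map_mul]
    exact hz1.trans h1
  have h2 : v (z i) < v b * v (z i) ^ 2 := by
    calc v (z i) < v b * v (z i) := h1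
      _ < v (z i) * (v b * v (z i)) := le_mul_of_one_lt' hz1 (mul_ne_zero hvb hvz)
      _ = v b * v (z i) ^ 2 := by rw [sq]; simp only [mul_comm, mul_left_comm]
  refine ⟨e2, ?_, ?_⟩
  · have e3 : v (b * z i ^ 2) = v b * v (z i) ^ 2 := by rw [map_mul, map_pow]
    have e4 : v (b * z i ^ 2 + 2 * z i) = v b * v (z i) ^ 2 := by
      rw [← e3]
      apply Valuation.map_add_eq_of_lt_left
      rw [e3]
      exact (v_two_mul_le v _).trans_lt h2
    rw [← e4]
    apply Valuation.map_add_eq_of_lt_left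
    rw [e4]
    exact hi.trans_lt h2
  · have e3 := congrArg v (h.step i)
    rw [map_mul, map_mul, e2] at e3
    have : v (z i) * (v (z (i + 1)) * v b) = v (z i) * v (z i + a) := by
      rw [← e3]; simp only [mul_comm, mul_left_comm]
    exact mul_left_cancel₀ hvz this

theorem H_small (i : ℕ) (hi : v b * v (z i) ≤ 1) :
    v (b * z i ^ 2 + 2 * z i + a) = v a ∧ v (z (i + 1)) * v (b * z i + 1) = v (z i) * v a := by
  have hvz : v (z i) ≠ 0 := (v.ne_zero_iff).2 (h.ne0 i)
  have h1 : v (z i) < v b * v (z i) := le_mul_of_one_lt' hb hvz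
  have hz1 : v (z i) < 1 := h1.trans_le hi
  have hza : v (z i) < v a := hz1.trans ha
  refine ⟨?_, ?_⟩
  · apply Valuation.map_add_eq_of_lt_right
    apply Valuation.map_add_lt
    · rw [map_mul, map_pow, sq, ← mul_assoc]
      calc v b * v (z i) * v (z i) ≤ v (z i) := mul_le_of_le_one_left' hi
        _ < v a := hza
    · exact (v_two_mul_le v _).trans_lt hza
  · have e3 := congrArg v (h.step i)
    rw [map_mul, map_mul] at e3
    rw [e3, Valuation.map_add_eq_of_lt_right v hza]

/-- the weight -/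
noncomputable def th (v : Valuation K Γ) (a b x : K) : Γ :=
  open Classical in if v a ≤ v x then (v x * v b) ^ 2 else v a ^ 2

/-- the factor -/
noncomputable def mm (v : Valuation K Γ) (a b x : K) : Γ :=
  open Classical in if v a ≤ v x then v b else v a

theorem H_LL (i : ℕ) (hi : v a ≤ v (z i)) (hi' : v a ≤ v (z (i + 1))) :
    v (z (i + 1)) * v b = v (z i) := by
  obtain ⟨_, _, e⟩ := H_large v ha hb h i hi
  have hva : v a ≠ 0 := (zero_lt_one.trans ha).ne'
  have hvb : v b ≠ 0 := (zero_lt_one.trans hb).ne'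
  rw [e]
  have h1 : v a < v (z i + a) := by
    rw [← e]
    calc v a < v b * v a := le_mul_of_one_lt' hb hva
      _ ≤ v b * v (z (i + 1)) := mul_le_mul_right hi' _
      _ = v (z (i + 1)) * v b := mul_comm _ _
  have h2 : v a < v (z i) := by
    by_contra hc
    have h3 : v (z i + a) ≤ max (v (z i)) (v a) := v.map_add _ _
    rw [max_eq_right (not_lt.1 hc)] at h3
    exact absurd h1 (not_lt.2 h3)
  exact Valuation.map_add_eq_of_lt_left v h2

theorem H_LS (i : ℕ) (hi : v a ≤ v (z i)) (hi' : v b * v (z (i + 1)) ≤ 1) :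
    v (z i) = v a := by
  obtain ⟨_, _, e⟩ := H_large v ha hb h i hi
  by_contra hc
  have h2 : v a < v (z i) := lt_of_le_of_ne hi (Ne.symm hc)
  rw [Valuation.map_add_eq_of_lt_left v h2, mul_comm] at e
  rw [e] at hi'
  exact absurd (ha.trans h2) (not_lt.2 hi')

omit ha hb h in
theorem H_den_le (i : ℕ) (hi : v b * v (z i) ≤ 1) : v (b * z i + 1) ≤ 1 := by
  refine (v.map_add _ _).trans ?_
  rw [map_one, map_mul, max_eq_right hi]

omit ha hb h in
theorem H_den_one (i : ℕ) (hi : v b * v (z i) < 1) : v (b * z i + 1) = 1 := by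
  rw [← v.map_one]
  apply Valuation.map_add_eq_of_lt_right
  rw [map_one, map_mul]
  exact hi

theorem H_SS (i : ℕ) (hi : v b * v (z i) ≤ 1) (hi' : v b * v (z (i + 1)) ≤ 1) :
    v (b * z i + 1) = 1 := by
  obtain ⟨_, e⟩ := H_small v ha hb h i hi
  have hd := H_den_le v i hi
  rcases lt_or_eq_of_le hi with h1 | h1
  · exact H_den_one v i h1
  · exfalso
    have h2 : v b * v (z (i + 1)) * v (b * z i + 1) = v a := by
      rw [mul_assoc, e, ← mul_assoc, h1, one_mul]
    have h3 : v a ≤ 1 := by
      rw [← h2]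
      exact mul_le_one' hi' hd
    exact absurd ha (not_lt.2 h3)

theorem H_SL (i : ℕ) (hi : v b * v (z i) ≤ 1) (hi' : v a ≤ v (z (i + 1))) :
    v b * v (z i) = 1 := by
  obtain ⟨_, e⟩ := H_small v ha hb h i hi
  rcases lt_or_eq_of_le hi with h1 | h1
  · exfalso
    rw [H_den_one v i h1, mul_one] at e
    have hvz : v (z i) ≠ 0 := (v.ne_zero_iff).2 (h.ne0 i)
    have hz1 : v (z i) < 1 := (le_mul_of_one_lt' hb hvz).trans h1
    have hva : v a ≠ 0 := (zero_lt_one.trans ha).ne'
    have : v (z i) * v a < 1 * v a := mul_lt_mul_of_pos_right hz1 (zero_lt_iff.2 hva)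
    rw [one_mul, ← e] at this
    exact absurd this (not_lt.2 hi')
  · exact h1

theorem H_step (i : ℕ) :
    v (b * z i ^ 2 + 2 * z i + a) * th v a b (z i)
      = mm v a b (z i) * th v a b (z (i + 1)) * v ((b * z i + 1) ^ 2) := by
  have hva : v a ≠ 0 := (zero_lt_one.trans ha).ne'
  have hvb : v b ≠ 0 := (zero_lt_one.trans hb).ne'
  have hL : ∀ j, v a ≤ v (z j) → ¬ (v b * v (z j) ≤ 1) := by
    intro j hj hj'
    have : v (z j) < v b * v (z j) := le_mul_of_one_lt' hb ((v.ne_zero_iff).2 (h.ne0 j))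
    exact absurd (ha.trans_le (hj.trans (this.le.trans hj'))) (lt_irrefl _)
  rw [map_pow]
  by_cases hi : v a ≤ v (z i)
  · obtain ⟨e1, e2, e3⟩ := H_large v ha hb h i hi
    rw [e1, e2]
    unfold th mm
    rw [if_pos hi, if_pos hi]
    by_cases hi' : v a ≤ v (z (i + 1))
    · rw [if_pos hi', H_LL v ha hb h i hi hi']
      simp only [mul_pow, mul_comm, mul_left_comm]
    · rw [if_neg hi']
      have hS := (region v ha hb h (i + 1)).resolve_right hi'
      rw [H_LS v ha hb h i hi hS]
      simp only [mul_pow, mul_comm, mul_left_comm]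
  · have hS := (region v ha hb h i).resolve_right hi
    obtain ⟨e1, e2⟩ := H_small v ha hb h i hS
    rw [e1]
    unfold th mm
    rw [if_neg hi, if_neg hi]
    by_cases hi' : v a ≤ v (z (i + 1))
    · rw [if_pos hi']
      have e3 := H_SL v ha hb h i hS hi'
      have e4 : v (z (i + 1)) * v b * v (b * z i + 1) = v a := by
        calc v (z (i + 1)) * v b * v (b * z i + 1)
            = v b * (v (z (i + 1)) * v (b * z i + 1)) := by
              simp only [mul_comm, mul_left_comm]
          _ = v a := by rw [e2, ← mul_assoc, e3, one_mul]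
      rw [mul_assoc, ← mul_pow, e4]
    · rw [if_neg hi']
      have hS' := (region v ha hb h (i + 1)).resolve_right hi'
      rw [H_SS v ha hb h i hS hS', one_pow, mul_one]

/-- **Lemma H.** -/
theorem lemH : ∃ s t : ℕ, 0 < s ∧ 0 < t ∧ s + t = n ∧ v lam = v a ^ s * v b ^ t := by
  classical
  have hva : v a ≠ 0 := (zero_lt_one.trans ha).ne'
  have hvb : v b ≠ 0 := (zero_lt_one.trans hb).ne'
  have hprod : v lam = ∏ i ∈ range n, mm v a b (z i) := by
    have e1 : (∏ i ∈ range n, v (b * z i ^ 2 + 2 * z i + a)) * ∏ i ∈ range n, th v a b (z i)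
        = (∏ i ∈ range n, mm v a b (z i)) * (∏ i ∈ range n, th v a b (z (i + 1)))
          * ∏ i ∈ range n, v ((b * z i + 1) ^ 2) := by
      rw [← prod_mul_distrib, ← prod_mul_distrib, ← prod_mul_distrib]
      exact prod_congr rfl fun i _ => H_step v ha hb h i
    have e2 : ∏ i ∈ range n, th v a b (z (i + 1)) = ∏ i ∈ range n, th v a b (z i) := by
      apply prod_shift (fun i => th v a b (z i))
      have := h.per 0
      rw [zero_add] at this
      simp only [this]
    have e3 := congrArg v h.mul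
    rw [map_mul, map_prod, map_prod] at e3
    rw [e3, e2] at e1
    have hth : ∏ i ∈ range n, th v a b (z i) ≠ 0 := by
      apply prod_ne_zero_iff.2
      intro i _
      unfold th
      split_ifs
      · exact pow_ne_zero _ (mul_ne_zero ((v.ne_zero_iff).2 (h.ne0 i)) hvb)
      · exact pow_ne_zero _ hva
    have hden : ∏ i ∈ range n, v ((b * z i + 1) ^ 2) ≠ 0 := by
      apply prod_ne_zero_iff.2
      intro i _
      exact (v.ne_zero_iff).2 (pow_ne_zero _ (h.den i))
    have e4 : v lam * ((∏ i ∈ range n, v ((b * z i + 1) ^ 2)) * ∏ i ∈ range n, th v a b (z i))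
        = (∏ i ∈ range n, mm v a b (z i)) *
          ((∏ i ∈ range n, v ((b * z i + 1) ^ 2)) * ∏ i ∈ range n, th v a b (z i)) := by
      rw [← mul_assoc, e1]; simp only [mul_assoc, mul_comm, mul_left_comm]
    exact mul_right_cancel₀ (mul_ne_zero hden hth) e4
  have hprod2 : ∏ i ∈ range n, mm v a b (z i)
      = v a ^ (#{i ∈ range n | ¬ v a ≤ v (z i)}) * v b ^ (#{i ∈ range n | v a ≤ v (z i)}) := by
    unfold mm
    rw [prod_ite, prod_const, prod_const, mul_comm]
  refine ⟨#{i ∈ range n | ¬ v a ≤ v (z i)}, #{i ∈ range n | v a ≤ v (z i)}, ?_, ?_, ?_, ?_⟩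
  · rw [Finset.card_pos]
    by_contra hc
    rw [not_nonempty_iff_eq_empty, filter_eq_empty_iff] at hc
    push Not at hc
    have hall : ∀ i, v a ≤ v (z i) := h.forall_of (P := fun x => v a ≤ v x) (fun i hi => hc hi)
    apply no_desc (fun i => v (z i)) n h.npos (fun i => by simp only [h.per])
    intro i
    have e := H_LL v ha hb h i (hall i) (hall (i + 1))
    show v (z (i + 1)) < v (z i)
    rw [← e, mul_comm]
    exact le_mul_of_one_lt' hb ((v.ne_zero_iff).2 (h.ne0 _))
  · rw [Finset.card_pos]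
    by_contra hc
    rw [not_nonempty_iff_eq_empty, filter_eq_empty_iff] at hc
    have hall : ∀ i, ¬ v a ≤ v (z i) := h.forall_of (P := fun x => ¬ v a ≤ v x) (fun i hi => hc hi)
    have hall' : ∀ i, v b * v (z i) ≤ 1 := fun i => (region v ha hb h i).resolve_right (hall i)
    apply no_asc (fun i => v (z i)) n h.npos (fun i => by simp only [h.per])
    intro i
    have e := (H_small v ha hb h i (hall' i)).2
    rw [H_SS v ha hb h i (hall' i) (hall' (i + 1)), mul_one] at e
    show v (z i) < v (z (i + 1))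
    rw [e, mul_comm]
    exact le_mul_of_one_lt' ha ((v.ne_zero_iff).2 (h.ne0 _))
  · have := card_filter_add_card_filter_not (s := range n) (fun i => v a ≤ v (z i))
    rw [card_range] at this
    omega
  · rw [hprod, hprod2]

end

end Pool.Agent.helper56.Per
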