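import Pool.Agent.helper56.Per.Two

/-!
# One fixed point with constant multiplier and one cycle of period at least two
-/

namespace Pool.Agent.helper56.Per

open Finset

/-- one cycle -/
def Q1 {K : Type*} [Field K] (m : ℕ) (L' : K) (a b : K) : Prop :=
  ∃ y : ℕ → K, NCyc a b m L' y

theorem Q1.swap {K : Type*} [Field K] {m : ℕ} {L' a b : K} (h : Q1 m L' a b) : Q1 m L' b a := by
  obtain ⟨y, hy⟩ := h
  exact ⟨_, hy.swap⟩

theorem Q1.psi {K : Type*} [Field K] {m : ℕ} {L' a b : K} (hab : a * b ≠ 1) (ha : a ≠ 1)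
    (h : Q1 m L' a b) : Q1 m L' a ((2 - a - b) / (1 - a * b)) := by
  obtain ⟨y, hy⟩ := h
  exact ⟨_, hy.psi hab ha⟩

variable {F K : Type*} [Field F] [Field K] [Algebra F K] [IsAlgClosed F]


section One

variable {m : ℕ} {l l' : F} {b c : K}

omit [IsAlgClosed F] in
theorem Q1_H {O : ValuationSubring F} {B : ValuationSubring K} (hE : Ext O B.valuation)
    (hl : O.valuation l' ≤ 1) (x y : K) (hx : 1 < B.valuation x) (hy : 1 < B.valuation y)
    (h : Q1 m (algebraMap F K l') x y) : False := by
  obtain ⟨z, hz⟩ := h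
  exact absurd ((hE l').2 hl) (not_le.2 (H_gt B.valuation hx hy hz))

theorem one_s (h : TS (Q1 m (algebraMap F K l')) (algebraMap F K l) b c)
    (hne : ¬ (b ∈ Set.range (algebraMap F K) ∧ c ∈ Set.range (algebraMap F K))) : algebraMap F K l + b + c ∉ Set.range (algebraMap F K) :=
  s_notMem h (fun _ hE x y hx hy hQ => Q1_H hE (top_val_le l') x y hx hy hQ)
    (fun hh => hne hh.2)

theorem one_l_ne_zero (h : TS (Q1 m (algebraMap F K l')) (algebraMap F K l) b c) (hs : algebraMap F K l + b + c ∉ Set.range (algebraMap F K)) :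
    l ≠ 0 := by
  rintro rfl
  apply hs
  refine ⟨2, ?_⟩
  have := h.rel
  rw [map_zero] at this ⊢
  rw [map_ofNat]
  linear_combination this

/-- near infinity, the multiplier of the fixed point must be a root of unity -/
theorem one_root (h : TS (Q1 m (algebraMap F K l')) (algebraMap F K l) b c) (hs : algebraMap F K l + b + c ∉ Set.range (algebraMap F K))
    (hm : 0 < m) : ∃ j, 0 < j ∧ j ≤ m ∧ l ^ j = 1 := by
  have hs' : (algebraMap F K l + b + c)⁻¹ ∉ Set.range (algebraMap F K) := by
    rintro ⟨x, hx⟩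
    exact hs ⟨x⁻¹, by rw [map_inv₀, hx, inv_inv]⟩
  obtain ⟨B, hE, hB⟩ := exists_close (⊤ : ValuationSubring F) hs'
  set v := B.valuation with hv
  have hlarge : 1 < v (algebraMap F K l + b + c) := by
    rw [map_inv₀] at hB
    have h0 : v (algebraMap F K l + b + c) ≠ 0 := by
      rw [v.ne_zero_iff]
      intro h0
      exact hs ⟨0, by rw [h0, map_zero]⟩
    rwa [inv_lt_one₀ (zero_lt_iff.2 h0)] at hB
  have hl0 := one_l_ne_zero h hs
  have hl1 : v (algebraMap F K l) = 1 := (hE.eq_one_iff l).2 (top_val_eq hl0)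
  have hconst : ∀ x : F, x ≠ 0 → v (algebraMap F K x) = 1 := fun x hx => (hE.eq_one_iff x).2 (top_val_eq hx)
  have main : ∀ b c : K, TS (Q1 m (algebraMap F K l')) (algebraMap F K l) b c → 1 < v b → ∃ j, 0 < j ∧ j ≤ m ∧ l ^ j = 1 := by
    intro b c h hb
    have hc : v c ≤ 1 := by
      by_contra hc
      rw [not_le] at hc
      have := (T3 v (a := b) (b := c) (c := algebraMap F K l) (by linear_combination h.rel) hb hc).2
      exact absurd hl1 this.ne
    obtain ⟨hc1, _⟩ := T2 v (a := c) (b := algebraMap F K l) (c := b) (by linear_combination h.rel) hc hl1.le hb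
    have hlc : v (1 - algebraMap F K l * c) < 1 := by
      have e : b * (1 - algebraMap F K l * c) = -(algebraMap F K l + c + -2) := by linear_combination (-1 : K) * h.rel
      have e' := congrArg v e
      rw [map_mul, Valuation.map_neg] at e'
      have h1 : v (algebraMap F K l + c + -2) ≤ 1 :=
        v.map_add_le (v.map_add_le hl1.le hc1.le) (by rw [Valuation.map_neg]; exact v_two_le v)
      rw [← e'] at h1
      by_contra hcon
      rw [not_lt] at hcon
      have : 1 < v b * v (1 - algebraMap F K l * c) := hb.trans_le (le_mul_of_one_le_right' hcon)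
      exact absurd h1 (not_le.2 this)
    by_cases hlc1 : algebraMap F K l * c = 1
    · -- then `l = c = 1`
      refine ⟨1, one_pos, hm, ?_⟩
      have e1 : algebraMap F K l + c = 2 := by
        have := h.rel
        linear_combination b * hlc1 - this
      have e2 : (algebraMap F K l - 1) ^ 2 = 0 := by
        have : c = 2 - algebraMap F K l := by linear_combination e1
        rw [this] at hlc1
        linear_combination (-1 : K) * hlc1
      have e3 : algebraMap F K l = 1 := by
        have := pow_eq_zero_iff (two_ne_zero) |>.1 e2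
        exact sub_eq_zero.1 this
      rw [pow_one]
      apply (algebraMap F K).injective
      rw [e3, map_one]
    · by_contra hcon
      push Not at hcon
      obtain ⟨y, hy⟩ := h.ac hlc1
      have := rotation v hl1 hlc (fun j hj hjm => by
        have h1 : l ^ j - 1 ≠ 0 := sub_ne_zero.2 (hcon j hj hjm)
        have h2 := hconst _ h1
        rwa [map_sub, map_pow, map_one] at h2) hy
      exact absurd this (not_lt.2 ((hE l').2 (top_val_le l')))
  by_cases hb : 1 < v b
  · exact main b c h hb
  · by_cases hc : 1 < v c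
    · exact main c b h.p23 hc
    · rw [not_lt] at hb hc
      exact absurd hlarge (not_lt.2 (v.map_add_le (v.map_add_le hl1.le hb) hc))

/-- the multiplier of the fixed point is not one -/
theorem one_ne_one [CharZero F] (h : TS (Q1 m (algebraMap F K l')) (algebraMap F K l) b c)
    (hne : ¬ (b ∈ Set.range (algebraMap F K) ∧ c ∈ Set.range (algebraMap F K))) : l ≠ 1 := by
  rintro rfl
  have hrel := h.rel
  rw [map_one] at hrel
  have hprod : (b - 1) * (c - 1) = 0 := by linear_combination hrel
  have main : ∀ b c : K, TS (Q1 m (algebraMap F K l')) (algebraMap F K 1) b c → c = 1 → b ∈ Set.range (algebraMap F K) := by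
    intro b c h hc
    subst hc
    by_contra hb
    have hb' : b⁻¹ ∉ Set.range (algebraMap F K) := by
      rintro ⟨x, hx⟩
      exact hb ⟨x⁻¹, by rw [map_inv₀, hx, inv_inv]⟩
    obtain ⟨B, hE, hB⟩ := exists_close (⊤ : ValuationSubring F) hb'
    set v := B.valuation with hv
    have hb0 : v b ≠ 0 := by
      rw [v.ne_zero_iff]
      rintro rfl
      exact hb ⟨0, map_zero _⟩
    have hb1 : 1 < v b := by
      rw [map_inv₀] at hB
      rwa [inv_lt_one₀ (zero_lt_iff.2 hb0)] at hB
    obtain ⟨y, hy⟩ := h.bc (by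
      rw [mul_one]
      rintro rfl
      exact hb ⟨1, map_one _⟩)
    have hconst : ∀ j : ℕ, 0 < j → v (j : K) = 1 := by
      intro j hj
      have h1 : (j : F) ≠ 0 := by exact_mod_cast hj.ne'
      have h2 : v (algebraMap F K (j : F)) = 1 := (hE.eq_one_iff _).2 (top_val_eq h1)
      rwa [map_natCast] at h2
    have := translation v hb1 (hconst m hy.npos) (fun j hj _ => hconst j hj) hy
    exact absurd this (not_lt.2 ((hE l').2 (top_val_le l')))
  rcases mul_eq_zero.1 hprod with h1 | h1
  · have hb1 : b = 1 := sub_eq_zero.1 h1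
    exact hne ⟨⟨1, by rw [map_one, hb1]⟩, main c b h.p23 hb1⟩
  · have hc1 : c = 1 := sub_eq_zero.1 h1
    exact hne ⟨main b c h hc1, ⟨1, by rw [map_one, hc1]⟩⟩

/-- the multiplier of the cycle is integral -/
theorem one_int (h : TS (Q1 m (algebraMap F K l')) (algebraMap F K l) b c) (hs : algebraMap F K l + b + c ∉ Set.range (algebraMap F K))
    (O : ValuationSubring F) (hl : O.valuation l = 1) : O.valuation l' ≤ 1 := by
  obtain ⟨B, hE, h1, h2, h3⟩ := exists_generic O hs
  set v := B.valuation with hv
  have hl1 : v (algebraMap F K l) = 1 := (hE.eq_one_iff l).2 hl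
  obtain ⟨ha, hb, hc⟩ := G1 v h.rel
    (fun hh => absurd hl1 hh.1.ne') (fun hh => absurd hl1 hh.1.ne')
    (fun hh => absurd hl1 (T3 v (a := b) (b := c) (c := algebraMap F K l) (by linear_combination h.rel)
      hh.1 hh.2).2.ne) h1.le
  have hne : ∀ x y : K, v (1 - x * y) = 1 → x * y ≠ 1 := by
    intro x y hxy h0
    rw [h0, sub_self, map_zero] at hxy
    exact zero_ne_one hxy
  rw [← hE l']
  rcases good_pair v ha hb hc h3 with hp | hp | hp
  · obtain ⟨y, hy⟩ := h.ab (hne _ _ hp)
    exact good_le_one v hy ha hb hp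
  · obtain ⟨y, hy⟩ := h.ac (hne _ _ hp)
    exact good_le_one v hy ha hc hp
  · obtain ⟨y, hy⟩ := h.bc (hne _ _ hp)
    exact good_le_one v hy hb hc hp

/-- the dyadic congruence -/
theorem one_dyadic (h : TS (Q1 m (algebraMap F K l')) (algebraMap F K l) b c) (hs : algebraMap F K l + b + c ∉ Set.range (algebraMap F K))
    (h20 : (2 : F) ≠ 0) (O : ValuationSubring F) (h2 : O.valuation 2 < 1)
    (hl : O.valuation l = 1) : O.valuation (l' - l ^ m) ≤ O.valuation 2 := by
  have ht : (algebraMap F K l + b + c - 2) / 8 ∉ Set.range (algebraMap F K) := by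
    rintro ⟨x, hx⟩
    apply hs
    refine ⟨x * 8 + 2, ?_⟩
    have h8 : (8 : K) ≠ 0 := by
      have : (8 : K) = algebraMap F K (2 ^ 3) := by rw [map_pow, map_ofNat]; norm_num
      rw [this]
      exact (_root_.map_ne_zero _).2 (pow_ne_zero _ h20)
    rw [map_add, map_mul, hx, map_ofNat, map_ofNat]
    field_simp
    ring
  obtain ⟨B, hE, hB⟩ := exists_close O ht
  set v := B.valuation with hv
  have h2' : v (2 : K) < 1 := by
    have := (hE.lt_one_iff 2).2 h2
    rwa [map_ofNat] at this
  have h20' : v (2 : K) ≠ 0 := by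
    rw [v.ne_zero_iff]
    have : (2 : K) = algebraMap F K 2 := by rw [map_ofNat]
    rw [this]
    exact (_root_.map_ne_zero _).2 h20
  have h8 : v (8 : K) = v 2 * v 2 * v 2 := by
    rw [← map_mul, ← map_mul]; norm_num
  have hl1 : v (algebraMap F K l) = 1 := (hE.eq_one_iff l).2 hl
  have hlt : v b * v c < v 2 * v 2 * v 2 := by
    rw [map_div₀, h8, div_lt_one₀ (by
      rw [zero_lt_iff]; exact mul_ne_zero (mul_ne_zero h20' h20') h20')] at hB
    rwa [← h.rel, map_mul, map_mul, hl1, one_mul] at hB
  have main : ∀ b c : K, TS (Q1 m (algebraMap F K l')) (algebraMap F K l) b c → v c < v 2 →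
      v (algebraMap F K l' - (algebraMap F K l) ^ m) ≤ v 2 := by
    intro b c h hc
    obtain ⟨y, hy⟩ := h.ac (ne_one_of_lt v (by
      rw [map_mul, hl1, one_mul]; exact hc.trans h2'))
    exact lemA v hl1.le (hc.trans h2') hc.le hy
  have hex : v b < v 2 ∨ v c < v 2 := by
    by_contra hcon
    push Not at hcon
    have : v 2 * v 2 * v 2 ≤ v b * v c := by
      calc v 2 * v 2 * v 2 ≤ v 2 * v 2 := mul_le_of_le_one_right' h2'.le
        _ ≤ _ := mul_le_mul' hcon.1 hcon.2
    exact absurd hlt (not_lt.2 this)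
  rw [← hE.le_iff, map_sub, map_pow, map_ofNat]
  rcases hex with hh | hh
  · exact main c b h.p23 hh
  · exact main b c h hh

end One

end Pool.Agent.helper56.Per
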