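import Pool.Agent.helper56.Per.Defs
import Pool.Agent.helper56.Per.One

/-!
# Normal forms of quadratic rational maps
-/

namespace Pool.Agent.helper56.Per

open Finset

namespace QMap

theorem res_zero (f : QMap) {x y : ℂ} (h1 : f.X x y = 0) (h2 : f.Y x y = 0) : x = 0 ∧ y = 0 := by
  have hr := f.res_ne
  unfold X at h1
  unfold Y at h2
  have e1 : x * ((f.a0 * f.b2 - f.a2 * f.b0) * x + (f.a1 * f.b2 - f.a2 * f.b1) * y) = 0 := by
    linear_combination f.b2 * h1 - f.a2 * h2
  have e2 : y * ((f.a0 * f.b1 - f.a1 * f.b0) * x + (f.a0 * f.b2 - f.a2 * f.b0) * y) = 0 := by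
    linear_combination (-f.b0) * h1 + f.a0 * h2
  by_cases hx : x = 0
  · by_cases hy : y = 0
    · exact ⟨hx, hy⟩
    · exfalso
      subst hx
      have h3 : f.a2 = 0 := by
        have : f.a2 * y ^ 2 = 0 := by linear_combination h1
        rcases mul_eq_zero.1 this with h | h
        · exact h
        · exact absurd h (pow_ne_zero _ hy)
      have h4 : f.b2 = 0 := by
        have : f.b2 * y ^ 2 = 0 := by linear_combination h2
        rcases mul_eq_zero.1 this with h | h
        · exact h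
        · exact absurd h (pow_ne_zero _ hy)
      apply hr
      rw [h3, h4]; ring
  · by_cases hy : y = 0
    · exfalso
      subst hy
      have h3 : f.a0 = 0 := by
        have : f.a0 * x ^ 2 = 0 := by linear_combination h1
        rcases mul_eq_zero.1 this with h | h
        · exact h
        · exact absurd h (pow_ne_zero _ hx)
      have h4 : f.b0 = 0 := by
        have : f.b0 * x ^ 2 = 0 := by linear_combination h2
        rcases mul_eq_zero.1 this with h | h
        · exact h
        · exact absurd h (pow_ne_zero _ hx)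
      apply hr
      rw [h3, h4]; ring
    · exfalso
      have e1' := (mul_eq_zero.1 e1).resolve_left hx
      have e2' := (mul_eq_zero.1 e2).resolve_left hy
      have : ((f.a0 * f.b2 - f.a2 * f.b0) ^ 2
          - (f.a0 * f.b1 - f.a1 * f.b0) * (f.a1 * f.b2 - f.a2 * f.b1)) * y = 0 := by
        linear_combination (f.a0 * f.b2 - f.a2 * f.b0) * e2' - (f.a0 * f.b1 - f.a1 * f.b0) * e1'
      rcases mul_eq_zero.1 this with h | h
      · exact hr h
      · exact hy h

/-- the pairing -/
def B (f : QMap) (x y x' y' : ℂ) : ℂ :=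
  (f.a0 * f.b1 - f.a1 * f.b0) * x * x' + (f.a0 * f.b2 - f.a2 * f.b0) * (x * y' + x' * y)
    + (f.a1 * f.b2 - f.a2 * f.b1) * y * y'

theorem det_B (f : QMap) (x y x' y' : ℂ) :
    f.X x y * f.Y x' y' - f.X x' y' * f.Y x y = (x * y' - x' * y) * f.B x y x' y' := by
  unfold X Y B; ring

theorem hasDerivAt (f : QMap) {z : ℂ} (hz : f.den z ≠ 0) :
    HasDerivAt f.toFun (f.B z 1 z 1 / f.den z ^ 2) z := by
  have h1 : HasDerivAt f.num (f.a0 * (2 * z) + f.a1) z := by
    have e : f.num = fun w => f.a0 * w ^ 2 + f.a1 * w + f.a2 := rfl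
    rw [e]
    have := (((hasDerivAt_pow 2 z).const_mul f.a0).add
      ((hasDerivAt_id' z).const_mul f.a1)).add_const f.a2
    simpa using this
  have h2 : HasDerivAt f.den (f.b0 * (2 * z) + f.b1) z := by
    have e : f.den = fun w => f.b0 * w ^ 2 + f.b1 * w + f.b2 := rfl
    rw [e]
    have := (((hasDerivAt_pow 2 z).const_mul f.b0).add
      ((hasDerivAt_id' z).const_mul f.b1)).add_const f.b2
    simpa using this
  have h3 : HasDerivAt f.toFun (((f.a0 * (2 * z) + f.a1) * f.den z
      - f.num z * (f.b0 * (2 * z) + f.b1)) / f.den z ^ 2) z := h1.div h2 hz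
  have e : (f.a0 * (2 * z) + f.a1) * f.den z - f.num z * (f.b0 * (2 * z) + f.b1)
      = f.B z 1 z 1 := by
    simp only [B, num, den]
    ring
  rw [e] at h3
  exact h3

theorem hasDerivAt_iterate (f : QMap) {z : ℂ} (hz : ∀ i, f.den (f.toFun^[i] z) ≠ 0) (n : ℕ) :
    HasDerivAt (f.toFun^[n])
      (∏ i ∈ range n, (f.B (f.toFun^[i] z) 1 (f.toFun^[i] z) 1 / f.den (f.toFun^[i] z) ^ 2)) z := by
  induction n with
  | zero =>
    simp only [Function.iterate_zero, range_zero, prod_empty]
    exact hasDerivAt_id z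
  | succ n ih =>
    rw [prod_range_succ, mul_comm, Function.iterate_succ']
    exact (f.hasDerivAt (hz n)).comp z ih

/-- the normal form with fixed points `0`, `∞` of multipliers `a`, `b` -/
def N (a b : ℂ) (h : a * b ≠ 1) : QMap where
  a0 := 1
  a1 := a
  a2 := 0
  b0 := 0
  b1 := b
  b2 := 1
  res_ne := by
    have : (1 : ℂ) - a * b ≠ 0 := sub_ne_zero.2 (Ne.symm h)
    intro h0
    apply this
    linear_combination h0

/-- the map with a triple fixed point -/
def S : QMap where
  a0 := 1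
  a1 := 0
  a2 := 1
  b0 := 0
  b1 := 1
  b2 := 0
  res_ne := by norm_num

end QMap

/-- `f` has the normal form `N a b` in the basis given by the matrix `(p q; r t)`. -/
structure HasN (f : QMap) (a b p q r t : ℂ) : Prop where
  det : p * t - q * r ≠ 0
  ab : a * b ≠ 1
  hX : ∀ x y, f.X (p * x + q * y) (r * x + t * y) = p * (x * (x + a * y)) + q * (y * (b * x + y))
  hY : ∀ x y, f.Y (p * x + q * y) (r * x + t * y) = r * (x * (x + a * y)) + t * (y * (b * x + y))

theorem HasN.conj {f : QMap} {a b p q r t : ℂ} (h : HasN f a b p q r t) :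
    QMap.Conj f (QMap.N a b h.ab) := by
  refine ⟨p, q, r, t, 1, h.det, one_ne_zero, fun x y => ?_⟩
  rw [h.hX, h.hY]
  constructor <;> simp only [QMap.X, QMap.Y, QMap.N] <;> ring

/-- two independent fixed vectors give a normal form -/
theorem hasN_of_fixed (f : QMap) {u1 u2 w1 w2 c d : ℂ} (hdet : u1 * w2 - w1 * u2 ≠ 0)
    (hu1 : f.X u1 u2 = c * u1) (hu2 : f.Y u1 u2 = c * u2)
    (hw1 : f.X w1 w2 = d * w1) (hw2 : f.Y w1 w2 = d * w2) :
    ∃ a b, HasN f a b (u1 / c) (w1 / d) (u2 / c) (w2 / d) := by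
  have hc : c ≠ 0 := by
    rintro rfl
    rw [zero_mul] at hu1 hu2
    obtain ⟨h1, h2⟩ := f.res_zero hu1 hu2
    apply hdet; rw [h1, h2]; ring
  have hd : d ≠ 0 := by
    rintro rfl
    rw [zero_mul] at hw1 hw2
    obtain ⟨h1, h2⟩ := f.res_zero hw1 hw2
    apply hdet; rw [h1, h2]; ring
  set p := u1 / c with hp
  set r := u2 / c with hr
  set q := w1 / d with hq
  set t := w2 / d with ht
  have hD : p * t - q * r ≠ 0 := by
    have : p * t - q * r = (u1 * w2 - w1 * u2) / (c * d) := by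
      rw [hp, hr, hq, ht]; field_simp
    rw [this]
    exact div_ne_zero hdet (mul_ne_zero hc hd)
  have eX1 : f.X p r = p := by
    have : f.X p r = f.X u1 u2 / c ^ 2 := by
      simp only [QMap.X, hp, hr]; field_simp
    rw [this, hu1, hp]; field_simp
  have eY1 : f.Y p r = r := by
    have : f.Y p r = f.Y u1 u2 / c ^ 2 := by
      simp only [QMap.Y, hp, hr]; field_simp
    rw [this, hu2, hr]; field_simp
  have eX2 : f.X q t = q := by
    have : f.X q t = f.X w1 w2 / d ^ 2 := by
      simp only [QMap.X, hq, ht]; field_simp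
    rw [this, hw1, hq]; field_simp
  have eY2 : f.Y q t = t := by
    have : f.Y q t = f.Y w1 w2 / d ^ 2 := by
      simp only [QMap.Y, hq, ht]; field_simp
    rw [this, hw2, ht]; field_simp
  -- mixed terms
  set mx := 2 * f.a0 * p * q + f.a1 * (p * t + q * r) + 2 * f.a2 * r * t with hmx
  set my := 2 * f.b0 * p * q + f.b1 * (p * t + q * r) + 2 * f.b2 * r * t with hmy
  set D := p * t - q * r with hDdef
  set a := (mx * t - q * my) / D with ha
  set b := (p * my - r * mx) / D with hb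
  have emx : mx = a * p + b * q := by
    rw [ha, hb]; field_simp; rw [hDdef]; ring
  have emy : my = a * r + b * t := by
    rw [ha, hb]; field_simp; rw [hDdef]; ring
  have hX : ∀ x y, f.X (p * x + q * y) (r * x + t * y)
      = p * (x * (x + a * y)) + q * (y * (b * x + y)) := by
    intro x y
    have e : f.X (p * x + q * y) (r * x + t * y)
        = x ^ 2 * f.X p r + x * y * mx + y ^ 2 * f.X q t := by
      simp only [QMap.X, hmx]; ring
    rw [e, eX1, eX2, emx]; ring
  have hY : ∀ x y, f.Y (p * x + q * y) (r * x + t * y)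
      = r * (x * (x + a * y)) + t * (y * (b * x + y)) := by
    intro x y
    have e : f.Y (p * x + q * y) (r * x + t * y)
        = x ^ 2 * f.Y p r + x * y * my + y ^ 2 * f.Y q t := by
      simp only [QMap.Y, hmy]; ring
    rw [e, eY1, eY2, emy]; ring
  refine ⟨a, b, hD, ?_, hX, hY⟩
  intro hab
  have h1 := hX (-a) 1
  have h2 := hY (-a) 1
  have h3 : p * (-a * (-a + a * 1)) + q * (1 * (b * (-a) + 1)) = 0 := by
    linear_combination (-q) * hab
  have h4 : r * (-a * (-a + a * 1)) + t * (1 * (b * (-a) + 1)) = 0 := by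
    linear_combination (-t) * hab
  rw [h3] at h1
  rw [h4] at h2
  obtain ⟨h5, h6⟩ := f.res_zero h1 h2
  apply hD
  rw [hDdef]
  have h7 : q = p * a := by linear_combination h5
  have h8 : t = r * a := by linear_combination h6
  rw [h7, h8]; ring

/-- Every fixed vector is either part of a basis of fixed vectors or the map is conjugate to
`S`. -/
theorem second_fixed (f : QMap) {w1 w2 d : ℂ} (hw : ¬ (w1 = 0 ∧ w2 = 0))
    (hw1 : f.X w1 w2 = d * w1) (hw2 : f.Y w1 w2 = d * w2) :
    (∃ u1 u2 c : ℂ, u1 * w2 - w1 * u2 ≠ 0 ∧ f.X u1 u2 = c * u1 ∧ f.Y u1 u2 = c * u2) ∨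
      (Quot.mk _ f : M2) = Quot.mk _ QMap.S := by
  -- complete to a basis
  obtain ⟨e1, e2, he⟩ : ∃ e1 e2 : ℂ, w1 * e2 - e1 * w2 ≠ 0 := by
    by_cases h1 : w1 = 0
    · have h2 : w2 ≠ 0 := fun h2 => hw ⟨h1, h2⟩
      exact ⟨1, 0, by rw [h1]; simpa using h2⟩
    · exact ⟨0, 1, by simpa using h1⟩
  set D := w1 * e2 - e1 * w2 with hD
  -- coordinates of `F (x w + y e)`
  set mx := 2 * f.a0 * w1 * e1 + f.a1 * (w1 * e2 + w2 * e1) + 2 * f.a2 * w2 * e2 with hmx
  set my := 2 * f.b0 * w1 * e1 + f.b1 * (w1 * e2 + w2 * e1) + 2 * f.b2 * w2 * e2 with hmy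
  set α1 := (mx * e2 - e1 * my) / D with hα1
  set β1 := (w1 * my - w2 * mx) / D with hβ1
  set α2 := (f.X e1 e2 * e2 - e1 * f.Y e1 e2) / D with hα2
  set β2 := (w1 * f.Y e1 e2 - w2 * f.X e1 e2) / D with hβ2
  have emx : mx = α1 * w1 + β1 * e1 := by rw [hα1, hβ1]; field_simp; rw [hD]; ring
  have emy : my = α1 * w2 + β1 * e2 := by rw [hα1, hβ1]; field_simp; rw [hD]; ring
  have eex : f.X e1 e2 = α2 * w1 + β2 * e1 := by rw [hα2, hβ2]; field_simp; rw [hD]; ring
  have eey : f.Y e1 e2 = α2 * w2 + β2 * e2 := by rw [hα2, hβ2]; field_simp; rw [hD]; ring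
  have hFX : ∀ x y, f.X (w1 * x + e1 * y) (w2 * x + e2 * y)
      = w1 * (d * x ^ 2 + α1 * x * y + α2 * y ^ 2) + e1 * (β1 * x * y + β2 * y ^ 2) := by
    intro x y
    have e : f.X (w1 * x + e1 * y) (w2 * x + e2 * y)
        = x ^ 2 * f.X w1 w2 + x * y * mx + y ^ 2 * f.X e1 e2 := by
      simp only [QMap.X, hmx]; ring
    rw [e, hw1, emx, eex]; ring
  have hFY : ∀ x y, f.Y (w1 * x + e1 * y) (w2 * x + e2 * y)
      = w2 * (d * x ^ 2 + α1 * x * y + α2 * y ^ 2) + e2 * (β1 * x * y + β2 * y ^ 2) := by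
    intro x y
    have e : f.Y (w1 * x + e1 * y) (w2 * x + e2 * y)
        = x ^ 2 * f.Y w1 w2 + x * y * my + y ^ 2 * f.Y e1 e2 := by
      simp only [QMap.Y, hmy]; ring
    rw [e, hw2, emy, eey]; ring
  -- nonvanishing
  have hnz : ∀ x y : ℂ, d * x ^ 2 + α1 * x * y + α2 * y ^ 2 = 0 → β1 * x * y + β2 * y ^ 2 = 0 →
      x = 0 ∧ y = 0 := by
    intro x y h1 h2
    have h3 := hFX x y
    have h4 := hFY x y
    rw [h1, h2, mul_zero, mul_zero, add_zero] at h3 h4
    obtain ⟨h5, h6⟩ := f.res_zero h3 h4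
    constructor
    · have : D * x = 0 := by rw [hD]; linear_combination e2 * h5 - e1 * h6
      exact (mul_eq_zero.1 this).resolve_left he
    · have : D * y = 0 := by rw [hD]; linear_combination w1 * h6 - w2 * h5
      exact (mul_eq_zero.1 this).resolve_left he
  have hd : d ≠ 0 := by
    rintro rfl
    have := (hnz 1 0 (by ring) (by ring)).1
    exact one_ne_zero this
  -- look for another fixed vector `x w + e`
  have hex : (∃ x c : ℂ, d * x ^ 2 + α1 * x + α2 = c * x ∧ β1 * x + β2 = c) →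
      (∃ u1 u2 c : ℂ, u1 * w2 - w1 * u2 ≠ 0 ∧ f.X u1 u2 = c * u1 ∧ f.Y u1 u2 = c * u2) := by
    rintro ⟨x, c, h1, h2⟩
    refine ⟨w1 * x + e1 * 1, w2 * x + e2 * 1, c, ?_, ?_, ?_⟩
    · intro h0
      apply he
      rw [hD]
      linear_combination (-1 : ℂ) * h0
    · rw [hFX]
      linear_combination w1 * h1 + e1 * h2
    · rw [hFY]
      linear_combination w2 * h1 + e2 * h2
  by_cases h1 : d = β1
  · by_cases h2 : α1 = β2
    · -- special case
      right
      have hα2 : α2 ≠ 0 := by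
        intro h0
        have := hnz (-α1) d (by rw [h0]; ring) (by rw [← h1, ← h2]; ring)
        exact hd this.2
      obtain ⟨ρ, hρ⟩ : ∃ ρ : ℂ, ρ ^ 2 = d * α2 := IsAlgClosed.exists_pow_nat_eq _ (by norm_num)
      have hρ0 : ρ ≠ 0 := by
        rintro rfl
        rw [zero_pow (by norm_num)] at hρ
        exact mul_ne_zero hd hα2 hρ.symm
      apply Quot.sound
      -- `f (M v) = s M (S v)` with `v = (x, y)`, `x w + y e` where `x = (ρ X - α1 Y) / d`, `y = Y`
      refine ⟨w1 * ρ / d, e1 - w1 * α1 / d, w2 * ρ / d, e2 - w2 * α1 / d, ρ, ?_, hρ0, ?_⟩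
      · have : w1 * ρ / d * (e2 - w2 * α1 / d) - (e1 - w1 * α1 / d) * (w2 * ρ / d)
            = ρ / d * D := by
          rw [hD]; field_simp; ring
        rw [this]
        exact mul_ne_zero (div_ne_zero hρ0 hd) he
      · intro x y
        have a1 : w1 * ρ / d * x + (e1 - w1 * α1 / d) * y
            = w1 * ((ρ * x - α1 * y) / d) + e1 * y := by field_simp; ring
        have a2 : w2 * ρ / d * x + (e2 - w2 * α1 / d) * y
            = w2 * ((ρ * x - α1 * y) / d) + e2 * y := by field_simp; ring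
        rw [a1, a2, hFX, hFY, ← h1, ← h2]
        have a3 : d * ((ρ * x - α1 * y) / d) ^ 2 + α1 * ((ρ * x - α1 * y) / d) * y + α2 * y ^ 2
            = ρ * (ρ * (x ^ 2 + y ^ 2) / d - α1 * (x * y) / d) := by
          field_simp
          linear_combination (-y ^ 2) * hρ
        have a4 : d * ((ρ * x - α1 * y) / d) * y + α1 * y ^ 2 = ρ * (x * y) := by
          field_simp; ring
        rw [a3, a4]
        simp only [QMap.X, QMap.Y, QMap.S]
        constructor <;> ring
    · left
      apply hex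
      have h3 : α1 - β2 ≠ 0 := sub_ne_zero.2 h2
      refine ⟨-α2 / (α1 - β2), _, ?_, rfl⟩
      rw [← h1]
      field_simp
      ring
  · left
    apply hex
    have h3 : d - β1 ≠ 0 := sub_ne_zero.2 h1
    obtain ⟨x, hx⟩ : ∃ x : ℂ, (d - β1) * (x * x) + (α1 - β2) * x + α2 = 0 := by
      obtain ⟨s, hs⟩ : ∃ s : ℂ, s ^ 2 = discrim (d - β1) (α1 - β2) α2 :=
        IsAlgClosed.exists_pow_nat_eq _ (by norm_num)
      exact exists_quadratic_eq_zero h3 ⟨s, by rw [← hs, sq]⟩
    exact ⟨x, _, by linear_combination hx, rfl⟩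

/-- a fixed vector exists -/
theorem exists_fixed (f : QMap) : ∃ w1 w2 d : ℂ, ¬ (w1 = 0 ∧ w2 = 0) ∧ f.X w1 w2 = d * w1 ∧
    f.Y w1 w2 = d * w2 := by
  by_cases hb : f.b0 = 0
  · exact ⟨1, 0, f.a0, by simp, by simp [QMap.X], by simp [QMap.Y, hb]⟩
  · let p : Polynomial ℂ := Polynomial.C f.b0 * Polynomial.X ^ 3
      + Polynomial.C (f.b1 - f.a0) * Polynomial.X ^ 2
      + Polynomial.C (f.b2 - f.a1) * Polynomial.X - Polynomial.C f.a2
    have hp : p.degree ≠ 0 := by
      have : p.degree = 3 := by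
        simp only [p]
        compute_degree!
      rw [this]; decide
    obtain ⟨x, hx⟩ := IsAlgClosed.exists_root p hp
    have hev : p.eval x = f.b0 * x ^ 3 + (f.b1 - f.a0) * x ^ 2 + (f.b2 - f.a1) * x - f.a2 := by
      simp [p]
    rw [Polynomial.IsRoot, hev] at hx
    refine ⟨x, 1, f.Y x 1, by simp, ?_, by ring⟩
    simp only [QMap.X, QMap.Y]
    linear_combination (-1 : ℂ) * hx

end Pool.Agent.helper56.Per
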