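import Pool.Agent.helper56.Per.Good
import Pool.Agent.helper56.Per.LemH

/-!
# Further local lemmas: polynomial-like slice, one large multiplier, rotations
-/

namespace Pool.Agent.helper56.Per

open Finset

variable {K : Type*} [Field K]
variable {Γ : Type*} [LinearOrderedCommGroupWithZero Γ] (v : Valuation K Γ)

section A

variable {a b : K} {n : ℕ} {lam : K} {z : ℕ → K}

theorem A_bound (ha : v a ≤ 1) (hb : v b < 1) (h : NCyc a b n lam z) (i : ℕ) : v (z i) ≤ 1 := by
  by_contra hc
  rw [not_le] at hc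
  have hstep : ∀ j, 1 < v (z j) → v (z j) < v (z (j + 1)) := by
    intro j hj
    have hvz : v (z j) ≠ 0 := (v.ne_zero_iff).2 (h.ne0 j)
    have hvd : v (b * z j + 1) ≠ 0 := (v.ne_zero_iff).2 (h.den j)
    have e1 : v (b * z j + 1) < v (z j) := by
      apply Valuation.map_add_lt v
      · rw [map_mul]
        calc v b * v (z j) < 1 * v (z j) := mul_lt_mul_of_pos_right hb (zero_lt_iff.2 hvz)
          _ = v (z j) := one_mul _
      · rwa [map_one]
    have e3 : v (z j + a) = v (z j) := Valuation.map_add_eq_of_lt_left v (ha.trans_lt hj)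
    have e2 := congrArg v (h.step j)
    rw [map_mul, map_mul, e3] at e2
    by_contra hc
    rw [not_lt] at hc
    have : v (z (j + 1)) * v (b * z j + 1) < v (z j) * v (z j) :=
      calc v (z (j + 1)) * v (b * z j + 1) ≤ v (z j) * v (b * z j + 1) := mul_le_mul_left hc _
        _ < v (z j) * v (z j) := mul_lt_mul_of_pos_left e1 (zero_lt_iff.2 hvz)
    exact absurd e2 this.ne
  have hall : ∀ k, 1 < v (z (i + k)) := by
    intro k
    induction k with
    | zero => exact hc
    | succ k ih => exact ih.trans (hstep _ ih)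
  apply no_asc (fun k => v (z (i + k))) n h.npos
  · intro k
    show v (z (i + (k + n))) = _
    rw [← add_assoc, h.per]
  · intro k
    exact hstep _ (hall k)

/-- **Lemma A**: multipliers modulo `2` for nearly polynomial maps. -/
theorem lemA (ha : v a ≤ 1) (hb : v b < 1) (hb2 : v b ≤ v 2) (h : NCyc a b n lam z) :
    v (lam - a ^ n) ≤ v 2 := by
  have hz := A_bound v ha hb h
  have h21 := v_two_le v
  have hd : ∀ i, v (b * z i + 1) = 1 := by
    intro i
    rw [← v.map_one]
    apply Valuation.map_add_eq_of_lt_right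
    rw [map_one, map_mul]
    exact lt1_of_lt_of_le hb (hz i)
  have hbb : v b ≤ 1 := hb.le
  have hnum : ∀ i, v (b * z i ^ 2 + 2 * z i + a) ≤ 1 := by
    intro i
    refine v.map_add_le (v.map_add_le ?_ ?_) ha <;> simp only [map_mul, map_pow]
    · exact mul_le_one' hbb (pow_le_one' (hz i) 2)
    · exact mul_le_one' h21 (hz i)
  have hdiff : ∀ i, v ((b * z i ^ 2 + 2 * z i + a) - a * (b * z i + 1) ^ 2) ≤ v 2 := by
    intro i
    have e : (b * z i ^ 2 + 2 * z i + a) - a * (b * z i + 1) ^ 2
        = b * (z i ^ 2 - a * b * z i ^ 2) + 2 * (z i - a * b * z i) := by ring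
    rw [e]
    refine v.map_add_le ?_ ?_
    · rw [map_mul]
      refine (mul_le_of_le_one_right' ?_).trans hb2
      refine v.map_sub_le ?_ ?_ <;> simp only [map_mul, map_pow]
      · exact pow_le_one' (hz i) 2
      · exact mul_le_one' (mul_le_one' ha hbb) (pow_le_one' (hz i) 2)
    · rw [map_mul]
      refine (mul_le_of_le_one_right' ?_)
      refine v.map_sub_le (hz i) ?_
      simp only [map_mul]
      exact mul_le_one' (mul_le_one' ha hbb) (hz i)
  have hprod : ∀ k, v (∏ i ∈ range k, (b * z i ^ 2 + 2 * z i + a)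
      - a ^ k * ∏ i ∈ range k, (b * z i + 1) ^ 2) ≤ v 2 := by
    intro k
    induction k with
    | zero => simp
    | succ k ih =>
      rw [prod_range_succ, prod_range_succ]
      have e : (∏ i ∈ range k, (b * z i ^ 2 + 2 * z i + a)) * (b * z k ^ 2 + 2 * z k + a)
          - a ^ (k + 1) * ((∏ i ∈ range k, (b * z i + 1) ^ 2) * (b * z k + 1) ^ 2)
          = ((b * z k ^ 2 + 2 * z k + a) - a * (b * z k + 1) ^ 2)
              * ∏ i ∈ range k, (b * z i ^ 2 + 2 * z i + a)
            + a * (b * z k + 1) ^ 2 * (∏ i ∈ range k, (b * z i ^ 2 + 2 * z i + a)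
              - a ^ k * ∏ i ∈ range k, (b * z i + 1) ^ 2) := by ring
      rw [e]
      refine v.map_add_le ?_ ?_
      · rw [map_mul]
        refine (mul_le_of_le_one_right' ?_).trans (hdiff k)
        rw [map_prod]
        refine (prod_le_pow₀ (M := 1)
          (f := fun i => v (b * z i ^ 2 + 2 * z i + a)) hnum k).trans ?_
        rw [one_pow]
      · rw [map_mul]
        refine (mul_le_of_le_one_left' ?_).trans ih
        rw [map_mul, map_pow, hd, one_pow, mul_one]
        exact ha
  have hfin := hprod n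
  rw [h.mul, ← sub_mul, map_mul] at hfin
  have : v (∏ i ∈ range n, (b * z i + 1) ^ 2) = 1 := by
    rw [map_prod]
    exact prod_eq_one fun i _ => by rw [map_pow, hd, one_pow]
  rwa [this, mul_one] at hfin

end A

section Beta

variable {a b : K} {n : ℕ} {lam : K} {z : ℕ → K}

theorem prim_beta (ha : v a = 1) (hb : 1 < v b) {X Y : K} (hP : max (v X) (v Y) = 1) :
    1 ≤ v b * max (v (X * (X + a * Y))) (v (Y * (b * X + Y))) := by
  have hX : v X ≤ 1 := hP ▸ le_max_left _ _
  have hY : v Y ≤ 1 := hP ▸ le_max_right _ _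
  have haY : v (a * Y) = v Y := by rw [map_mul, ha, one_mul]
  have hbX : v (b * X) = v b * v X := map_mul _ _ _
  rcases lt_or_eq_of_le hX with hX1 | hX1
  · have hY1 : v Y = 1 := by
      rcases max_choice (v X) (v Y) with h | h
      · rw [h] at hP; exact absurd hP hX1.ne
      · rw [h] at hP; exact hP
    rcases lt_or_ge (v b * v X) 1 with h1 | h1
    · have e : v (b * X + Y) = 1 := by
        rw [Valuation.map_add_eq_of_lt_right v (by rw [hbX, hY1]; exact h1), hY1]
      have : v (Y * (b * X + Y)) = 1 := by rw [map_mul, e, hY1, mul_one]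
      calc (1 : Γ) ≤ 1 * 1 := by rw [mul_one]
        _ ≤ _ := mul_le_mul' hb.le (this ▸ le_max_right _ _)
    · have e : v (X + a * Y) = 1 := by
        rw [Valuation.map_add_eq_of_lt_right v (by rw [haY, hY1]; exact hX1), haY, hY1]
      have : v (X * (X + a * Y)) = v X := by rw [map_mul, e, mul_one]
      calc (1 : Γ) ≤ v b * v X := h1
        _ ≤ _ := mul_le_mul_right (this ▸ le_max_left _ _) _
  · rcases lt_or_eq_of_le hY with hY1 | hY1
    · have e : v (X + a * Y) = 1 := by
        rw [Valuation.map_add_eq_of_lt_left v (by rw [haY, hX1]; exact hY1), hX1]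
      have : v (X * (X + a * Y)) = 1 := by rw [map_mul, e, hX1, mul_one]
      calc (1 : Γ) ≤ 1 * 1 := by rw [mul_one]
        _ ≤ _ := mul_le_mul' hb.le (this ▸ le_max_left _ _)
    · have e : v (b * X + Y) = v b := by
        rw [Valuation.map_add_eq_of_lt_left v (by rw [hbX, hX1, hY1, mul_one]; exact hb), hbX,
          hX1, mul_one]
      have : v (Y * (b * X + Y)) = v b := by rw [map_mul, e, hY1, one_mul]
      calc (1 : Γ) ≤ 1 * 1 := by rw [mul_one]
        _ ≤ _ := mul_le_mul' hb.le (hb.le.trans (this ▸ le_max_right _ _))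

/-- **Lemma β**: one large multiplier: bound for the multiplier of a cycle. -/
theorem lemBeta (ha : v a = 1) (hb : 1 < v b) (h : NCyc a b n lam z) :
    v lam ≤ v b ^ (3 * n) := by
  obtain ⟨X, Y, c, hH, hP, _, _⟩ := h.toH v
  have hc : ∀ i, 1 ≤ v b * v (c i) := by
    intro i
    have := prim_beta v ha hb (hP i)
    rwa [hH.fx, hH.fy, map_mul, map_mul, ← mul_max, hP, mul_one] at this
  have hB : ∀ i, v (b * X i ^ 2 + 2 * X i * Y i + a * Y i ^ 2) ≤ v b := by
    intro i
    have hXi : v (X i) ≤ 1 := hP i ▸ le_max_left _ _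
    have hYi : v (Y i) ≤ 1 := hP i ▸ le_max_right _ _
    refine v.map_add_le (v.map_add_le ?_ ?_) ?_ <;> simp only [map_mul, map_pow]
    · exact mul_le_of_le_one_right' (pow_le_one' hXi 2)
    · exact (mul_le_one' (mul_le_one' (v_two_le v) hXi) hYi).trans hb.le
    · rw [ha, one_mul]
      exact (pow_le_one' hYi 2).trans hb.le
  have e := congrArg v hH.mul
  rw [map_mul, map_prod, map_prod] at e
  have h1 : (1 : Γ) ≤ ∏ i ∈ range n, (v b ^ 2 * v (c i ^ 2)) := by
    apply one_le_prod₀ (f := fun i => v b ^ 2 * v (c i ^ 2))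
    intro i
    rw [map_pow, ← mul_pow]
    exact one_le_pow_of_one_le' (hc i) 2
  rw [prod_mul_distrib, prod_const, card_range] at h1
  calc v lam = v lam * 1 := (mul_one _).symm
    _ ≤ v lam * ((v b ^ 2) ^ n * ∏ i ∈ range n, v (c i ^ 2)) := mul_le_mul_right h1 _
    _ = (v b ^ 2) ^ n * (v lam * ∏ i ∈ range n, v (c i ^ 2)) := by
        simp only [mul_left_comm]
    _ = (v b ^ 2) ^ n * ∏ i ∈ range n, v (b * X i ^ 2 + 2 * X i * Y i + a * Y i ^ 2) := by rw [e]
    _ ≤ (v b ^ 2) ^ n * v b ^ n := mul_le_mul_right (prod_le_pow₀ hB n) _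
    _ = v b ^ (3 * n) := by rw [← pow_mul, ← pow_add]; congr 1; ring

end Beta

section Swap

variable {a b : K} {n : ℕ} {lam : K} {z : ℕ → K}

theorem NCyc.step' (h : NCyc a b n lam z) (i : ℕ) :
    z (i + 1) = z i * (z i + a) / (b * z i + 1) := by
  rw [eq_div_iff (h.den i)]
  exact h.step i

/-- exchange the roles of `0` and `∞` -/
theorem NCyc.swap (h : NCyc a b n lam z) : NCyc b a n lam (fun i => (z i)⁻¹) := by
  have hden : ∀ i, a * (z i)⁻¹ + 1 ≠ 0 := by
    intro i
    have h1 := h.ne0 i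
    have h2 := h.num i
    have : a * (z i)⁻¹ + 1 = (z i + a) / z i := by field_simp; ring
    rw [this]
    exact div_ne_zero h2 h1
  refine ⟨h.npos, fun i => inv_ne_zero (h.ne0 i), hden, ?_, ?_, ?_, ?_⟩
  · intro i
    have h1 := h.ne0 i
    have h2 := h.ne0 (i + 1)
    have h3 := h.step i
    field_simp
    linear_combination (-1 : K) * h3
  · intro i
    simp only [h.per]
  · intro i hc
    exact h.ne i (inv_injective hc)
  · have e1 : (∏ i ∈ range n, (a * ((z i)⁻¹) ^ 2 + 2 * (z i)⁻¹ + b)) * ∏ i ∈ range n, z i ^ 2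
        = ∏ i ∈ range n, (b * z i ^ 2 + 2 * z i + a) := by
      rw [← prod_mul_distrib]
      refine prod_congr rfl fun i _ => ?_
      have h1 := h.ne0 i
      field_simp
      ring
    have e2 : (∏ i ∈ range n, (a * (z i)⁻¹ + 1) ^ 2) * ((∏ i ∈ range n, z i ^ 2))
        = ∏ i ∈ range n, (b * z i + 1) ^ 2 := by
      have e3 : ∏ i ∈ range n, z (i + 1) ^ 2 = ∏ i ∈ range n, z i ^ 2 := by
        apply prod_shift (fun i => z i ^ 2)
        have := h.per 0
        rw [zero_add] at this
        simp only [this]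
      have e4 : (∏ i ∈ range n, (a * (z i)⁻¹ + 1) ^ 2) * ((∏ i ∈ range n, z i ^ 2))
          * (∏ i ∈ range n, z i ^ 2)
          = (∏ i ∈ range n, (b * z i + 1) ^ 2) * ∏ i ∈ range n, z (i + 1) ^ 2 := by
        rw [← prod_mul_distrib, ← prod_mul_distrib, ← prod_mul_distrib]
        refine prod_congr rfl fun i _ => ?_
        have h1 := h.ne0 i
        have h3 := h.step i
        have : ((a * (z i)⁻¹ + 1)) * z i * z i = (b * z i + 1) * z (i + 1) := by
          field_simp
          linear_combination (-1 : K) * h3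
        calc (a * (z i)⁻¹ + 1) ^ 2 * z i ^ 2 * z i ^ 2 = ((a * (z i)⁻¹ + 1) * z i * z i) ^ 2 := by
              ring
          _ = _ := by rw [this]; ring
      rw [e3] at e4
      exact mul_right_cancel₀
        (prod_ne_zero_iff.2 fun i _ => pow_ne_zero _ (h.ne0 i)) e4
    have hne : ∏ i ∈ range n, z i ^ 2 ≠ 0 :=
      prod_ne_zero_iff.2 fun i _ => pow_ne_zero _ (h.ne0 i)
    apply mul_right_cancel₀ hne
    rw [e1, mul_assoc, e2, h.mul]

/-- the cycle avoids the third fixed point -/
theorem NCyc.avoid (h : NCyc a b n lam z) (i : ℕ) :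
    (1 - a) - (1 - b) * z i ≠ 0 := by
  intro h0
  have h1 := h.step i
  have h2 := h.den i
  apply h.ne i
  have : (z (i + 1) - z i) * (b * z i + 1) = 0 := by
    rw [sub_mul, h1]
    linear_combination (-z i) * h0
  rcases mul_eq_zero.1 this with h3 | h3
  · exact sub_eq_zero.1 h3
  · exact absurd h3 h2

/-- change of the fixed point at infinity to the third fixed point -/
theorem NCyc.psi (hab : a * b ≠ 1) (ha : a ≠ 1) (h : NCyc a b n lam z) :
    NCyc a ((2 - a - b) / (1 - a * b)) n lam
      (fun i => (1 - a * b) * z i / ((1 - a) - (1 - b) * z i)) := by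
  have hab' : 1 - a * b ≠ 0 := sub_ne_zero.2 (Ne.symm hab)
  have ha' : 1 - a ≠ 0 := sub_ne_zero.2 (Ne.symm ha)
  have hav := h.avoid
  have hcz : ∀ i, (2 - a - b) / (1 - a * b) * ((1 - a * b) * z i / ((1 - a) - (1 - b) * z i)) + 1
      = (1 - a) * (z i + 1) / ((1 - a) - (1 - b) * z i) := by
    intro i
    have := hav i
    generalize hD : (1 - a) - (1 - b) * z i = D at this ⊢
    field_simp
    subst hD
    ring
  have hs : ∀ i, ((1 - a) - (1 - b) * z (i + 1)) * (b * z i + 1)
      = ((1 - a) - (1 - b) * z i) * (z i + 1) := by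
    intro i
    linear_combination (-(1 - b)) * h.step i
  have hz1 : ∀ i, z i + 1 ≠ 0 := by
    intro i h0
    have := hs i
    rw [h0, mul_zero] at this
    exact (mul_ne_zero (hav _) (h.den i)) this
  refine ⟨h.npos, ?_, ?_, ?_, ?_, ?_, ?_⟩
  · intro i
    exact div_ne_zero (mul_ne_zero hab' (h.ne0 i)) (hav i)
  · intro i
    rw [hcz]
    exact div_ne_zero (mul_ne_zero ha' (hz1 i)) (hav i)
  · intro i
    rw [hcz]
    have h1 := hav i
    have h2 := hav (i + 1)
    have h3 := h.step' i
    have h4 := h.den i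
    have h5 : ((1 - a) - (1 - b) * z (i + 1))
        = ((1 - a) - (1 - b) * z i) * (z i + 1) / (b * z i + 1) := by
      rw [eq_div_iff h4]; exact hs i
    have h6 := hz1 i
    have e1 : (1 - a * b) * z (i + 1) / ((1 - a) - (1 - b) * z (i + 1))
        = (1 - a * b) * (z i * (z i + a)) / (((1 - a) - (1 - b) * z i) * (z i + 1)) := by
      rw [h5, h3]
      generalize hD : (1 - a) - (1 - b) * z i = D at h1 ⊢
      field_simp
    rw [e1]
    generalize hD : (1 - a) - (1 - b) * z i = D at h1 ⊢
    field_simp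
    subst hD
    ring
  · intro i
    simp only [h.per]
  · intro i hc
    apply h.ne i
    have h1 := hav i
    have h2 := hav (i + 1)
    rw [div_eq_div_iff h2 h1] at hc
    have : (1 - a * b) * (1 - a) * (z (i + 1) - z i) = 0 := by linear_combination hc
    rcases mul_eq_zero.1 this with h3 | h3
    · exact absurd h3 (mul_ne_zero hab' ha')
    · exact sub_eq_zero.1 h3
  · -- multiplier
    have hnum : ∀ i, (2 - a - b) / (1 - a * b)
          * ((1 - a * b) * z i / ((1 - a) - (1 - b) * z i)) ^ 2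
        + 2 * ((1 - a * b) * z i / ((1 - a) - (1 - b) * z i)) + a
        = (1 - a) ^ 2 * (b * z i ^ 2 + 2 * z i + a) / ((1 - a) - (1 - b) * z i) ^ 2 := by
      intro i
      have := hav i
      generalize hD : (1 - a) - (1 - b) * z i = D at this ⊢
      field_simp
      subst hD
      ring
    have e1 : (∏ i ∈ range n, ((2 - a - b) / (1 - a * b)
          * ((1 - a * b) * z i / ((1 - a) - (1 - b) * z i)) ^ 2
        + 2 * ((1 - a * b) * z i / ((1 - a) - (1 - b) * z i)) + a))
        * ∏ i ∈ range n, ((1 - a) - (1 - b) * z i) ^ 2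
        = (∏ i ∈ range n, (1 - a) ^ 2) * ∏ i ∈ range n, (b * z i ^ 2 + 2 * z i + a) := by
      rw [← prod_mul_distrib, ← prod_mul_distrib]
      refine prod_congr rfl fun i _ => ?_
      rw [hnum]
      have := hav i
      generalize hD : (1 - a) - (1 - b) * z i = D at this ⊢
      field_simp
    have e3 : ∏ i ∈ range n, ((1 - a) - (1 - b) * z (i + 1)) ^ 2
        = ∏ i ∈ range n, ((1 - a) - (1 - b) * z i) ^ 2 := by
      apply prod_shift (fun i => ((1 - a) - (1 - b) * z i) ^ 2)
      have := h.per 0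
      rw [zero_add] at this
      simp only [this]
    have hne : ∏ i ∈ range n, ((1 - a) - (1 - b) * z i) ^ 2 ≠ 0 :=
      prod_ne_zero_iff.2 fun i _ => pow_ne_zero _ (hav i)
    have e2 : (∏ i ∈ range n, ((2 - a - b) / (1 - a * b)
          * ((1 - a * b) * z i / ((1 - a) - (1 - b) * z i)) + 1) ^ 2)
        * ∏ i ∈ range n, ((1 - a) - (1 - b) * z i) ^ 2
        = (∏ i ∈ range n, (1 - a) ^ 2) * ∏ i ∈ range n, (b * z i + 1) ^ 2 := by
      apply mul_right_cancel₀ hne
      have : (∏ i ∈ range n, ((2 - a - b) / (1 - a * b)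
          * ((1 - a * b) * z i / ((1 - a) - (1 - b) * z i)) + 1) ^ 2)
        * (∏ i ∈ range n, ((1 - a) - (1 - b) * z i) ^ 2)
        * (∏ i ∈ range n, ((1 - a) - (1 - b) * z i) ^ 2)
        = (∏ i ∈ range n, (1 - a) ^ 2) * (∏ i ∈ range n, (b * z i + 1) ^ 2)
          * (∏ i ∈ range n, ((1 - a) - (1 - b) * z (i + 1)) ^ 2) := by
        rw [← prod_mul_distrib, ← prod_mul_distrib, ← prod_mul_distrib, ← prod_mul_distrib]
        refine prod_congr rfl fun i _ => ?_
        rw [hcz]
        have h1 := hav i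
        have h2 : ((1 - a) * (z i + 1) / ((1 - a) - (1 - b) * z i)) ^ 2
            * ((1 - a) - (1 - b) * z i) ^ 2 * ((1 - a) - (1 - b) * z i) ^ 2
            = (1 - a) ^ 2 * (((1 - a) - (1 - b) * z i) * (z i + 1)) ^ 2 := by
          generalize hD : (1 - a) - (1 - b) * z i = D at h1 ⊢
          field_simp
        rw [h2, ← hs i]
        ring
      rw [this, e3]
    apply mul_right_cancel₀ hne
    rw [e1, mul_assoc lam, e2, h.mul]
    ring

theorem psi_inj (hab : a * b ≠ 1) (ha : a ≠ 1) {x y : K} (hx : (1 - a) - (1 - b) * x ≠ 0)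
    (hy : (1 - a) - (1 - b) * y ≠ 0)
    (h : (1 - a * b) * x / ((1 - a) - (1 - b) * x) = (1 - a * b) * y / ((1 - a) - (1 - b) * y)) :
    x = y := by
  have hab' : 1 - a * b ≠ 0 := sub_ne_zero.2 (Ne.symm hab)
  have ha' : 1 - a ≠ 0 := sub_ne_zero.2 (Ne.symm ha)
  rw [div_eq_div_iff hx hy] at h
  have : (1 - a * b) * (1 - a) * (x - y) = 0 := by linear_combination h
  rcases mul_eq_zero.1 this with h3 | h3
  · exact absurd h3 (mul_ne_zero hab' ha')
  · exact sub_eq_zero.1 h3

end Swap

end Pool.Agent.helper56.Per
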