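import Pool.Agent.helper56.Per.Other

/-!
# Rotations and translations: degenerating maps with a neutral fixed point
-/

namespace Pool.Agent.helper56.Per

open Finset

variable {K : Type*} [Field K]
variable {Γ : Type*} [LinearOrderedCommGroupWithZero Γ] (v : Valuation K Γ)

theorem one_lt_prod {f : ℕ → Γ} (h : ∀ i, 1 ≤ f i) {i₀ : ℕ} (h0 : 1 < f i₀) (n : ℕ)
    (hn : i₀ < n) : 1 < ∏ i ∈ range n, f i := by
  induction n with
  | zero => omega
  | succ k ih =>
    rw [prod_range_succ]
    rcases Nat.lt_succ_iff_lt_or_eq.1 hn with h1 | h1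
    · exact (ih h1).trans_le (le_mul_of_one_le_right' (h k))
    · rw [← h1]
      exact h0.trans_le (le_mul_of_one_le_left' (one_le_prod₀ h _))

theorem exists_index {n : ℕ} (hn : 0 < n) {P : ℕ → Prop} (hper : ∀ i, P (i + n) ↔ P i) {i : ℕ}
    (hi : P i) : ∃ j < n, P j := by
  induction i using Nat.strong_induction_on with
  | _ i ih =>
    by_cases h : i < n
    · exact ⟨i, h, hi⟩
    · apply ih (i - n) (by omega)
      rw [← hper]
      rwa [Nat.sub_add_cancel (not_lt.1 h)]

/-- If the multiplier of a cycle is not large, and all factors are `≥ 1`, then contradiction as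
soon as one is `> 1`. -/
theorem NCyc.one_lt_lam {a b : K} {n : ℕ} {lam : K} {z : ℕ → K} (h : NCyc a b n lam z)
    (h1 : ∀ i, v ((b * z i + 1) ^ 2) ≤ v (b * z i ^ 2 + 2 * z i + a)) {i₀ : ℕ}
    (h2 : v ((b * z i₀ + 1) ^ 2) < v (b * z i₀ ^ 2 + 2 * z i₀ + a)) : 1 < v lam := by
  have e := congrArg v h.mul
  rw [map_mul, map_prod, map_prod] at e
  have hd : ∀ i, v ((b * z i + 1) ^ 2) ≠ 0 := fun i =>
    (v.ne_zero_iff).2 (pow_ne_zero _ (h.den i))
  obtain ⟨j, hj, hj2⟩ := exists_index h.npos
    (P := fun i => v ((b * z i + 1) ^ 2) < v (b * z i ^ 2 + 2 * z i + a))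
    (fun i => by simp only [h.per]) h2
  have hp : 1 < ∏ i ∈ range n, (v (b * z i ^ 2 + 2 * z i + a) / v ((b * z i + 1) ^ 2)) := by
    apply one_lt_prod (i₀ := j) (f := fun i =>
      (v (b * z i ^ 2 + 2 * z i + a) / v ((b * z i + 1) ^ 2))) _ _ _ hj
    · intro i
      rw [one_le_div₀ (zero_lt_iff.2 (hd i))]
      exact h1 i
    · rw [one_lt_div₀ (zero_lt_iff.2 (hd j))]
      exact hj2
  rw [prod_div_distrib, e, mul_div_assoc, div_self, mul_one] at hp
  · exact hp
  · exact prod_ne_zero_iff.2 fun i _ => hd i

section Rot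

variable {a b : K} {n : ℕ} {lam : K} {z : ℕ → K}

/-- **Rotation lemma**: if the multiplier of `0` is a unit, not close to a root of unity of order
`≤ n`, and the maps degenerate, then all `n`-cycles are repelling. -/
theorem rotation (ha : v a = 1) (hab : v (1 - a * b) < 1)
    (hr : ∀ j, 0 < j → j ≤ n → v (a ^ j - 1) = 1) (h : NCyc a b n lam z) : 1 < v lam := by
  have hb : v b = 1 := by
    have e : v (a * b) = 1 := by
      have : a * b = 1 + -(1 - a * b) := by ring
      rw [this, Valuation.map_add_eq_of_lt_left v (by rwa [Valuation.map_neg, map_one]), map_one]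
    rwa [map_mul, ha, one_mul] at e
  set d := 1 - a * b with hd
  have hst : ∀ i, z (i + 1) * (b * z i + 1) = z i * (a * (b * z i + 1) + d * z i) := by
    intro i; rw [h.step]; rw [hd]; ring
  have hvz : ∀ i, v (z i) ≠ 0 := fun i => (v.ne_zero_iff).2 (h.ne0 i)
  have hvw : ∀ i, v (b * z i + 1) ≠ 0 := fun i => (v.ne_zero_iff).2 (h.den i)
  -- good points
  have good : ∀ i, v (d * z i) < v (b * z i + 1) →
      v (z (i + 1)) = v (z i) ∧ v (z (i + 1) - a * z i) < v (z i) := by
    intro i hi
    have e1 : v (a * (b * z i + 1) + d * z i) = v (b * z i + 1) := by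
      rw [Valuation.map_add_eq_of_lt_left v (by rw [map_mul v a, ha, one_mul]; exact hi), map_mul,
        ha, one_mul]
    constructor
    · have e := congrArg v (hst i)
      rw [map_mul, map_mul, e1] at e
      exact mul_right_cancel₀ (hvw i) e
    · have e : (z (i + 1) - a * z i) * (b * z i + 1) = z i * (d * z i) := by
        rw [sub_mul, hst]; ring
      have e' := congrArg v e
      rw [map_mul, map_mul] at e'
      have : v (z (i + 1) - a * z i) * v (b * z i + 1) < v (z i) * v (b * z i + 1) := by
        rw [e']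
        exact mul_lt_mul_of_pos_left hi (zero_lt_iff.2 (hvz i))
      exact lt_of_mul_lt_mul_right' this
  have hr' : v (a ^ n - 1) = 1 := hr n h.npos le_rfl
  -- iterate the good relation
  have iter : ∀ i k, (∀ j, j < k → v (d * z (i + j)) < v (b * z (i + j) + 1)) →
      v (z (i + k)) = v (z i) ∧ v (z (i + k) - a ^ k * z i) < v (z i) := by
    intro i k
    induction k with
    | zero => intro _; simp [zero_lt_iff.2 (hvz i)]
    | succ k ih =>
      intro hk
      obtain ⟨e1, e2⟩ := ih (fun j hj => hk j (by omega))
      obtain ⟨e3, e4⟩ := good (i + k) (hk k (by omega))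
      rw [← add_assoc]
      refine ⟨e3.trans e1, ?_⟩
      have : z (i + k + 1) - a ^ (k + 1) * z i
          = (z (i + k + 1) - a * z (i + k)) + a * (z (i + k) - a ^ k * z i) := by ring
      rw [this]
      apply Valuation.map_add_lt v
      · rw [e1] at e4; exact e4
      · rw [map_mul, ha, one_mul]; exact e2
  -- a full turn of good points is impossible
  have noturn : ∀ i, ¬ (∀ j, j < n → v (d * z (i + j)) < v (b * z (i + j) + 1)) := by
    intro i hi
    obtain ⟨_, e2⟩ := iter i n hi
    rw [h.per, show z i - a ^ n * z i = -((a ^ n - 1) * z i) by ring, Valuation.map_neg, map_mul,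
      hr', one_mul] at e2
    exact lt_irrefl _ e2
  -- good points near the pole are impossible
  have hnear : ∀ i, v (d * z i) < v (b * z i + 1) → 1 ≤ v (b * z i + 1) := by
    intro i hi
    by_contra hc
    rw [not_le] at hc
    have hz1 : v (z i) = 1 := by
      have e : v (b * z i) = 1 := by
        have : b * z i = -1 + (b * z i + 1) := by ring
        rw [this, Valuation.map_add_eq_of_lt_left v (by rwa [Valuation.map_neg, map_one]),
          Valuation.map_neg, map_one]
      rwa [map_mul, hb, one_mul] at e
    have hza : v (z i + a) < 1 := by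
      have e : b * (z i + a) = (b * z i + 1) + -d := by rw [hd]; ring
      have e' := congrArg v e
      rw [map_mul, hb, one_mul] at e'
      rw [e']
      exact Valuation.map_add_lt v hc (by rwa [Valuation.map_neg])
    apply noturn i
    intro j hj
    induction j using Nat.strong_induction_on with
    | _ j ih =>
      rcases Nat.eq_zero_or_pos j with rfl | hj0
      · simpa using hi
      · obtain ⟨e1, e2⟩ := iter i j (fun k hk => ih k hk (hk.trans hj))
        rw [hz1] at e1 e2
        rw [map_mul, e1, mul_one]
        have e3 : a * (b * z (i + j) + 1) = -(a * (a ^ j - 1)) +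
            (a ^ j * (z i + a) + (z (i + j) - a ^ j * z i) + -(d * z (i + j))) := by
          rw [hd]; ring
        have e4 : v (a * (b * z (i + j) + 1)) = 1 := by
          rw [e3, Valuation.map_add_eq_of_lt_left v, Valuation.map_neg, map_mul, ha,
            hr j hj0 hj.le, one_mul]
          rw [Valuation.map_neg, map_mul, ha, hr j hj0 hj.le, one_mul]
          refine Valuation.map_add_lt v (Valuation.map_add_lt v ?_ e2) ?_
          · rw [map_mul, map_pow, ha, one_pow, one_mul]; exact hza
          · rw [Valuation.map_neg, map_mul, e1, mul_one]; exact hab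
        rw [map_mul, ha, one_mul] at e4
        rw [e4]
        exact hab
  -- bad points
  have bad : ∀ i, ¬ v (d * z i) < v (b * z i + 1) → v (b * z i + 1) ≤ v d := by
    intro i hi
    rw [not_lt] at hi
    have hz : v (z i) ≤ 1 := by
      by_contra hc
      rw [not_le] at hc
      have e : v (b * z i + 1) = v (z i) := by
        rw [Valuation.map_add_eq_of_lt_left v (by rw [map_one, map_mul, hb, one_mul]; exact hc),
          map_mul, hb, one_mul]
      rw [e, map_mul] at hi
      have : v d * v (z i) < 1 * v (z i) := mul_lt_mul_of_pos_right hab (zero_lt_iff.2 (hvz i))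
      rw [one_mul] at this
      exact absurd hi (not_le.2 this)
    refine hi.trans ?_
    rw [map_mul]
    exact mul_le_of_le_one_right' hz
  have hnum : ∀ i, v (b * z i ^ 2 + 2 * z i + a) = v ((b * z i + 1) ^ 2 + -d) := by
    intro i
    have e : b * (b * z i ^ 2 + 2 * z i + a) = (b * z i + 1) ^ 2 + -d := by rw [hd]; ring
    rw [← e, map_mul, hb, one_mul]
  have badlt : ∀ i, ¬ v (d * z i) < v (b * z i + 1) →
      v ((b * z i + 1) ^ 2) < v (b * z i ^ 2 + 2 * z i + a) := by
    intro i hi
    have h1 := bad i hi
    have hd0 : v d ≠ 0 := by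
      intro h0
      rw [h0] at h1
      exact hvw i (le_antisymm h1 zero_le)
    have h2 : v ((b * z i + 1) ^ 2) < v d := by
      rw [map_pow, sq]
      calc v (b * z i + 1) * v (b * z i + 1) ≤ v d * v d := mul_le_mul' h1 h1
        _ < v d * 1 := mul_lt_mul_of_pos_left hab (zero_lt_iff.2 hd0)
        _ = v d := mul_one _
    rw [hnum, Valuation.map_add_eq_of_lt_right v (by rwa [Valuation.map_neg]), Valuation.map_neg]
    exact h2
  have goodle : ∀ i, v (d * z i) < v (b * z i + 1) →
      v ((b * z i + 1) ^ 2) ≤ v (b * z i ^ 2 + 2 * z i + a) := by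
    intro i hi
    have h1 := hnear i hi
    have h2 : v d < v ((b * z i + 1) ^ 2) := by
      rw [map_pow]
      exact hab.trans_le (one_le_pow_of_one_le' h1 2)
    rw [hnum, Valuation.map_add_eq_of_lt_left v (by rwa [Valuation.map_neg])]
  have hex : ∃ i, ¬ v (d * z i) < v (b * z i + 1) := by
    by_contra hc
    push Not at hc
    exact noturn 0 (fun j _ => hc _)
  obtain ⟨i₀, hi₀⟩ := hex
  apply h.one_lt_lam v _ (badlt i₀ hi₀)
  intro i
  by_cases hi : v (d * z i) < v (b * z i + 1)
  · exact goodle i hi
  · exact (badlt i hi).le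

/-- **Translation lemma**: maps with a multiple fixed point, near infinity. -/
theorem translation (ha : 1 < v a) (hr : v (n : K) = 1) (hrj : ∀ j : ℕ, 0 < j → j < n → v (j : K) = 1)
    (h : NCyc a 1 n lam z) : 1 < v lam := by
  set β := a - 1 with hβ
  have hvβ : v β = v a := by
    rw [hβ]
    exact Valuation.map_sub_eq_of_lt_left v (by rwa [map_one])
  have hM : 1 < v β := by rw [hvβ]; exact ha
  have hβ0 : v β ≠ 0 := (zero_lt_one.trans hM).ne'
  set U : ℕ → K := fun i => 1 * z i + 1 with hU
  have hU0 : ∀ i, U i ≠ 0 := h.den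
  have hvU : ∀ i, v (U i) ≠ 0 := fun i => (v.ne_zero_iff).2 (hU0 i)
  have hst : ∀ i, U (i + 1) = U i + β - β / U i := by
    intro i
    have e : U (i + 1) * U i = (U i + β) * U i - β := by
      simp only [hU, hβ]
      linear_combination h.step i
    have e2 : U (i + 1) = ((U i + β) * U i - β) / U i := by
      rw [eq_div_iff (hU0 i)]; exact e
    rw [e2, sub_div, mul_div_cancel_right₀ _ (hU0 i)]
  have hper : ∀ i, U (i + n) = U i := by
    intro i; simp only [hU, h.per]
  -- translation step
  have tr : ∀ i, 1 < v (U i) → v (U (i + 1) - U i - β) < v β := by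
    intro i hi
    have : U (i + 1) - U i - β = -(β / U i) := by rw [hst]; ring
    rw [this, Valuation.map_neg, map_div₀]
    rw [div_lt_iff₀ (zero_lt_iff.2 (hvU i))]
    have := mul_lt_mul_of_pos_left hi (zero_lt_iff.2 hβ0)
    rwa [mul_one] at this
  have iter : ∀ i k, (∀ j, j < k → 1 < v (U (i + j))) →
      v (U (i + k) - U i - k * β) < v β := by
    intro i k
    induction k with
    | zero => intro _; simp [zero_lt_iff.2 hβ0]
    | succ k ih =>
      intro hk
      have e1 := ih (fun j hj => hk j (by omega))
      have e2 := tr (i + k) (hk k (by omega))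
      have : U (i + (k + 1)) - U i - ((k + 1 : ℕ) : K) * β
          = (U (i + k + 1) - U (i + k) - β) + (U (i + k) - U i - k * β) := by
        push_cast
        rw [← add_assoc]
        ring
      rw [this]
      exact Valuation.map_add_lt v e2 e1
  have noturn : ∀ i, ¬ (∀ j, j < n → 1 < v (U (i + j))) := by
    intro i hi
    have e := iter i n hi
    rw [hper, show U i - U i - (n : K) * β = -((n : K) * β) by ring, Valuation.map_neg, map_mul,
      hr, one_mul] at e
    exact lt_irrefl _ e
  have gap : ∀ i, 1 < v (U i) → v β ≤ v (U i) := by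
    intro i hi
    by_contra hc
    rw [not_le] at hc
    apply noturn i
    intro j hj
    induction j using Nat.strong_induction_on with
    | _ j ih =>
      rcases Nat.eq_zero_or_pos j with rfl | hj0
      · simpa using hi
      · have e := iter i j (fun k hk => ih k hk (hk.trans hj))
        have e1 : U (i + j) = (j : K) * β + (U i + (U (i + j) - U i - (j : K) * β)) := by ring
        have e2 : v ((j : K) * β) = v β := by rw [map_mul, hrj j hj0 hj, one_mul]
        have e3 : v (U (i + j)) = v β := by
          rw [e1, Valuation.map_add_eq_of_lt_left v, e2]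
          rw [e2]
          exact Valuation.map_add_lt v hc e
        rw [e3]
        exact hM
  have hnum : ∀ i, 1 * z i ^ 2 + 2 * z i + a = U i ^ 2 + β := by
    intro i; simp only [hU, hβ]; ring
  have hsm : ∀ i, v (U i) ≤ 1 → v ((1 * z i + 1) ^ 2) < v (1 * z i ^ 2 + 2 * z i + a) := by
    intro i hi
    have h1 : v (U i ^ 2) < v β := by
      rw [map_pow]
      exact (pow_le_one' hi 2).trans_lt hM
    rw [hnum, Valuation.map_add_eq_of_lt_right v h1]
    exact h1
  have hla : ∀ i, 1 < v (U i) → v ((1 * z i + 1) ^ 2) ≤ v (1 * z i ^ 2 + 2 * z i + a) := by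
    intro i hi
    have h1 : v β < v (U i ^ 2) := by
      rw [map_pow, sq]
      calc v β < v β * v β := le_mul_of_one_lt' hM hβ0
        _ ≤ _ := mul_le_mul' (gap i hi) (gap i hi)
    rw [hnum, Valuation.map_add_eq_of_lt_left v h1]
  have hex : ∃ i, v (U i) ≤ 1 := by
    by_contra hc
    push Not at hc
    exact noturn 0 (fun j _ => hc _)
  obtain ⟨i₀, hi₀⟩ := hex
  apply h.one_lt_lam v _ (hsm i₀ hi₀)
  intro i
  rcases le_or_gt (v (U i)) 1 with hi | hi
  · exact (hsm i hi).le
  · exact hla i hi

end Rot

end Pool.Agent.helper56.Per
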