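import Pool.Agent.helper56.Per.Normal

/-!
# Transport of cycles to the normal form
-/

namespace Pool.Agent.helper56.Per

open Finset

theorem HCyc.toN {K : Type*} [Field K] {a b : K} {n : ℕ} {lam : K} {X Y c : ℕ → K}
    (h : HCyc a b n lam X Y c) (hX : ∀ i, X i ≠ 0) (hY : ∀ i, Y i ≠ 0)
    (hne : ∀ i, X (i + 1) * Y i ≠ X i * Y (i + 1)) : NCyc a b n lam (fun i => X i / Y i) := by
  have hbz : ∀ i, b * (X i / Y i) + 1 = c i * Y (i + 1) / Y i ^ 2 := by
    intro i
    have h1 := hY i
    have h2 := h.fy i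
    rw [← h2]
    field_simp
  refine ⟨h.npos, fun i => div_ne_zero (hX i) (hY i), ?_, ?_, ?_, ?_, ?_⟩
  · intro i
    rw [hbz]
    exact div_ne_zero (mul_ne_zero (h.cne i) (hY _)) (pow_ne_zero _ (hY i))
  · intro i
    rw [hbz]
    have h1 := hY i
    have h2 := hY (i + 1)
    have h3 := h.fx i
    field_simp
    linear_combination (-1 : K) * h3
  · intro i
    simp only [h.perX, h.perY]
  · intro i h0
    have h1 := hY i
    have h2 := hY (i + 1)
    rw [div_eq_div_iff h2 h1] at h0
    exact hne i h0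
  · have e1 : (∏ i ∈ range n, (b * (X i / Y i) ^ 2 + 2 * (X i / Y i) + a)) * ∏ i ∈ range n, Y i ^ 2
        = lam * ∏ i ∈ range n, c i ^ 2 := by
      rw [← h.mul, ← prod_mul_distrib]
      refine prod_congr rfl fun i _ => ?_
      have h1 := hY i
      field_simp
    have e3 : ∏ i ∈ range n, Y (i + 1) ^ 2 = ∏ i ∈ range n, Y i ^ 2 := by
      apply prod_shift (fun i => Y i ^ 2)
      have := h.perY 0
      rw [zero_add] at this
      simp only [this]
    have hne' : ∏ i ∈ range n, Y i ^ 2 ≠ 0 :=
      prod_ne_zero_iff.2 fun i _ => pow_ne_zero _ (hY i)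
    have e2 : (∏ i ∈ range n, (b * (X i / Y i) + 1) ^ 2) * ∏ i ∈ range n, Y i ^ 2
        = ∏ i ∈ range n, c i ^ 2 := by
      apply mul_right_cancel₀ hne'
      nth_rw 3 [← e3]
      rw [← prod_mul_distrib, ← prod_mul_distrib, ← prod_mul_distrib]
      refine prod_congr rfl fun i _ => ?_
      rw [hbz]
      have h1 := hY i
      field_simp
    apply mul_right_cancel₀ hne'
    rw [e1, mul_assoc, e2]

section

variable {f : QMap} {a b p q r t : ℂ}

theorem HasN.B (h : HasN f a b p q r t) (x y : ℂ) :
    f.B (p * x + q * y) (r * x + t * y) (p * x + q * y) (r * x + t * y)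
      = b * x ^ 2 + 2 * x * y + a * y ^ 2 := by
  have key : ∀ x y x' y' : ℂ, x * y' - x' * y ≠ 0 →
      f.B (p * x + q * y) (r * x + t * y) (p * x' + q * y') (r * x' + t * y')
        = b * x * x' + (x * y' + x' * y) + a * y * y' := by
    intro x y x' y' hne
    have e := f.det_B (p * x + q * y) (r * x + t * y) (p * x' + q * y') (r * x' + t * y')
    rw [h.hX, h.hY, h.hX, h.hY] at e
    have : (p * t - q * r) * (x * y' - x' * y) *
        f.B (p * x + q * y) (r * x + t * y) (p * x' + q * y') (r * x' + t * y')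
        = (p * t - q * r) * (x * y' - x' * y) * (b * x * x' + (x * y' + x' * y) + a * y * y') := by
      linear_combination (-1 : ℂ) * e
    exact mul_left_cancel₀ (mul_ne_zero h.det hne) this
  have k1 := key 1 0 0 1 (by norm_num)
  have k2 := key 1 0 1 1 (by norm_num)
  have k3 := key 0 1 1 1 (by norm_num)
  simp only [QMap.B] at k1 k2 k3 ⊢
  linear_combination x ^ 2 * (k2 - k1) + 2 * x * y * k1 + y ^ 2 * (k3 - k1)

variable {n : ℕ} {lam z : ℂ}

theorem IsPer.per (h : IsPer f n lam z) (i : ℕ) : f.toFun^[i + n] z = f.toFun^[i] z := by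
  obtain ⟨_, _, h3, _⟩ := h
  rw [← h3]
  exact Function.iterate_add_minimalPeriod_eq

theorem IsPer.mem (h : IsPer f n lam z) : z ∈ Function.periodicPts f.toFun := by
  obtain ⟨h1, _, h3, _⟩ := h
  exact Function.minimalPeriod_pos_iff_mem_periodicPts.1 (by rw [h3]; exact h1)

theorem IsPer.ne (h : IsPer f n lam z) (hn : 2 ≤ n) (i : ℕ) :
    f.toFun^[i + 1] z ≠ f.toFun^[i] z := by
  intro h0
  have e := Function.minimalPeriod_apply_iterate h.mem i
  rw [Function.iterate_succ_apply'] at h0
  have e2 : Function.minimalPeriod f.toFun (f.toFun^[i] z) = 1 :=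
    Function.minimalPeriod_eq_one_iff_isFixedPt.2 h0
  obtain ⟨_, _, h3, _⟩ := h
  omega

theorem IsPer.mul (h : IsPer f n lam z) :
    ∏ i ∈ range n, f.B (f.toFun^[i] z) 1 (f.toFun^[i] z) 1
      = lam * ∏ i ∈ range n, f.den (f.toFun^[i] z) ^ 2 := by
  obtain ⟨_, h2, _, h4⟩ := h
  rw [(f.hasDerivAt_iterate h2 n).deriv, prod_div_distrib] at h4
  rw [← h4, div_mul_cancel₀]
  exact prod_ne_zero_iff.2 fun i _ => pow_ne_zero _ (h2 i)

/-- the transported cycle, in homogeneous coordinates -/
theorem HasN.hcyc (h : HasN f a b p q r t) (hz : IsPer f n lam z) :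
    HCyc a b n lam (fun i => t * f.toFun^[i] z - q) (fun i => p - r * f.toFun^[i] z)
      (fun i => (p * t - q * r) * f.den (f.toFun^[i] z)) := by
  have hden := hz.2.1
  have key : ∀ i, (t * f.toFun^[i] z - q) * ((t * f.toFun^[i] z - q)
      + a * (p - r * f.toFun^[i] z))
        = (p * t - q * r) * f.den (f.toFun^[i] z) * (t * f.toFun^[i + 1] z - q) ∧
      (p - r * f.toFun^[i] z) * (b * (t * f.toFun^[i] z - q) + (p - r * f.toFun^[i] z))
        = (p * t - q * r) * f.den (f.toFun^[i] z) * (p - r * f.toFun^[i + 1] z) := by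
    intro i
    set w := f.toFun^[i] z with hw
    have hw1 : f.toFun^[i + 1] z = f.num w / f.den w := by
      rw [Function.iterate_succ_apply']; rfl
    have hdw : f.den w ≠ 0 := hden i
    have e1 := h.hX (t * w - q) (p - r * w)
    have e2 := h.hY (t * w - q) (p - r * w)
    set NX := (t * w - q) * ((t * w - q) + a * (p - r * w)) with hNX
    set NY := (p - r * w) * (b * (t * w - q) + (p - r * w)) with hNY
    have e3 : f.X (p * (t * w - q) + q * (p - r * w)) (r * (t * w - q) + t * (p - r * w))
        = (p * t - q * r) ^ 2 * f.num w := by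
      simp only [QMap.X, QMap.num]; ring
    have e4 : f.Y (p * (t * w - q) + q * (p - r * w)) (r * (t * w - q) + t * (p - r * w))
        = (p * t - q * r) ^ 2 * f.den w := by
      simp only [QMap.Y, QMap.den]; ring
    rw [e3] at e1
    rw [e4] at e2
    have hnum : f.num w = f.den w * f.toFun^[i + 1] z := by
      rw [hw1]; field_simp
    rw [hnum] at e1
    have hD := h.det
    constructor
    · apply mul_left_cancel₀ hD
      linear_combination (-t) * e1 + q * e2
    · apply mul_left_cancel₀ hD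
      linear_combination r * e1 - p * e2
  refine ⟨hz.1, fun i => mul_ne_zero h.det (hden i), fun i => (key i).1, fun i => (key i).2,
    fun i => ?_, fun i => ?_, ?_⟩
  · simp only [hz.per]
  · simp only [hz.per]
  · have e : ∏ i ∈ range n, (b * (t * f.toFun^[i] z - q) ^ 2
        + 2 * (t * f.toFun^[i] z - q) * (p - r * f.toFun^[i] z) + a * (p - r * f.toFun^[i] z) ^ 2)
        = ∏ i ∈ range n, ((p * t - q * r) ^ 2 * f.B (f.toFun^[i] z) 1 (f.toFun^[i] z) 1) := by
      refine prod_congr rfl fun i _ => ?_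
      rw [← h.B]
      simp only [QMap.B]
      ring
    rw [e, prod_mul_distrib, hz.mul]
    have e2 : ∏ i ∈ range n, ((p * t - q * r) * f.den (f.toFun^[i] z)) ^ 2
        = (∏ i ∈ range n, (p * t - q * r) ^ 2) * ∏ i ∈ range n, f.den (f.toFun^[i] z) ^ 2 := by
      rw [← prod_mul_distrib]
      exact prod_congr rfl fun i _ => by ring
    rw [e2]
    ring

/-- the transported cycle in affine coordinates -/
theorem HasN.ncyc (h : HasN f a b p q r t) (hz : IsPer f n lam z) (hn : 2 ≤ n) :
    NCyc a b n lam (fun i => (t * f.toFun^[i] z - q) / (p - r * f.toFun^[i] z)) ∧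
      ∀ i, p - r * f.toFun^[i] z ≠ 0 := by
  have hc := h.hcyc hz
  have hX : ∀ i, t * f.toFun^[i] z - q ≠ 0 := by
    intro i h0
    have h1 := hc.fx i
    beta_reduce at h1
    rw [h0, zero_mul] at h1
    have h2 : t * f.toFun^[i + 1] z - q = 0 :=
      (mul_eq_zero.1 h1.symm).resolve_left (hc.cne i)
    apply hz.ne hn i
    have ht : t ≠ 0 := by
      rintro rfl
      have hq : q = 0 := by linear_combination (-1 : ℂ) * h0
      apply h.det; rw [hq]; ring
    have : t * (f.toFun^[i + 1] z - f.toFun^[i] z) = 0 := by linear_combination h2 - h0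
    exact sub_eq_zero.1 ((mul_eq_zero.1 this).resolve_left ht)
  have hY : ∀ i, p - r * f.toFun^[i] z ≠ 0 := by
    intro i h0
    have h1 := hc.fy i
    beta_reduce at h1
    rw [h0, zero_mul] at h1
    have h2 : p - r * f.toFun^[i + 1] z = 0 :=
      (mul_eq_zero.1 h1.symm).resolve_left (hc.cne i)
    apply hz.ne hn i
    have ht : r ≠ 0 := by
      rintro rfl
      have hq : p = 0 := by linear_combination h0
      apply h.det; rw [hq]; ring
    have : r * (f.toFun^[i + 1] z - f.toFun^[i] z) = 0 := by linear_combination h0 - h2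
    exact sub_eq_zero.1 ((mul_eq_zero.1 this).resolve_left ht)
  refine ⟨hc.toN hX hY ?_, hY⟩
  intro i h0
  apply hz.ne hn i
  have : (p * t - q * r) * (f.toFun^[i + 1] z - f.toFun^[i] z) = 0 := by
    linear_combination h0
  exact sub_eq_zero.1 ((mul_eq_zero.1 this).resolve_left h.det)

theorem HasN.inj (h : HasN f a b p q r t) {z y : ℂ} (hz : p - r * z ≠ 0) (hy : p - r * y ≠ 0)
    (he : (t * z - q) / (p - r * z) = (t * y - q) / (p - r * y)) : z = y := by
  rw [div_eq_div_iff hz hy] at he
  have : (p * t - q * r) * (z - y) = 0 := by linear_combination he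
  exact sub_eq_zero.1 ((mul_eq_zero.1 this).resolve_left h.det)

/-- a fixed point in affine coordinates gives a fixed vector -/
theorem IsPer.fixed (hz : IsPer f 1 lam z) :
    f.X z 1 = f.den z * z ∧ f.Y z 1 = f.den z * 1 ∧ f.den z ≠ 0 ∧
      lam = f.B z 1 z 1 / f.den z ^ 2 := by
  have hd : f.den z ≠ 0 := hz.2.1 0
  have h1 := hz.per 0
  simp only [zero_add, Function.iterate_one, Function.iterate_zero, id_eq] at h1
  have h2 : f.num z / f.den z = z := h1
  rw [div_eq_iff hd] at h2
  refine ⟨?_, ?_, hd, ?_⟩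
  · have : f.X z 1 = f.num z := by simp only [QMap.X, QMap.num]; ring
    rw [this, h2]; ring
  · simp only [QMap.Y, QMap.den]; ring
  · have := hz.mul
    simp only [range_one, prod_singleton, Function.iterate_zero, id_eq] at this
    rw [this]
    field_simp

/-- disjointness of orbits -/
theorem IsPer.disjoint {m : ℕ} {lam' y : ℂ} (hz : IsPer f n lam z) (hy : IsPer f m lam' y)
    (h : ∀ i : ℕ, f.toFun^[i] z ≠ y) (i j : ℕ) : f.toFun^[i] z ≠ f.toFun^[j] y := by
  intro h0
  -- apply `f^[k]` with `j + k` a multiple of `m`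
  obtain ⟨k, hk⟩ : ∃ k, j + k = j * m := ⟨j * m - j, by
    have : j ≤ j * m := Nat.le_mul_of_pos_right j hy.1
    omega⟩
  apply h (k + i)
  rw [Function.iterate_add_apply, h0, ← Function.iterate_add_apply, add_comm k j, hk]
  have : ∀ l, f.toFun^[l * m] y = y := by
    intro l
    induction l with
    | zero => simp
    | succ l ih => rw [Nat.succ_mul, hy.per, ih]
  exact this j

end

end Pool.Agent.helper56.Per
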